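import Pool.Agent.Lib.MP_640417_ag.FT.Defs
import Pool.Agent.Lib.MP_640417_ag.FC.SpecB

/-!
# MP_640417_ag, project FT (THEOREM F3P, helper1, note 4082)

The Tate characters of all lengths of the degrees `m` with few prime factors.

RULES.  Module X: file `Pool/Agent/Lib/MP_640417_ag/FT/X.lean`, first line
`import Pool.Agent.Lib.MP_640417_ag.FT.Spec` (import NO other module), then `noncomputable section`,
`namespace Pool.Agent.FT`, `open Finset Pool.Agent.FC`, final theorem `theorem tX (h1 : S_..) .. : S_X`, the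
statements listed under *Uses* being the hypotheses, in this order.  All other declarations `private`.  No
`sorry`, no `native_decide`, no quotation marks.  `Pool.Agent.FC.S_Cop`, `S_Sw`, `S_Dis` (file `FC/SpecB.lean`)
are facts which are already proved; they are hypotheses where they are listed.  Questions: helper1.

NOTATION.  `[x] = Finsupp.single x (1 : ℤ)`; `K_m` = the elements of `ℝ/ℤ` killed by `m`.
-/

set_option autoImplicit false

noncomputable section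

namespace Pool.Agent.FT

open Finset Pool.Agent.FC

theorem Ph_single (t : ℕ) (y : UnitAddCircle) (n : ℤ) : Ph t (Finsupp.single y n) = n * sw (t • y) := by
  unfold Ph
  rw [Finsupp.liftAddHom_apply_single]
  simp

theorem mem_Sp {S : Set UnitAddCircle} {b : UnitAddCircle} (h : b ∈ S) :
    Finsupp.single b (1 : ℤ) ∈ Sp S :=
  AddSubgroup.subset_closure ⟨b, h, rfl⟩

theorem Sp_mono {S T : Set UnitAddCircle} (h : S ⊆ T) : Sp S ≤ Sp T :=
  AddSubgroup.closure_mono fun _ ⟨b, hb, e⟩ => ⟨b, h hb, e⟩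

theorem HD_le_GG : HD ≤ GG := le_sup_left

/-! ## Part A: nonvanishing and rank -/

/-- **Hz.** The odd Hurwitz zeta function at `1`.
*Uses:* nothing.
*Proof.* `HurwitzZeta.hasSum_nat_hurwitzZetaOdd_of_mem_Icc`: for real `s > 1` the value at `s` is
`∑_n (1 / (n + a) ^ s - 1 / (n + 1 - a) ^ s) / 2`. Let `s → 1+` (a sequence `s_k = 1 + 1 / (k + 1)`, or
`𝓝[>] 1`): the left side tends to the value at `1` (`HurwitzZeta.differentiable_hurwitzZetaOdd`, continuous).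
The right side: with `δ = min a (1 - a) > 0` and `1 ≤ s ≤ 2` the mean value theorem gives
`|(n + a) ^ (-s) - (n + 1 - a) ^ (-s)| ≤ s (n + δ) ^ (-s - 1) ≤ C / (n + δ) ^ 2` with `C` depending only on
`δ` (or for `n ≥ 1` `≤ 2 / n ^ 2`, and for `n = 0` `≤ 2 / δ ^ 2`), so
`tendsto_tsum_of_dominated_convergence` gives the limit `∑_n (1 / (n + a) - 1 / (n + 1 - a)) / 2`. This is
`(1 / 2) (1 / a + ∑_{n ≥ 1} (1 / (a - n) + 1 / (a + n))) = (π / 2) cot (π a)` by `cot_series_rep` (shift of the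
second summand by one: partial sums `∑_{n < K} (1 / (n + a) - 1 / (n + 1 - a))` and
`1 / a + ∑_{1 ≤ n < K} (1 / (a + n) + 1 / (a - n))` differ by `1 / (K - a) → 0`; both sums converge, so compare the
limits). -/
def S_Hz : Prop :=
  ∀ a : ℝ, 0 < a → a < 1 →
    HurwitzZeta.hurwitzZetaOdd (a : UnitAddCircle) 1 = (Real.pi / 2 : ℂ) * Complex.cot (Real.pi * a)

/-- **Cot.** The cotangent sum of an odd character is not zero.
*Uses:* `S_Hz`.
*Proof.* `χ ≠ 1` (`χ (-1) = -1`), so `L(χ, 1) ≠ 0` (`DirichletCharacter.LFunction_apply_one_ne_zero`). By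
definition `DirichletCharacter.LFunction χ s = ZMod.LFunction χ s`, and `ZMod.LFunction_def_odd` (`χ` is odd as a
function) gives `L(χ, 1) = N ^ (-1) ∑_j χ(j) hurwitzZetaOdd (toAddCircle j) 1`. For `j ≠ 0`:
`toAddCircle j = ↑(j.val / N)` (`ZMod.toAddCircle_apply`), `0 < j.val / N < 1`, `S_Hz`. For `j = 0`: `χ 0 = 0`
(`N ≠ 1` because for `N = 1` `χ (-1) = χ 1 = 1`). So `L(χ, 1) = (π / (2 N)) ∑ χ(j) cot(π j / N)`. -/
def S_Cot : Prop :=
  ∀ (N : ℕ) [NeZero N] (χ : DirichletCharacter ℂ N), χ.Odd →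
    ∑ j : ZMod N, χ j * Complex.cot (Real.pi * (j.val / N)) ≠ 0

/-- **Coe.** For every odd character `χ` one of the sums `∑_s χ(s) {s k / M}` is not zero.
*Uses:* `S_Cot`.
*Proof.* Let `c(k) = ∑_s χ(s) sw (s k)` (`s` units; `sw (y)` for `y : ZMod M` is `sw (toAddCircle y)
= y.val / M - 1 / 2`, `FC.S_Sw` (2) or directly `AddCircle.coe_equivIco_mk_apply`). Suppose that `c(k) = 0` for all
`k ≠ 0`; `c(0) = - (1 / 2) ∑_s χ(s) = 0` too (`χ ≠ 1`). Let `e = ZMod.stdAddChar` (`e(1) = exp(2 π i / M)`). Then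
`0 = ∑_k c(k) e(-k) = ∑_s χ(s) ∑_k sw(s k) e(-k) = ∑_s χ(s) G(s⁻¹)`, `G(t) = ∑_k sw(k) e(- t k)` (substitute
`k → s⁻¹ k`). For `t ≠ 0` let `z = e(-t) ≠ 1`, `z ^ M = 1`: `∑_{k < M} z ^ k = 0`,
`∑_{k < M} k z ^ k = M / (z - 1)`, so `G(t) = 1 / (z - 1)`. With `z = exp(- 2 i θ)`, `θ = π t.val / M`:
`1 / (z - 1) = - 1 / 2 + (i / 2) cot θ`. So `0 = (i / 2) ∑_s χ(s) cot(π s⁻¹ / M)
= (i / 2) ∑_t χ⁻¹(t) cot(π t / M)`, a contradiction to `S_Cot` for `χ⁻¹` (the terms of nonunits are zero). -/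
def S_Coe : Prop :=
  ∀ (M : ℕ) [NeZero M] (χ : DirichletCharacter ℂ M), χ.Odd →
    ∃ k : ZMod M, k ≠ 0 ∧
      ∑ s : (ZMod M)ˣ, χ s * (sw (ZMod.toAddCircle ((s : ZMod M) * k)) : ℂ) ≠ 0

/-- **Odd.** At least half of the characters are odd.
*Uses:* nothing.
*Proof.* `χ(-1) = ± 1` (`DirichletCharacter.even_or_odd`), and `∑_χ χ(-1) = 0` because `-1 ≠ 1` in `ZMod M`
(`DirichletCharacter.sum_characters_eq_zero`, or the orthogonality relation `sum_char_inv_mul_char_eq`), so the number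
of the odd characters is the number of the even ones; together they are `φ(M)`
(`DirichletCharacter.card_eq_totient_of_hasEnoughRootsOfUnity`, `Nat.card`). -/
def S_Odd : Prop :=
  ∀ (M : ℕ) [NeZero M], 3 ≤ M →
    ∃ S : Finset (DirichletCharacter ℂ M), (∀ χ ∈ S, χ.Odd) ∧ M.totient ≤ 2 * #S

/-- **Ind.** If the functions `t ↦ sw (t b)`, `b ∈ B`, generate all `t ↦ sw (t x)` and `2 #B ≤ φ(M)`, then they
are linearly independent.
*Uses:* `S_Coe`, `S_Odd`.
*Proof.* In `W = ((ZMod M)ˣ → ℂ)` let `F_x(u) = sw (u.val.val • x)`, and `V = span ℂ {F_b : b ∈ B}`. The hypothesis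
gives `F_x ∈ V` for all `x ∈ K_M`, `x ≠ 0` (`u.val.val` is prime to `M`: `ZMod.val_coe_unit_coprime`). Let `χ` be odd
and `k` as in `S_Coe` for `χ`, `x = toAddCircle k`. For a unit `s` the element `toAddCircle (s k)` is in `K_M`
and not zero, and `F_{toAddCircle (s k)}(u) = sw (toAddCircle (s u k))` (`n • toAddCircle k = toAddCircle (n k)`,
`map_nsmul`). So `∑_s χ(s) F_{toAddCircle (s k)} ∈ V`, and its value at `u` is
`∑_s χ(s) sw (toAddCircle (s u k)) = χ⁻¹(u) c`, `c ≠ 0` (substitute `s → s u⁻¹`). Hence `χ⁻¹ ∈ V` for all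
odd `χ`, i.e. all odd characters are in `V`. Different characters are linearly independent
(`linearIndependent_monoidHom`, for the homomorphisms `(ZMod M)ˣ →* ℂ`). So `finrank V ≥ φ(M) / 2 ≥ #B`
(`S_Odd`), and a family of `#B` vectors whose span has dimension `≥ #B` is linearly independent
(`linearIndependent_of_top_le_span_of_card_eq_finrank` or `linearIndependent_iff_card_le_finrank_span`). The
conclusion: `∑ c_b F_b = 0` (values at `u`), so `c_b = 0`. -/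
def S_Ind : Prop :=
  ∀ (M : ℕ) (B : Finset UnitAddCircle), 3 ≤ M → 2 * #B ≤ M.totient → (∀ b ∈ B, M • b = 0) →
    (∀ x ∈ Kz M, ∃ c : UnitAddCircle → ℝ, ∀ t : ℕ, t.Coprime M →
      sw (t • x) = ∑ b ∈ B, c b * sw (t • b)) →
    ∀ c : UnitAddCircle → ℝ, (∀ t : ℕ, t.Coprime M → ∑ b ∈ B, c b * sw (t • b) = 0) → ∀ b ∈ B, c b = 0

/-! ## Part B: points and relations -/

/-- **Pt.** Facts about the points `k / M`.
*Uses:* `FC.S_Sw` (2).
*Proof.* (1) `r = ↑x` with `0 ≤ x < 1`, `M x` an integer `k`, `0 ≤ k < M` (`AddCircle.coe_eq_zero_iff`);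
conversely `M • ↑(k / M) = ↑(k : ℝ) = 0`. (2) `↑(k / M) = ↑(l / M)` iff `(k - l) / M` is an integer
(`AddCircle.coe_eq_coe_iff_of_mem_Ico`, or `coe_eq_zero_iff` for the difference). (3) from (2) with `l = 0`. (4), (5), (6):
computation in `ℝ`. (7) `sw ↑r = fract r - 1 / 2`, `fract (k / M) = (k % M) / M`
(`Int.fract_div_natCast_eq_div_natCast_mod`). (8) `k + l` is divisible by `M`: (6) and (3) with
`pt M k + pt M l = pt M (k + l)`. -/
def S_Pt : Prop :=
  (∀ (M : ℕ) (x : UnitAddCircle), 0 < M → (M • x = 0 ↔ ∃ k, k < M ∧ x = pt M k)) ∧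
  (∀ M k l : ℕ, 0 < M → (pt M k = pt M l ↔ k ≡ l [MOD M])) ∧
  (∀ M k : ℕ, 0 < M → (pt M k = 0 ↔ M ∣ k)) ∧
  (∀ M k n : ℕ, n • pt M k = pt M (n * k)) ∧
  (∀ M k n j : ℕ, 0 < M → n ∣ M →
    pt M k + ((j / n : ℝ) : UnitAddCircle) = pt M (k + j * (M / n))) ∧
  (∀ M L k : ℕ, 0 < M → L ∣ M → pt L k = pt M (k * (M / L))) ∧
  (∀ M k : ℕ, 0 < M → sw (pt M k) = (k % M : ℕ) / M - 1 / 2) ∧
  ∀ M k l : ℕ, 0 < M → M ∣ k + l → pt M l = - pt M k

/-- **HDf.** Elements of `HD`.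
*Uses:* `S_Pt`.
*Proof.* (1) and (2) are the generators of `HD` (`AddSubgroup.subset_closure`); in (2) split off `j = 0`
(`Finset.sum_range_succ'` or `Finset.range_eq_Ico`, `Finset.sum_eq_sum_Ico_succ_bot`): the generator is
`[x] + ∑_{1 ≤ j < n} [x + j / n] - [n x]`. (3) The generator with `n = 2`, `y = pt 4 1` is
`[1/4] + [3/4] - [1/2]`, and `[1/4] + [-1/4]` is a generator, `-1/4 = 3/4`. -/
def S_HDf : Prop :=
  (∀ x : UnitAddCircle, x ≠ 0 → Finsupp.single x (1 : ℤ) + Finsupp.single (-x) 1 ∈ HD) ∧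
  (∀ (n : ℕ) (x : UnitAddCircle), 0 < n → n • x ≠ 0 →
    Finsupp.single x (1 : ℤ) + ∑ j ∈ Ico 1 n, Finsupp.single (x + ((j / n : ℝ) : UnitAddCircle)) 1 -
      Finsupp.single (n • x) 1 ∈ HD) ∧
  Finsupp.single (pt 2 1) (1 : ℤ) ∈ HD

/-- **GPh.** The elements of `GG` satisfy Stickelberger's relation.
*Uses:* `FC.S_Sw`, `FC.S_Dis`, `S_Pt`.
*Proof.* `g = h + c` (`AddSubgroup.mem_sup`), `h ∈ HD`, `c` in the closure of the nine families. For both parts
`AddSubgroup.closure_induction` (for `HD` see the proof of `claim` in `FC/B/HDRel.lean`, it can be copied: generator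
`[y] + [-y]`: `L = 2 max(addOrderOf y, 1)`, `t • y ≠ 0` and `FC.S_Sw` (3); distribution: `L = 2 n` and `FC.S_Dis`; zero:
`L = 1` or `2`; sum: the product of the two `L`; negative: the same `L`). Nine families: `L = q.1 > 0`; for `t'`
prime to `M = q.1` let `u = t' t`, prime to `M`; `Ph t'` of the generator is
`∑_k sw (pt M (u k)) = (∑_k (u k % M)) / M - (length) / 2` (`Ph_single`, `S_Pt` (4), (7); the sum of a list: `map_list_sum`),
and `2 ∑_k (u k % M) = M * length` depends only on `u % M`: a finite check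
(`∀ q ∈ tup, ∀ u < q.1, u.Coprime q.1 → 2 * (q.2.map fun k => u * k % q.1).sum = q.1 * q.2.length` by `decide`). -/
def S_GPh : Prop :=
  ∀ g ∈ GG, ∃ L : ℕ, 0 < L ∧ ∀ t : ℕ, t.Coprime L → Ph t g = 0

/-- **GRel.** A tuple of elements of finite order whose formal sum is in `GG` is a relation.
*Uses:* `FC.S_Cop`, `S_GPh`.
*Proof.* Let `t` be prime to all orders `o_i > 0` of the `x_i`, `i ∈ s`, `P = ∏_{i ∈ s} o_i`; `t` is prime to `P`. Let
`L` be as in `S_GPh` for the formal sum. `FC.S_Cop` (`P`, `L`): `t' ≡ t` mod `P`, prime to `P * L`. Then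
`t' • x_i = t • x_i` (`addOrderOf`, `nsmul_eq_nsmul_iff_modEq`), and `∑ sw (t • x_i) = ∑ sw (t' • x_i) =
Ph t' (∑ [x_i]) = 0` (`map_sum`, `Ph_single`). -/
def S_GRel : Prop :=
  ∀ (ι : Type) (s : Finset ι) (x : ι → UnitAddCircle), (∀ i ∈ s, IsOfFinAddOrder (x i)) →
    ∑ i ∈ s, Finsupp.single (x i) (1 : ℤ) ∈ GG → RelOn s x

/-- **Ker.** If `Gen M`, then an element of `GG` plus the span of the elements of level `M` which satisfies
Stickelberger's relation is in `GG`.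
*Uses:* `FC.S_Cop`, `S_GPh`, `S_Ind`.
*Proof.* Let `B` be the set of `Gen M`. The span of `Kz M` is in `GG ⊔ Sp B` (`AddSubgroup.closure_le`), so `f = g + s`,
`g ∈ GG`, `s ∈ Sp B` (`AddSubgroup.mem_sup`). Every `s ∈ Sp B` is `∑_{b ∈ B} c_b [b]` with integers `c_b`
(closure induction: generator `c = Pi.single b 1`, sums, negatives). FACT: if
`Ph t (g' + ∑ c_b [b]) = r(t)` for all `t` prime to some `L > 0`, with `g' ∈ GG`, then
`r(t) = ∑ c_b sw (t • b)` for all `t` prime to some `L' > 0` (`S_GPh`). (a) Hypothesis of `S_Ind`: for `x ∈ Kz M`: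
`[x] = g' + ∑ c_b [b]`, so `sw (t • x) = ∑ c_b sw (t • b)` for all `t` prime to `L'`; for `t` prime to `M` take
`t' ≡ t` mod `M` prime to `M * L'` (`FC.S_Cop`); `t' • y = t • y` if `M • y = 0`. (b) In the same way
`∑ c_b sw (t • b) = 0` for all `t` prime to `M`, for the `c` of `f`. By `S_Ind` `c_b = 0` for `b ∈ B`, so `f = g ∈ GG`. -/
def S_Ker : Prop :=
  ∀ M : ℕ, 3 ≤ M → Gen M → ∀ f ∈ GG ⊔ Sp (Kz M),
    (∃ L : ℕ, 0 < L ∧ ∀ t : ℕ, t.Coprime L → Ph t f = 0) → f ∈ GG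

/-! ## Part C: level lowering -/

/-- **Cc.** Coordinates.
*Uses:* `S_Pt`.
*Proof.* Let `v = m.factorization l > 0`, `u = m / l ^ v`, so `m = u l ^ v`, `u` prime to `l`
(`Nat.ordProj_dvd`, `Nat.coprime_ordCompl`). (1) `l ^ v • u • x = m • x = 0`. (2) `u • (x + z) = u • x + u • z`,
`u • (j / l) = (u j) / l`, and this is a sum in the circle. For `l' ≠ l` the number `m / l' ^ v'` is
divisible by `l`, so it kills `j / l`. (3) The order of `x` divides `m`; let `o ≠ 1` be the order of `x - y`;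
`o ∣ m`, so a prime `l ∣ o` is in `m.primeFactors`, `cc m l (x - y) = 0` gives `o ∣ m / l ^ v`, so `l ∣ m / l ^ v`, a
contradiction. (4) `cc m l x ≠ 0` is killed by `l ^ v` (and by the order `o` of `x`): if `l` does not divide `o`, then
`o` and `l ^ v` are coprime and `cc m l x = 0`. -/
def S_Cc : Prop :=
  (∀ (m l : ℕ) (x : UnitAddCircle), m • x = 0 → l ^ m.factorization l • cc m l x = 0) ∧
  (∀ (m l l' j : ℕ) (x : UnitAddCircle), 0 < m → l ∈ m.primeFactors → l' ∈ m.primeFactors → l' ≠ l →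
    cc m l' (x + ((j / l : ℝ) : UnitAddCircle)) = cc m l' x) ∧
  (∀ (m : ℕ) (x y : UnitAddCircle), 0 < m → m • x = 0 → m • y = 0 →
    (∀ l ∈ m.primeFactors, cc m l x = cc m l y) → x = y) ∧
  ∀ (m l : ℕ) (x : UnitAddCircle), 0 < m → l ∈ m.primeFactors → m • x = 0 → cc m l x ≠ 0 →
    l ∣ addOrderOf x

/-- **StL.** The other elements of the coset of a bad element are not bad.
*Uses:* `S_Pt`.
*Proof.* `v = m.factorization l > 0`, `u = m / l ^ v` prime to `l`. `cc m l x = pt (l ^ v) k`,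
`0 < k ≤ l ^ (v - 1)`, and `cc m l (x + j / l) = cc m l x + (u j) / l = pt (l ^ v) (k + u j l ^ (v - 1))` (`S_Pt` (5)
with `n = l`, `l ^ v / l = l ^ (v - 1)`). If this is `pt (l ^ v) k'` with `0 < k' ≤ l ^ (v - 1)`, then
`k + u j l ^ (v - 1) ≡ k'` mod `l ^ v` (`S_Pt` (2)), so `k ≡ k'` mod `l ^ (v - 1)`, so `k = k'` (both in
`(0, l ^ (v - 1)]`), so `l ^ v ∣ u j l ^ (v - 1)`, `l ∣ u j`, `l ∣ j`, which is false for `0 < j < l`. -/
def S_StL : Prop :=
  ∀ (m l j : ℕ) (x : UnitAddCircle), 0 < m → l ∈ m.primeFactors → cc m l x ∈ Bad m l → 0 < j → j < l →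
    cc m l (x + ((j / l : ℝ) : UnitAddCircle)) ∉ Bad m l

/-- **StP.** The coordinate at `p`.
*Uses:* `S_Pt`.
*Proof.* `q = p ^ a`, `a = m.factorization p ≥ 2` (`≥ 3` if `p = 2`), `u = m / q` prime to `p`.
`cc m p x = u • x` is killed by `q`, so it is `pt q k`, `k < q`; `p ∤ k`: otherwise `(q / p) • u • x = 0`, but
`(q / p) u = m / p` and `(m / p) • x ≠ 0`. (1) `sw (pt q k) = k / q - 1 / 2 = 0` iff `2 k = q`; then for `p` odd
`p ∣ k`, and for `p = 2` `k = 2 ^ (a - 1)` is even: contradiction. (2) If `| k / q - 1 / 2 | ≥ 1 / 2 - 1 / (2 p)`,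
then `2 p k ≤ q` or `2 p (q - k) ≤ q`; equality is impossible (it gives `2 k = p ^ (a - 1)` or
`2 (q - k) = p ^ (a - 1)`, so `p ∣ k`, for `p = 2` because `k = 2 ^ (a - 2)` or `q - k = 2 ^ (a - 2)`, `a ≥ 3`).
`cc m p (x + j / p) = pt q (k + u j p ^ (a - 1))` (`S_Pt` (5)) `= pt q (k + i p ^ (a - 1))` with `i = u j % p`,
`0 < i < p` (`p ∤ u j`). Let `n = p ^ (a - 1)`, `q = p n`. If `2 k < n`: `r = k + i n` satisfies
`n ≤ r`, `2 r < n + 2 (p - 1) n = 2 q - n`, so `r < q` and `2 p r ≥ 2 q > q` and `2 p (q - r) > p n = q`. If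
`2 (q - k) < n`: `k + i n - q = i n - (q - k)` is `> n / 2` and `≤ (p - 1) n - 1`, the same conclusion. So
`| sw | < 1 / 2 - 1 / (2 p)`. -/
def S_StP : Prop :=
  ∀ (m p : ℕ) (x : UnitAddCircle), 0 < m → p.Prime → p ^ 2 ∣ m → (p = 2 → 8 ∣ m) → m • x = 0 →
    (m / p) • x ≠ 0 →
    sw (cc m p x) ≠ 0 ∧
    (¬ |sw (cc m p x)| < 1 / 2 - 1 / (2 * p) → ∀ j : ℕ, 0 < j → j < p →
      |sw (cc m p (x + ((j / p : ℝ) : UnitAddCircle)))| < 1 / 2 - 1 / (2 * p))

/-- **Elim.** Modulo `HD` all classes of level `m` are combinations of the classes of the elements of `TT m p` and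
of the elements killed by `m / p`.
*Uses:* `FC.S_Sw`, `S_Pt`, `S_HDf`, `S_Cc`, `S_StL`, `S_StP`.
*Proof.* Let `V = HD ⊔ Sp (TT m p ∪ Kz (m / p))`. If `(m / p) • x = 0`, then `[x] ∈ Sp`. Call `x` new if
`m • x = 0`, `(m / p) • x ≠ 0`. STRONG INDUCTION on `n` for: `[x] ∈ V` for all new `x` with
`addOrderOf x = n`. Assume it for smaller orders.
STEP 2 (first): every new `y` with `addOrderOf y ≤ n` and
`-(1 / 2 - 1 / (2 p)) < sw (cc m p y) < 0` has `[y] ∈ V`: induction on the number of the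
`l ∈ m.primeFactors`, `l ≠ p`, with `cc m l y ∈ Bad m l`. If there is none, then `y ∈ TT m p`. Otherwise take such an
`l`; `cc m l y = pt (l ^ v) k ≠ 0` (`0 < k ≤ l ^ (v - 1) < l ^ v`, `S_Pt` (3)).
So `l ∣ addOrderOf y` (`S_Cc` (4)). `l • y ≠ 0` because `(m / p) • (l • y) = l • ((m / p) • y) ≠ 0`:
`(m / p) • y` is killed by `p`, not zero, `l ≠ p` prime. So `S_HDf` (2) for `n = l`: `[y] ∈ V` follows from
`[y + j / l] ∈ V`, `1 ≤ j < l`, and `[l • y] ∈ V`. `l • y` is new and its order is `addOrderOf y / l < n`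
(`addOrderOf_nsmul`): strong induction. `y + j / l`: killed by `m` and `(m / p) • (y + j / l) = (m / p) • y`
(`l ∣ m / p`), so it is new; its order divides `addOrderOf y` (`l ∣ addOrderOf y`), so it is `≤ n`;
`cc m p` and the coordinates at the primes `≠ l` are unchanged (`S_Cc` (2)), the coordinate at `l` is not bad
(`S_StL`): the number is smaller, inner induction.
STEP 1: let `x` be new of order `n`. (a) If `|sw (cc m p x)| < 1 / 2 - 1 / (2 p)`: `sw ≠ 0` (`S_StP`). If it is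
negative: STEP 2. If it is positive: `-x` is new with the same order, `sw (cc m p (-x)) = - sw (cc m p x)`
(`FC.S_Sw` (3), `cc m p x ≠ 0` because `(m / p) • x` is a multiple of it: `m / p = p ^ (a - 1) (m / p ^ a)`), STEP 2 for
`-x`, and `[x] + [-x] ∈ HD` (`S_HDf` (1)). (b) Otherwise `S_HDf` (2) for `n = p` (`p • x ≠ 0` because
`p ∣ m / p`): `[x]` is, modulo `HD`, `[p • x]` minus the sum of the `[x + j / p]`, `1 ≤ j < p`. `p • x ∈ Kz (m / p)`.
`x + j / p` is killed by `m`, `(m / p) • (x + j / p) = (m / p) • x` (`p ∣ m / p`), so it is new, `p ∣ addOrderOf x`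
(`S_Cc` (4)), so its order is `≤ n`, and by `S_StP` it is as in (a), which holds for order `≤ n` too. -/
def S_Elim : Prop :=
  ∀ (m p : ℕ), 0 < m → p.Prime → p ^ 2 ∣ m → (p = 2 → 8 ∣ m) → ∀ x ∈ Kz m,
    Finsupp.single x (1 : ℤ) ∈ HD ⊔ Sp (TT m p ∪ Kz (m / p))

/-- **CntP.** The number of the good values of the coordinate at `p`.
*Uses:* nothing.
*Proof.* `q = p ^ a`, `n = p ^ (a - 1)`, `q = p n`. `φ(q)` is the number of the `k < q` with `p ∤ k`
(`Nat.totient_eq_card_coprime`, `Nat.coprime_pow_right_iff`…). In this set there are three disjoint sets: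
`A = {k : q < 2 p k, 2 k < q}`, its image under `k ↦ q - k` (there `2 k > q`, `2 p (q - k) > q`), and
the image of `{k' < n : p ∤ k'}` (`φ(n)` elements) under `k' ↦ k'` if `2 k' ≤ n`, `k' ↦ q - (n - k')` if
`2 k' > n`: there `2 p k ≤ q` or `2 p (q - k) ≤ q`; injective. (`q ≥ 2 n`, so the two halves do not meet; if
`q = 2 n` (`p = 2`) use that `2 k' = n` is impossible: `a ≥ 3`, `p ∤ k'`.) -/
def S_CntP : Prop :=
  ∀ p a : ℕ, p.Prime → 2 ≤ a → (p = 2 → 3 ≤ a) →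
    2 * #{k ∈ range (p ^ a) | ¬ p ∣ k ∧ p ^ a < 2 * p * k ∧ 2 * k < p ^ a} + (p ^ (a - 1)).totient ≤
      (p ^ a).totient

/-- **CntT.** The number of the elements of `TT m p`.
*Uses:* `S_Pt`, `S_Cc`, `S_CntP`.
*Proof.* For `l ∈ m.primeFactors` with `v = m.factorization l` let `G_l : Finset UnitAddCircle` be: for `l ≠ p`
the image of `{k < l ^ v : k = 0 ∨ l ^ (v - 1) < k}` under `pt (l ^ v)`, at most
`l ^ v - l ^ (v - 1) = φ(l ^ v)` elements; for `l = p` the image of the set of `S_CntP` (`a = v`). If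
`x ∈ TT m p`, then `cc m l x ∈ G_l`: it is killed by `l ^ v` (`S_Cc` (1)), so it is `pt (l ^ v) k` with `k < l ^ v`; for
`l ≠ p` it is not bad; for `l = p`: `p ∤ k` (as in `S_StP`), `-(1 / 2 - 1 / (2 p)) < k / q - 1 / 2 < 0`. The map
`x ↦ (cc m l x)_l` from `TT m p` to `Finset.pi m.primeFactors G` is injective (`S_Cc` (3)). So the number is at most
`∏_l #G_l` (`Finset.card_pi`) `= #G_p ∏_{l ≠ p} φ(l ^ v)`. With `m = q m'`, `m'` prime to `p`:
`φ(m) = φ(q) φ(m')`, `φ(m / p) = φ(q / p) φ(m')`, `φ(m') = ∏_{l ≠ p} φ(l ^ v)`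
(`Nat.totient_mul`, `Nat.multiplicative_factorization` or `Nat.totient_eq_prod_factorization`), and `S_CntP`. -/
def S_CntT : Prop :=
  ∀ (m p : ℕ), 0 < m → p.Prime → p ^ 2 ∣ m → (p = 2 → 8 ∣ m) →
    (TT m p).Finite ∧ 2 * (TT m p).ncard + (m / p).totient ≤ m.totient

/-- **Low.** Level raising by `p`.
*Uses:* `S_Elim`, `S_CntT`.
*Proof.* `B = B_1 ∪ TT m p` with `B_1` the set of `Gen (m / p)`: `2 #B ≤ φ(m / p) + φ(m) - φ(m / p)`, the elements are
killed by `m`. `[x] ∈ HD ⊔ Sp (TT m p ∪ Kz (m / p))` for `x ∈ Kz m`, and `HD ≤ GG`,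
`Sp (TT m p) ≤ Sp B`, `[y] ∈ GG ⊔ Sp B_1` for `y ∈ Kz (m / p)`. -/
def S_Low : Prop :=
  ∀ (m p : ℕ), 0 < m → p.Prime → p ^ 2 ∣ m → (p = 2 → 8 ∣ m) → Gen (m / p) → Gen m

/-- **Chn.** From a level to its multiples with the same prime factors.
*Uses:* `S_Low`.
*Proof.* Strong induction on `M`. If `M = b`: done. Otherwise `M = b n`, `n > 1`, let `p` be a prime factor of
`n`; `p ∣ M`, so `p ∣ b`, `p ^ 2 ∣ M`; `b ∣ M / p` (`M / p = b (n / p)`), `M / p < M`,
`(M / p).primeFactors ⊆ M.primeFactors`. If `p = 2`, then `2 ∣ b`, so `4 ∣ b`, `8 ∣ M`. `Gen (M / p)` by induction,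
`Gen M` by `S_Low`. -/
def S_Chn : Prop :=
  ∀ b M : ℕ, Gen b → (4 ∣ b ∨ ¬ 2 ∣ b) → 0 < M → b ∣ M → M.primeFactors ⊆ b.primeFactors → Gen M

/-! ## Part D: base levels and the end -/

/-- **Cert.** A certificate proves `Gen M`.
*Uses:* `S_Pt`, `S_HDf`.
*Proof.* Let `B' = (B.map (pt M)).toFinset`, `V = GG ⊔ Sp B'`. `2 #B' ≤ 2 B.length ≤ φ(M)`; the elements are killed by
`M` (`S_Pt` (1): `M • pt M k = pt M (M k) = 0`). Let `val l = ∑_{(k, c) ∈ l} c • [pt M k]` (list sum). (a)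
`val (ins.add l k c) - val l - c • [pt M k] = 0` (induction on `l`). (b) `val (ins M l (k, c)) - val l - c • [pt M k] ∈ HD`:
`r = k % M`, `pt M k = pt M r`; if `2 r < M`: (a); if `2 r = M`: `pt M r = pt 2 1` (`S_Pt` (6)) and `[pt 2 1] ∈ HD`; if `2 r > M`:
`[pt M r] + [pt M (M - r)] ∈ HD` (`S_HDf` (1), `S_Pt` (8), `pt M r ≠ 0`). (c) `val (l.foldl (ins M) []) - val l ∈ HD`. (d)
`val (rel M s) ∈ GG` for every `s`: distribution: `n • pt M y = pt M (n y) ≠ 0` (`S_Pt` (3)), the generator of `HD` for `y = pt M y`,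
`pt M y + j / n = pt M (y + j (M / n))` (`S_Pt` (5)); nine tuples: the generator of `GG`,
`pt L (t k) = pt M (t k (M / L))` (`S_Pt` (6)). (e) If `[pt M k] ∈ V` for all `k ∈ known`, then for all `k ∈ stp M known s`: the
normal form `l` of the relation has `val l ∈ V`; the terms outside the filter have coefficient `0` or are known, so the sum of the
terms of the filter (one term `(k, c)`, `c = ± 1`) is in `V`. (f) Induction on the list of the steps: all `k` with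
`0 < k < M`, `2 k < M` have `[pt M k] ∈ V`. If `2 k = M`: `[pt 2 1] ∈ HD`; if `2 k > M`: `[pt M k] + [pt M (M - k)] ∈ HD`. Every
`x ∈ Kz M` is `pt M k`, `0 < k < M` (`S_Pt` (1), (3)). -/
def S_Cert : Prop :=
  ∀ (M : ℕ) (B : List ℕ) (st : List (ℕ × ℕ × ℕ)), 0 < M → 2 * B.length ≤ M.totient →
    (∀ k : ℕ, k < M → 0 < k → 2 * k < M → k ∈ st.foldl (stp M) B) → Gen M

/-- **BasP.** Prime levels.
*Uses:* `S_Pt`, `S_HDf`.
*Proof.* `p` odd: `B = {pt p k : 0 < k < p, 2 k < p}`, `(p - 1) / 2` elements at most; `x ∈ Kz p` is `pt p k`,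
`0 < k < p`; if `2 k < p`: in `B`; otherwise `- x = pt p (p - k) ∈ B` and `[x] + [-x] ∈ HD`. -/
def S_BasP : Prop := ∀ p : ℕ, p.Prime → p ≠ 2 → Gen p

/-- **Bas.** The other base levels.
*Uses:* `S_Cert`.
*Proof.* Certificates (found by computer). -/
def S_Bas : Prop := Gen 4 ∧ Gen 39 ∧ Gen 60 ∧ Gen 84 ∧ Gen 105 ∧ Gen 132 ∧ Gen 140

/-- **Red.** Twice an odd level.
*Uses:* `S_Pt`, `S_HDf`.
*Proof.* If `M • x = 0`, then `x ∈ Kz M`. Otherwise `M • x = 1/2` (killed by `2`, not zero), `h = pt 2 1`,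
`M • h = h` (`M` odd), `y = x + h`, `M • y = h + h = 0`, `x = y + h` (`h + h = 0`). If `y = 0`: `x = h`, `S_HDf` (3). If
`y ≠ 0`: `2 • y ≠ 0` (`M • y = 0`, `M` odd), and `S_HDf` (2) for `n = 2` and `y`:
`[y] + [y + 1/2] - [2 • y] ∈ HD`, `y + 1/2 = x` (`h = ↑(1 / 2)`), and `y, 2 • y ∈ Kz M`. -/
def S_Red : Prop :=
  ∀ M : ℕ, ¬ 2 ∣ M → ∀ x ∈ Kz (2 * M), Finsupp.single x (1 : ℤ) ∈ HD ⊔ Sp (Kz M)

/-- **Emb.** Every level of the theorem is in a level with `Gen`.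
*Uses:* `S_Pt`, `S_HDf`, `S_Chn`, `S_BasP`, `S_Bas`, `S_Red`.
*Proof.* Let `r = red m > 0`. If `m % 4 = 2`, then `m = 2 r` and `r` is odd, otherwise `m = r`. If `M` is a number with
`r ∣ M`, and `m ∣ M` or `M` is odd, then the last clause holds for `M`: if `m ∣ M`, then `Kz m ⊆ Kz M`; otherwise
`m = 2 r ∣ 2 M`, `Kz m ⊆ Kz (2 M)`, and `S_Red` with `HD ≤ GG`.
CASE 1: `r.primeFactors = ∅`: `r = 1`, `m = 1` or `2`; `M = 3`, `Gen 3` (`S_BasP`), and `M` is odd. CASE 2: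
`r.primeFactors = {p}`. If `p ≠ 2`: `M = r`, `Gen r` by `S_Chn` with `b = p`, `r` is odd, `r ≥ 3`. If `p = 2`: `r` is
even, so `m = r`, `m % 4 ≠ 2`, `4 ∣ r`; `M = r`, `S_Chn` with `b = 4`, `m ∣ M`. CASE 3: `r.primeFactors ⊆ S`, and `b` is `60`, `84`,
`132`, `140`, `105`, `39`: `b.primeFactors = S`. `M = r b`; `M.primeFactors = r.primeFactors ∪ b.primeFactors =
b.primeFactors` (`Nat.primeFactors_mul`), `Gen M` by `S_Chn`. If `4 ∣ b` (the first four): `m ∣ 2 r ∣ M`. In the other two cases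
`2 ∤ r` (`2 ∉ S`), `2 ∤ b`, so `M` is odd. `M ≥ 3`. -/
def S_Emb : Prop :=
  ∀ m : ℕ, 0 < m → Deg m → ∃ M : ℕ, 3 ≤ M ∧ Gen M ∧
    ∀ x ∈ Kz m, Finsupp.single x (1 : ℤ) ∈ GG ⊔ Sp (Kz M)

/-- **End.** THEOREM F3P: at the levels `m` with `Deg m` Stickelberger's relation implies membership in `GG`.
*Uses:* `S_Ker`, `S_Emb`.
*Proof.* `S_Emb`: `M`; `f ∈ Sp (Kz m) ≤ GG ⊔ Sp (Kz M)` (`AddSubgroup.closure_le`); `S_Ker`. -/
def S_End : Prop :=
  ∀ m : ℕ, 0 < m → Deg m → ∀ f ∈ Sp (Kz m),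
    (∃ L : ℕ, 0 < L ∧ ∀ t : ℕ, t.Coprime L → Ph t f = 0) → f ∈ GG

/-- **EndT.** The same for tuples.
*Uses:* `S_End`.
*Proof.* `f = ∑ [x_i] ∈ Sp (Kz m)` (`sum_mem`, `mem_Sp`). With `L = m`: for `t` prime to `m` and `i ∈ s` the number `t` is
prime to the order of `x_i` (it divides `m`), so `Ph t f = ∑ sw (t • x_i) = 0` (`map_sum`, `Ph_single`). -/
def S_EndT : Prop :=
  ∀ m : ℕ, 0 < m → Deg m → ∀ (ι : Type) (s : Finset ι) (x : ι → UnitAddCircle),
    (∀ i ∈ s, x i ∈ Kz m) → RelOn s x → ∑ i ∈ s, Finsupp.single (x i) (1 : ℤ) ∈ GG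

end Pool.Agent.FT
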