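import Pool.Agent.Lib.MP_640417_ag.FT.Spec

/-!
Certificates for the base levels.
-/

set_option autoImplicit false

noncomputable section

namespace Pool.Agent.FT

open Finset Pool.Agent.FC

private def b39 : List ℕ :=
  [18, 11, 14, 9, 10, 3, 12, 17, 19, 6, 15, 13]

private def s39 : List (ℕ × ℕ × ℕ) :=
    [(0, 3, 3), (0, 3, 1), (0, 3, 4), (8, 8, 0), (0, 3, 6), (0, 3, 5), (8, 2, 0)]

private theorem c39 : ∀ k : ℕ, k < 39 → 0 < k → 2 * k < 39 → k ∈ s39.foldl (stp 39) b39 := by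
  decide +kernel

private def b60 : List ℕ :=
  [20, 15, 8, 12, 18, 9, 11, 7]

private def s60 : List (ℕ × ℕ × ℕ) :=
    [(0, 2, 10), (1, 5, 0), (0, 3, 5), (2, 2, 0), (0, 2, 8), (0, 2, 12), (2, 4, 0), (2, 7, 0),
     (0, 2, 4), (0, 2, 2), (0, 10, 2), (0, 6, 4), (3, 3, 0), (3, 9, 0), (3, 7, 0), (0, 4, 4),
     (0, 3, 1), (0, 12, 1), (0, 5, 5), (0, 4, 2), (0, 20, 1)]

private theorem c60 : ∀ k : ℕ, k < 60 → 0 < k → 2 * k < 60 → k ∈ s60.foldl (stp 60) b60 := by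
  decide +kernel

private def b84 : List ℕ :=
  [39, 3, 12, 18, 38, 32, 31, 25, 27, 23, 28, 29]

private def s84 : List (ℕ × ℕ × ℕ) :=
    [(0, 2, 3), (0, 2, 6), (0, 4, 3), (0, 2, 12), (0, 3, 10), (0, 6, 4), (0, 2, 4), (4, 10, 0),
     (4, 8, 0), (4, 4, 0), (0, 2, 16), (0, 6, 2), (0, 2, 8), (0, 7, 2), (0, 4, 10), (0, 12, 3),
     (0, 3, 11), (0, 4, 9), (5, 1, 0), (5, 5, 0), (0, 4, 2), (0, 3, 9), (0, 12, 2), (0, 14, 2),
     (1, 5, 0), (0, 3, 7), (0, 7, 5), (0, 4, 1), (0, 28, 1)]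

private theorem c84 : ∀ k : ℕ, k < 84 → 0 < k → 2 * k < 84 → k ∈ s84.foldl (stp 84) b84 := by
  decide +kernel

private def b105 : List ℕ :=
  [43, 42, 2, 13, 24, 27, 52, 18, 51, 30, 34, 45, 25, 20, 50, 6, 12, 3, 37, 31, 38, 7, 14, 26]

private def s105 : List (ℕ × ℕ × ℕ) :=
    [(0, 3, 8), (0, 3, 17), (0, 3, 10), (4, 4, 0), (4, 10, 0), (4, 1, 0), (0, 5, 8), (0, 3, 6),
     (7, 4, 0), (0, 5, 6), (7, 9, 0), (0, 3, 13), (0, 15, 1), (0, 3, 2), (7, 17, 0), (7, 8, 0),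
     (0, 3, 4), (0, 5, 4), (0, 3, 11), (0, 15, 3), (0, 3, 7), (2, 2, 0), (2, 7, 0), (0, 7, 7),
     (0, 21, 2), (0, 7, 4), (0, 5, 2), (0, 35, 1)]

private theorem c105 : ∀ k : ℕ, k < 105 → 0 < k → 2 * k < 105 → k ∈ s105.foldl (stp 105) b105 := by
  decide +kernel

private def b132 : List ℕ :=
  [56, 20, 40, 38, 52, 11, 47, 53, 5, 23, 59, 36, 60, 6, 24, 4, 1, 45, 51, 17]

private def s132 : List (ℕ × ℕ × ℕ) :=
    [(0, 2, 10), (0, 2, 20), (0, 2, 28), (6, 5, 0), (0, 2, 22), (0, 2, 26), (0, 2, 14),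
     (1, 1, 0), (1, 5, 0), (0, 4, 14), (0, 4, 13), (0, 4, 5), (0, 4, 10), (0, 4, 7), (0, 2, 30),
     (0, 2, 6), (0, 3, 12), (0, 3, 20), (0, 2, 32), (0, 6, 10), (0, 3, 8), (6, 1, 0), (0, 6, 6),
     (0, 3, 6), (0, 3, 18), (0, 6, 4), (0, 6, 8), (0, 22, 2), (0, 6, 2), (0, 4, 1), (0, 12, 1),
     (0, 3, 21), (0, 4, 3), (0, 4, 15), (0, 3, 15), (0, 12, 4), (0, 4, 16), (0, 3, 5),
     (9, 21, 0), (9, 9, 0), (9, 15, 0), (0, 3, 9), (0, 12, 2), (0, 11, 5), (0, 44, 1)]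

private theorem c132 : ∀ k : ℕ, k < 132 → 0 < k → 2 * k < 132 → k ∈ s132.foldl (stp 132) b132 := by
  decide +kernel

private def b140 : List ℕ :=
  [10, 20, 30, 25, 15, 65, 47, 23, 48, 58, 22, 16, 4, 54, 38, 66, 21, 19, 37, 17, 1, 27, 3, 31]

private def s140 : List (ℕ × ℕ × ℕ) :=
    [(0, 2, 10), (0, 2, 30), (0, 2, 20), (0, 4, 10), (0, 4, 15), (5, 5, 0), (5, 1, 0),
     (0, 2, 23), (0, 2, 24), (0, 4, 12), (0, 2, 22), (0, 5, 12), (0, 2, 2), (0, 10, 2),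
     (0, 2, 26), (0, 5, 4), (0, 2, 32), (7, 12, 0), (0, 2, 6), (0, 10, 4), (0, 2, 18),
     (7, 17, 0), (7, 16, 0), (0, 2, 28), (0, 14, 2), (0, 10, 6), (0, 14, 4), (3, 3, 0),
     (3, 9, 0), (3, 7, 0), (0, 4, 16), (0, 5, 9), (0, 4, 9), (0, 20, 2), (0, 4, 17), (0, 4, 1),
     (0, 4, 8), (0, 7, 3), (0, 5, 1), (0, 4, 6), (0, 20, 1), (0, 28, 2), (0, 7, 9), (0, 5, 11),
     (0, 35, 1)]

private theorem c140 : ∀ k : ℕ, k < 140 → 0 < k → 2 * k < 140 → k ∈ s140.foldl (stp 140) b140 := by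
  decide +kernel

theorem tBas (h1 : S_Cert) : S_Bas := by
  refine ⟨h1 4 [1] [] (by norm_num) (by decide) (by decide), ?_, ?_, ?_, ?_, ?_, ?_⟩
  · exact h1 39 b39 s39 (by norm_num) (by decide +kernel) c39
  · exact h1 60 b60 s60 (by norm_num) (by decide +kernel) c60
  · exact h1 84 b84 s84 (by norm_num) (by decide +kernel) c84
  · exact h1 105 b105 s105 (by norm_num) (by decide +kernel) c105
  · exact h1 132 b132 s132 (by norm_num) (by decide +kernel) c132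
  · exact h1 140 b140 s140 (by norm_num) (by decide +kernel) c140

end Pool.Agent.FT
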