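import Pool.Agent.Lib.MP_640417_ag.FT.Spec

/-!
# Tate characters of Fermat varieties: prime levels
-/

set_option autoImplicit false

noncomputable section

namespace Pool.Agent.FT

open Finset Pool.Agent.FC

/-- **Prime levels.** -/
theorem tBasP (h1 : S_Pt) (h2 : S_HDf) : S_BasP := by
  classical
  intro p hp hp2
  obtain ⟨hP1, -, hP3, hP4, -, -, -, hP8⟩ := h1
  obtain ⟨hH1, -, -⟩ := h2
  have hp0 : 0 < p := hp.pos
  have hodd : p % 2 = 1 := hp.eq_two_or_odd.resolve_left hp2
  obtain ⟨B, hB⟩ : ∃ B : Finset UnitAddCircle, B = (Ico 1 ((p + 1) / 2)).image (pt p) := ⟨_, rfl⟩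
  have hmem : ∀ k, 0 < k → 2 * k < p → pt p k ∈ B := by
    intro k hk hk2
    rw [hB]
    exact mem_image_of_mem _ (mem_Ico.2 ⟨hk, by omega⟩)
  have hin : ∀ k, 0 < k → 2 * k < p →
      Finsupp.single (pt p k) (1 : ℤ) ∈ GG ⊔ Sp (B : Set UnitAddCircle) := by
    intro k hk hk2
    refine AddSubgroup.mem_sup_right (AddSubgroup.subset_closure ?_)
    exact ⟨pt p k, hmem k hk hk2, rfl⟩
  refine ⟨B, ?_, ?_, ?_⟩
  · intro b hb
    rw [hB, mem_image] at hb
    obtain ⟨k, -, rfl⟩ := hb
    rw [hP4, hP3 p _ hp0]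
    exact dvd_mul_right p k
  · have hc : #B ≤ (p + 1) / 2 - 1 := by
      rw [hB]
      refine card_image_le.trans ?_
      rw [Nat.card_Ico]
    rw [Nat.totient_prime hp]
    omega
  · rintro x ⟨hx0, hx⟩
    obtain ⟨k, hk, rfl⟩ := (hP1 p x hp0).1 hx0
    have hk0 : 0 < k := by
      rcases Nat.eq_zero_or_pos k with h | h
      · exact absurd ((hP3 p k hp0).2 (by rw [h]; exact dvd_zero p)) hx
      · exact h
    rcases lt_or_ge (2 * k) p with h | h
    · exact hin k hk0 h
    · have h3 : pt p (p - k) = - pt p k := by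
        refine hP8 p k (p - k) hp0 ?_
        rw [Nat.add_sub_cancel' hk.le]
      have h4 : Finsupp.single (pt p k) (1 : ℤ) + Finsupp.single (- pt p k) 1 ∈
          GG ⊔ Sp (B : Set UnitAddCircle) :=
        AddSubgroup.mem_sup_left (AddSubgroup.mem_sup_left (hH1 _ hx))
      have h5 := hin (p - k) (by omega) (by omega)
      rw [h3] at h5
      have h6 := sub_mem h4 h5
      rwa [add_sub_cancel_right] at h6

end Pool.Agent.FT
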