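import Pool.Agent.Lib.MP_640417_ag.FT.Spec

/-!
# MP_640417_ag, FT/Cc (helper47): coordinates
-/

set_option autoImplicit false

noncomputable section

namespace Pool.Agent.FT

open Finset Pool.Agent.FC

private theorem Cc_1 (m l : ℕ) (x : UnitAddCircle) (hx : m • x = 0) :
    l ^ m.factorization l • cc m l x = 0 := by
  unfold cc
  rw [← mul_nsmul', Nat.mul_div_cancel' (Nat.ordProj_dvd m l)]
  exact hx

theorem tCc (h1 : S_Pt) : S_Cc := by
  refine ⟨Cc_1, ?_, ?_, ?_⟩
  · intro m l l' j x hm hl hl' hne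
    have hlp := Nat.prime_of_mem_primeFactors hl
    have hlp' := Nat.prime_of_mem_primeFactors hl'
    have hdm : l ∣ m := Nat.dvd_of_mem_primeFactors hl
    have hd : l ∣ m / l' ^ m.factorization l' := by
      have h2 : l ∣ l' ^ m.factorization l' * (m / l' ^ m.factorization l') := by
        rw [Nat.mul_div_cancel' (Nat.ordProj_dvd m l')]
        exact hdm
      have h3 : Nat.Coprime l (l' ^ m.factorization l') :=
        Nat.Coprime.pow_right _ ((Nat.coprime_primes hlp hlp').2 (Ne.symm hne))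
      exact h3.dvd_of_dvd_mul_left h2
    unfold cc
    rw [nsmul_add]
    have h4 : (m / l' ^ m.factorization l') • pt l j = 0 := by
      rw [h1.2.2.2.1, h1.2.2.1 _ _ hlp.pos]
      exact Dvd.dvd.mul_right hd j
    have h5 : (m / l' ^ m.factorization l') • ((j / l : ℝ) : UnitAddCircle) = 0 := h4
    rw [h5, add_zero]
  · intro m x y hm hx hy h
    have hz : addOrderOf (x - y) ∣ m := by
      rw [addOrderOf_dvd_iff_nsmul_eq_zero, nsmul_sub, hx, hy, sub_zero]
    by_contra hne
    have ho : addOrderOf (x - y) ≠ 1 := by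
      intro ho
      rw [AddMonoid.addOrderOf_eq_one_iff] at ho
      exact hne (sub_eq_zero.1 ho)
    obtain ⟨l, hl, hlo⟩ := Nat.exists_prime_and_dvd ho
    have hlm : l ∈ m.primeFactors :=
      Nat.mem_primeFactors.2 ⟨hl, hlo.trans hz, hm.ne'⟩
    have h2 : (m / l ^ m.factorization l) • (x - y) = 0 := by
      rw [nsmul_sub, sub_eq_zero]
      exact h l hlm
    rw [← addOrderOf_dvd_iff_nsmul_eq_zero] at h2
    exact Nat.not_dvd_ordCompl hl hm.ne' (hlo.trans h2)
  · intro m l x hm hl hx hne
    by_contra hno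
    apply hne
    have hlp := Nat.prime_of_mem_primeFactors hl
    have h2 : addOrderOf (cc m l x) ∣ l ^ m.factorization l :=
      addOrderOf_dvd_iff_nsmul_eq_zero.2 (Cc_1 m l x hx)
    have h3 : addOrderOf (cc m l x) ∣ addOrderOf x := by
      rw [addOrderOf_dvd_iff_nsmul_eq_zero]
      unfold cc
      rw [nsmul_left_comm, addOrderOf_nsmul_eq_zero, nsmul_zero]
    have h4 : Nat.Coprime (l ^ m.factorization l) (addOrderOf x) :=
      Nat.Coprime.pow_left _ ((Nat.Prime.coprime_iff_not_dvd hlp).2 hno)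
    have h5 : addOrderOf (cc m l x) = 1 := Nat.eq_one_of_dvd_coprimes h4 h2 h3
    exact AddMonoid.addOrderOf_eq_one_iff.1 h5

end Pool.Agent.FT
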