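import Pool.Agent.Lib.MP_640417_ag.FT.Spec

/-!
A certificate proves `Gen M`.
-/

set_option autoImplicit false

noncomputable section

namespace Pool.Agent.FT

open Finset Pool.Agent.FC

private def val (M : ℕ) (l : List (ℕ × ℤ)) : UnitAddCircle →₀ ℤ :=
  (l.map fun q => q.2 • Finsupp.single (pt M q.1) (1 : ℤ)).sum

private theorem val_nil (M : ℕ) : val M [] = 0 := by simp [val]

private theorem val_cons (M : ℕ) (q : ℕ × ℤ) (l : List (ℕ × ℤ)) :
    val M (q :: l) = q.2 • Finsupp.single (pt M q.1) (1 : ℤ) + val M l := by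
  simp [val]

private theorem val_add (M : ℕ) (l : List (ℕ × ℤ)) (k : ℕ) (c : ℤ) :
    val M (ins.add l k c) = val M l + c • Finsupp.single (pt M k) (1 : ℤ) := by
  induction l with
  | nil =>
    unfold ins.add
    rw [val_cons, val_nil]
    simp
  | cons q l ih =>
    obtain ⟨k', c'⟩ := q
    unfold ins.add
    by_cases h : k' = k
    · rw [if_pos h, val_cons, val_cons, h]
      simp only [add_smul]
      abel
    · rw [if_neg h, val_cons, val_cons, ih]
      abel

section

variable (h1 : S_Pt) (h2 : S_HDf) (M : ℕ) (hM : 0 < M)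

include h1 hM in
private theorem pt_mod (k : ℕ) : pt M (k % M) = pt M k :=
  (h1.2.1 M (k % M) k hM).2 (Nat.mod_modEq k M)

include h1 h2 hM in
private theorem half (k : ℕ) (hk : 2 * k = M) : Finsupp.single (pt M k) (1 : ℤ) ∈ HD := by
  have hk0 : 0 < k := by omega
  have h : pt 2 1 = pt M k := by
    rw [h1.2.2.2.2.2.1 M 2 1 hM (Dvd.intro k hk)]
    congr 1
    omega
  rw [← h]
  exact h2.2.2

include h1 h2 hM in
private theorem pair (k : ℕ) (hk : 0 < k) (hk' : k < M) :
    Finsupp.single (pt M k) (1 : ℤ) + Finsupp.single (pt M (M - k)) 1 ∈ HD := by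
  have h := h2.1 (pt M k) (by
    rw [Ne, h1.2.2.1 M k hM]
    intro h
    exact absurd (Nat.le_of_dvd hk h) (by omega))
  rwa [← h1.2.2.2.2.2.2.2 M k (M - k) hM ⟨1, by omega⟩] at h

include h1 h2 hM in
private theorem val_ins (l : List (ℕ × ℤ)) (q : ℕ × ℤ) :
    val M (ins M l q) - val M l - q.2 • Finsupp.single (pt M q.1) (1 : ℤ) ∈ HD := by
  have hr : q.1 % M < M := Nat.mod_lt _ hM
  have hp := pt_mod h1 M hM q.1
  rw [← hp]
  have hi : ins M l q = if 2 * (q.1 % M) < M then ins.add l (q.1 % M) q.2 else
    if 2 * (q.1 % M) = M then l else ins.add l (M - q.1 % M) (-q.2) := rfl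
  rw [hi]
  generalize q.1 % M = r at hr ⊢
  split_ifs with h h'
  · rw [val_add]
    have : val M l + q.2 • Finsupp.single (pt M r) (1 : ℤ) - val M l -
        q.2 • Finsupp.single (pt M r) (1 : ℤ) = 0 := by abel
    rw [this]
    exact zero_mem _
  · rw [sub_self, zero_sub]
    exact neg_mem (HD.zsmul_mem (half h1 h2 M hM r h') _)
  · rw [val_add]
    have : val M l + (-q.2) • Finsupp.single (pt M (M - r)) (1 : ℤ) - val M l -
        q.2 • Finsupp.single (pt M r) (1 : ℤ) =
        -(q.2 • (Finsupp.single (pt M r) (1 : ℤ) + Finsupp.single (pt M (M - r)) 1)) := by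
      rw [neg_smul, smul_add]
      abel
    rw [this]
    exact neg_mem (HD.zsmul_mem (pair h1 h2 M hM r (by omega) hr) _)

include h1 h2 hM in
private theorem val_foldl (l acc : List (ℕ × ℤ)) :
    val M (l.foldl (ins M) acc) - val M acc - val M l ∈ HD := by
  induction l generalizing acc with
  | nil =>
    simp only [List.foldl_nil, val_nil, sub_self]
    exact zero_mem _
  | cons q l ih =>
    rw [List.foldl_cons, val_cons]
    have e1 := ih (ins M acc q)
    have e2 := val_ins h1 h2 M hM acc q
    have := add_mem e1 e2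
    convert this using 1
    abel

include h1 hM in
private theorem val_rel (s : ℕ × ℕ × ℕ) : val M (rel M s) ∈ GG := by
  obtain ⟨i, a, b⟩ := s
  rcases i with _ | i
  · have hr : rel M (0, a, b) = if 0 < a ∧ a ∣ M ∧ ¬ M ∣ a * b then
      ((List.range a).map fun j => (b + j * (M / a), (1 : ℤ))) ++ [(a * b, -1)] else [] := rfl
    rw [hr]
    split_ifs with h
    · obtain ⟨ha, haM, hab⟩ := h
      refine HD_le_GG ?_
      have hg : (∑ j ∈ range a, Finsupp.single (pt M b + ((j / a : ℝ) : UnitAddCircle)) (1 : ℤ) -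
          Finsupp.single (a • pt M b) 1) ∈ HD := by
        refine AddSubgroup.subset_closure (Or.inr ⟨a, pt M b, ha.ne', ?_, rfl⟩)
        rw [h1.2.2.2.1, Ne, h1.2.2.1 M _ hM]
        exact hab
      have he : val M ((List.range a).map (fun j => (b + j * (M / a), (1 : ℤ))) ++ [(a * b, -1)]) =
          (∑ j ∈ range a, Finsupp.single (pt M b + ((j / a : ℝ) : UnitAddCircle)) (1 : ℤ) -
          Finsupp.single (a • pt M b) 1) := by
        unfold val
        rw [List.map_append, List.sum_append, List.map_map, h1.2.2.2.1]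
        have h0 : (List.map ((fun q : ℕ × ℤ => q.2 • Finsupp.single (pt M q.1) (1 : ℤ)) ∘
            fun j => (b + j * (M / a), (1 : ℤ))) (List.range a)).sum =
            ∑ j ∈ range a, Finsupp.single (pt M b + ((j / a : ℝ) : UnitAddCircle)) (1 : ℤ) := by
          change _ = (Multiset.map (fun j : ℕ =>
            Finsupp.single (pt M b + ((j / a : ℝ) : UnitAddCircle)) (1 : ℤ))
            ((List.range a : List ℕ) : Multiset ℕ)).sum
          rw [Multiset.map_coe, Multiset.sum_coe]
          congr 1
          apply List.map_congr_left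
          intro j _
          simp only [Function.comp_apply, one_smul]
          rw [h1.2.2.2.2.1 M b a _ hM haM]
        rw [h0]
        simp [sub_eq_add_neg]
      rw [he]
      exact hg
    · rw [val_nil]
      exact zero_mem _
  · have hr : rel M (i + 1, a, b) = match tup[i]? with
      | none => []
      | some q => if q.1 ∣ M ∧ a.Coprime q.1 then
          q.2.map fun k => (a * k * (M / q.1), (1 : ℤ)) else [] := rfl
    rw [hr]
    rcases hq : tup[i]? with _ | q
    · simp only
      rw [val_nil]
      exact zero_mem _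
    · simp only
      split_ifs with h
      · have hmem : q ∈ tup := List.mem_of_getElem? hq
        have hg : (q.2.map fun k => Finsupp.single (pt q.1 (a * k)) (1 : ℤ)).sum ∈ GG :=
          (le_sup_right : _ ≤ GG) (AddSubgroup.subset_closure ⟨q, a, hmem, h.2, rfl⟩)
        have he : val M (q.2.map fun k => (a * k * (M / q.1), (1 : ℤ))) =
            (q.2.map fun k => Finsupp.single (pt q.1 (a * k)) (1 : ℤ)).sum := by
          unfold val
          rw [List.map_map]
          congr 1
          apply List.map_congr_left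
          intro k _
          simp only [Function.comp_apply, one_smul]
          rw [h1.2.2.2.2.2.1 M q.1 (a * k) hM h.1]
        rw [he]
        exact hg
      · rw [val_nil]
        exact zero_mem _

private theorem val_filter (V : AddSubgroup (UnitAddCircle →₀ ℤ)) (P : ℕ × ℤ → Bool)
    (l : List (ℕ × ℤ)) (h : ∀ q ∈ l, P q = false → q.2 • Finsupp.single (pt M q.1) (1 : ℤ) ∈ V) :
    val M l - val M (l.filter P) ∈ V := by
  induction l with
  | nil =>
    simp only [List.filter_nil, sub_self]
    exact zero_mem _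
  | cons q l ih =>
    have ih' := ih fun q' hq' => h q' (List.mem_cons_of_mem _ hq')
    by_cases hP : P q = true
    · rw [List.filter_cons_of_pos hP, val_cons, val_cons, add_sub_add_left_eq_sub]
      exact ih'
    · rw [List.filter_cons_of_neg hP, val_cons, add_sub_assoc]
      exact add_mem (h q List.mem_cons_self (by simpa using hP)) ih'

include h1 h2 hM in
private theorem stp_mem (V : AddSubgroup (UnitAddCircle →₀ ℤ)) (hV : GG ≤ V) (known : List ℕ)
    (hk : ∀ k ∈ known, Finsupp.single (pt M k) (1 : ℤ) ∈ V) (s : ℕ × ℕ × ℕ) :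
    ∀ k ∈ stp M known s, Finsupp.single (pt M k) (1 : ℤ) ∈ V := by
  have hn : val M ((rel M s).foldl (ins M) []) ∈ V := by
    have e1 := val_foldl h1 h2 M hM (rel M s) []
    rw [val_nil, sub_zero] at e1
    have e2 := add_mem (hV (HD_le_GG e1)) (hV (val_rel h1 M hM s))
    rwa [sub_add_cancel] at e2
  have hs : stp M known s = match ((rel M s).foldl (ins M) []).filter
      (fun q => q.2 ≠ 0 ∧ q.1 ∉ known) with
    | [(k, c)] => if c = 1 ∨ c = -1 then k :: known else known
    | _ => known := rfl
  have hf := val_filter M V (fun q => q.2 ≠ 0 ∧ q.1 ∉ known) ((rel M s).foldl (ins M) []) (by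
    intro q _ hq
    have hq' : ¬ (q.2 ≠ 0 ∧ q.1 ∉ known) := by simpa using hq
    by_cases h0 : q.2 = 0
    · rw [h0, zero_smul]
      exact zero_mem _
    · have h3 : q.1 ∈ known := by
        by_contra h4
        exact hq' ⟨h0, h4⟩
      exact V.zsmul_mem (hk _ h3) _)
  have hv : val M (((rel M s).foldl (ins M) []).filter (fun q => q.2 ≠ 0 ∧ q.1 ∉ known)) ∈ V := by
    have := sub_mem hn hf
    rwa [sub_sub_cancel] at this
  rw [hs]
  generalize ((rel M s).foldl (ins M) []).filter (fun q => q.2 ≠ 0 ∧ q.1 ∉ known) = L at hv ⊢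
  rcases L with _ | ⟨q, l⟩
  · exact hk
  · obtain ⟨k, c⟩ := q
    rcases l with _ | ⟨q', l⟩
    · rw [val_cons, val_nil, add_zero] at hv
      simp only at hv ⊢
      split_ifs with hc
      · intro k' hk'
        rcases List.mem_cons.1 hk' with rfl | h3
        · rcases hc with rfl | rfl
          · rwa [one_smul] at hv
          · rw [neg_smul, one_smul] at hv
            exact neg_mem_iff.1 hv
        · exact hk _ h3
      · exact hk
    · exact hk

include h1 h2 hM in
private theorem foldl_mem (V : AddSubgroup (UnitAddCircle →₀ ℤ)) (hV : GG ≤ V)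
    (st : List (ℕ × ℕ × ℕ)) (known : List ℕ)
    (hk : ∀ k ∈ known, Finsupp.single (pt M k) (1 : ℤ) ∈ V) :
    ∀ k ∈ st.foldl (stp M) known, Finsupp.single (pt M k) (1 : ℤ) ∈ V := by
  induction st generalizing known with
  | nil => exact hk
  | cons s st ih =>
    rw [List.foldl_cons]
    exact ih _ (stp_mem h1 h2 M hM V hV known hk s)

end

theorem tCert (h1 : S_Pt) (h2 : S_HDf) : S_Cert := by
  classical
  intro M B st hM hB hst
  refine ⟨(B.map (pt M)).toFinset, ?_, ?_, ?_⟩
  · intro b hb
    rw [List.mem_toFinset, List.mem_map] at hb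
    obtain ⟨k, -, rfl⟩ := hb
    rw [h1.2.2.2.1, h1.2.2.1 M _ hM]
    exact Dvd.intro _ rfl
  · have h3 := List.toFinset_card_le (B.map (pt M))
    rw [List.length_map] at h3
    omega
  · intro x hx
    obtain ⟨hx1, hx2⟩ := hx
    obtain ⟨k, hk, rfl⟩ := (h1.1 M x hM).1 hx1
    have hk0 : 0 < k := by
      rcases Nat.eq_zero_or_pos k with rfl | h
      · exact absurd ((h1.2.2.1 M 0 hM).2 (dvd_zero _)) hx2
      · exact h
    have hV : ∀ k' ∈ B, Finsupp.single (pt M k') (1 : ℤ) ∈ GG ⊔ Sp ↑((B.map (pt M)).toFinset) := by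
      intro k' hk'
      refine (le_sup_right : _ ≤ GG ⊔ Sp _) (mem_Sp ?_)
      rw [mem_coe, List.mem_toFinset, List.mem_map]
      exact ⟨k', hk', rfl⟩
    have hall := foldl_mem h1 h2 M hM (GG ⊔ Sp ↑((B.map (pt M)).toFinset)) le_sup_left st B hV
    rcases lt_trichotomy (2 * k) M with h | h | h
    · exact hall k (hst k hk hk0 h)
    · exact (le_sup_left : GG ≤ _) (HD_le_GG (half h1 h2 M hM k h))
    · have h4 := (le_sup_left : GG ≤ GG ⊔ Sp ↑((B.map (pt M)).toFinset))
        (HD_le_GG (pair h1 h2 M hM k hk0 hk))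
      have h5 := hall (M - k) (hst (M - k) (by omega) (by omega) (by omega))
      have h6 := sub_mem h4 h5
      rwa [add_sub_cancel_right] at h6

end Pool.Agent.FT
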