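import Pool.Agent.Lib.MP_640417_ag.FT.Spec

/-!
# MP_640417_ag, FT, module Chn: from a level to its multiples with the same prime factors
-/

set_option autoImplicit false

noncomputable section

namespace Pool.Agent.FT

open Finset Pool.Agent.FC

theorem tChn (h1 : S_Low) : S_Chn := by
  intro b M hb h4
  induction M using Nat.strong_induction_on with
  | _ M ih =>
    intro hM hbM hpf
    obtain ⟨n, rfl⟩ := hbM
    rcases Nat.eq_or_lt_of_le (Nat.one_le_iff_ne_zero.2 (Nat.pos_of_mul_pos_left hM).ne') with hn | hn
    · rw [← hn, mul_one]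
      exact hb
    · have hb0 : 0 < b := Nat.pos_of_mul_pos_right hM
      have hn0 : 0 < n := by omega
      have hp : n.minFac.Prime := Nat.minFac_prime (by omega)
      set p := n.minFac with hpdef
      have hpn : p ∣ n := Nat.minFac_dvd n
      obtain ⟨k, hk⟩ := hpn
      have hk0 : 0 < k := by
        rcases Nat.eq_zero_or_pos k with h | h
        · rw [h, mul_zero] at hk
          omega
        · exact h
      have hpb : p ∣ b := by
        have h5 : p ∈ (b * n).primeFactors := by
          rw [Nat.mem_primeFactors]
          exact ⟨hp, Dvd.dvd.mul_left ⟨k, hk⟩ b, hM.ne'⟩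
        exact Nat.dvd_of_mem_primeFactors (hpf h5)
      have hdiv : b * n / p = b * k := by
        have h6 : b * n = b * k * p := by
          rw [hk]
          ring
        rw [h6, Nat.mul_div_cancel _ hp.pos]
      have hbk : 0 < b * k := Nat.mul_pos hb0 hk0
      have hlt : b * k < b * n := by
        apply Nat.mul_lt_mul_of_pos_left _ hb0
        rw [hk]
        have := hp.two_le
        nlinarith
      apply h1 (b * n) p hM hp
      · rw [sq]
        exact mul_dvd_mul hpb ⟨k, hk⟩
      · intro h2
        rcases h4 with h4 | h4
        · have h7 : 4 * 2 ∣ b * n := mul_dvd_mul h4 (h2 ▸ ⟨k, hk⟩)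
          exact h7
        · exact absurd (h2 ▸ hpb) h4
      · rw [hdiv]
        apply ih (b * k) hlt hbk (Dvd.intro k rfl)
        refine (Nat.primeFactors_mono ?_ hM.ne').trans hpf
        exact mul_dvd_mul_left b ⟨p, by rw [hk]; ring⟩

end Pool.Agent.FT
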