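import Pool.Agent.Lib.MP_640417_ag.FT.Spec

/-!
# CntP: the number of the good values of the coordinate at `p`
-/

set_option autoImplicit false

noncomputable section

namespace Pool.Agent.FT

open Finset Pool.Agent.FC

private theorem tot_eq (p b : ℕ) (hp : p.Prime) (hb : 1 ≤ b) :
    (p ^ b).totient = #{k ∈ range (p ^ b) | ¬ p ∣ k} := by
  rw [Nat.totient_eq_card_coprime]
  congr 1
  refine Finset.filter_congr fun k _ => ?_
  rw [Nat.coprime_pow_left_iff hb, hp.coprime_iff_not_dvd]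

theorem tCntP : S_CntP := by
  intro p a hp ha _
  obtain ⟨n, hn⟩ : ∃ n, n = p ^ (a - 1) := ⟨_, rfl⟩
  obtain ⟨q, hq⟩ : ∃ q, q = p ^ a := ⟨_, rfl⟩
  have hp2 : 2 ≤ p := hp.two_le
  have hqn : q = p * n := by
    rw [hq, hn, ← pow_succ']
    congr 1
    omega
  have hpn : p ∣ n := by
    rw [hn]
    exact dvd_pow_self p (by omega)
  have hpq : p ∣ q := ⟨n, hqn⟩
  have hn0 : 0 < n := by
    rw [hn]
    exact pow_pos hp.pos _
  have hq2 : 2 * n ≤ q := by
    rw [hqn]
    exact Nat.mul_le_mul_right n hp2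
  rw [tot_eq p a hp (by omega), tot_eq p (a - 1) hp (by omega), ← hn, ← hq]
  obtain ⟨A, hA⟩ : ∃ A : Finset ℕ, A = {k ∈ range q | ¬ p ∣ k ∧ q < 2 * p * k ∧ 2 * k < q} :=
    ⟨_, rfl⟩
  obtain ⟨C, hC⟩ : ∃ C : Finset ℕ, C = {k ∈ range n | ¬ p ∣ k} := ⟨_, rfl⟩
  obtain ⟨g, hg⟩ : ∃ g : ℕ → ℕ, g = fun k => if 2 * k ≤ n then k else q - (n - k) := ⟨_, rfl⟩
  rw [← hA, ← hC]
  have mA : ∀ k, k ∈ A ↔ k < q ∧ ¬ p ∣ k ∧ q < 2 * p * k ∧ 2 * k < q := by
    intro k
    rw [hA, Finset.mem_filter, Finset.mem_range]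
  have mC : ∀ k, k ∈ C ↔ k < n ∧ ¬ p ∣ k := by
    intro k
    rw [hC, Finset.mem_filter, Finset.mem_range]
  have c2 : (A.image fun k => q - k).card = A.card := by
    refine Finset.card_image_of_injOn ?_
    intro x hx y hy h
    have h1 := (mA x).1 hx
    have h2 := (mA y).1 hy
    simp only at h
    omega
  have gcase : ∀ k, (2 * k ≤ n ∧ g k = k) ∨ (n < 2 * k ∧ g k = q - (n - k)) := by
    intro k
    rw [hg]
    by_cases h : 2 * k ≤ n
    · exact Or.inl ⟨h, if_pos h⟩
    · exact Or.inr ⟨by omega, if_neg h⟩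
  have c3 : (C.image g).card = C.card := by
    refine Finset.card_image_of_injOn ?_
    intro x hx y hy h
    have h1 := (mC x).1 hx
    have h2 := (mC y).1 hy
    rcases gcase x with ⟨h3, h4⟩ | ⟨h3, h4⟩ <;> rcases gcase y with ⟨h5, h6⟩ | ⟨h5, h6⟩ <;>
      rw [h4, h6] at h <;> omega
  have dvd_sub : ∀ k, k < q → (p ∣ q - k ↔ p ∣ k) := by
    intro k hk
    have h1 := Nat.dvd_sub_iff_right hk.le hpq
    exact h1
  have hgB : ∀ k ∈ C, g k < q ∧ ¬ p ∣ g k ∧ (2 * p * g k ≤ q ∨ 2 * p * (q - g k) ≤ q) := by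
    intro k hk
    have h1 := (mC k).1 hk
    rcases gcase k with ⟨h3, h4⟩ | ⟨h3, h4⟩
    · rw [h4]
      refine ⟨by omega, h1.2, Or.inl ?_⟩
      calc 2 * p * k = p * (2 * k) := by ring
        _ ≤ p * n := Nat.mul_le_mul_left p h3
        _ = q := hqn.symm
    · rw [h4]
      refine ⟨by omega, ?_, Or.inr ?_⟩
      · rw [dvd_sub _ (by omega)]
        intro h5
        exact h1.2 ((Nat.dvd_sub_iff_right h1.1.le hpn).1 h5)
      · have h5 : q - (q - (n - k)) = n - k := by omega
        rw [h5]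
        calc 2 * p * (n - k) = p * (2 * (n - k)) := by ring
          _ ≤ p * n := Nat.mul_le_mul_left p (by omega)
          _ = q := hqn.symm
  have big : ∀ k, q < 2 * k → q < 2 * p * k := by
    intro k hk
    have h1 : 1 * (2 * k) ≤ p * (2 * k) := Nat.mul_le_mul_right _ (by omega)
    have h2 : 2 * p * k = p * (2 * k) := by ring
    omega
  have d12 : Disjoint A (A.image fun k => q - k) := by
    rw [Finset.disjoint_left]
    intro x hx hx'
    obtain ⟨y, hy, rfl⟩ := Finset.mem_image.1 hx'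
    have h1 := (mA _).1 hx
    have h2 := (mA y).1 hy
    omega
  have d3 : Disjoint (A ∪ A.image fun k => q - k) (C.image g) := by
    rw [Finset.disjoint_left]
    intro x hx hx'
    obtain ⟨y, hy, rfl⟩ := Finset.mem_image.1 hx'
    obtain ⟨h1, _, h3⟩ := hgB y hy
    rcases Finset.mem_union.1 hx with h4 | h4
    · have h5 := (mA _).1 h4
      rcases h3 with h6 | h6
      · omega
      · have h7 := big (q - g y) (by omega)
        omega
    · obtain ⟨z, hz, hz'⟩ := Finset.mem_image.1 h4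
      have h5 := (mA z).1 hz
      have h8 : q - g y = z := by omega
      rw [h8] at h3
      rcases h3 with h6 | h6
      · have h7 := big (g y) (by omega)
        omega
      · omega
  have hsub : (A ∪ A.image fun k => q - k) ∪ C.image g ⊆ {k ∈ range q | ¬ p ∣ k} := by
    intro x hx
    rw [Finset.mem_filter, Finset.mem_range]
    rcases Finset.mem_union.1 hx with h1 | h1
    · rcases Finset.mem_union.1 h1 with h2 | h2
      · have h3 := (mA x).1 h2
        exact ⟨h3.1, h3.2.1⟩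
      · obtain ⟨z, hz, rfl⟩ := Finset.mem_image.1 h2
        have h3 := (mA z).1 hz
        have hz0 : z ≠ 0 := by
          rintro rfl
          exact h3.2.1 (dvd_zero p)
        refine ⟨by omega, ?_⟩
        rw [dvd_sub z h3.1]
        exact h3.2.1
    · obtain ⟨y, hy, rfl⟩ := Finset.mem_image.1 h1
      obtain ⟨h2, h3, _⟩ := hgB y hy
      exact ⟨h2, h3⟩
  have hcard := Finset.card_le_card hsub
  rw [Finset.card_union_of_disjoint d3, Finset.card_union_of_disjoint d12, c2, c3] at hcard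
  omega

end Pool.Agent.FT
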