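import Pool.Agent.Lib.MP_640417_ag.FT.Spec

set_option autoImplicit false

noncomputable section

namespace Pool.Agent.FT

open Finset Pool.Agent.FC

private lemma card_good (l v : ℕ) (hl : l.Prime) (hv : 0 < v) :
    #{k ∈ range (l ^ v) | k = 0 ∨ l ^ (v - 1) < k} ≤ l ^ (v - 1) * (l - 1) := by
  have e : l ^ v = l ^ (v - 1) * l := by
    rw [← pow_succ]
    congr 1
    omega
  have hl2 := hl.two_le
  have hpos : 0 < l ^ (v - 1) := pow_pos hl.pos _
  have h1 : {k ∈ range (l ^ v) | k = 0 ∨ l ^ (v - 1) < k} =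
      range (l ^ v) \ Ioc 0 (l ^ (v - 1)) := by
    ext k
    simp only [mem_filter, mem_range, mem_sdiff, mem_Ioc]
    constructor
    · rintro ⟨h, h'⟩
      exact ⟨h, by omega⟩
    · rintro ⟨h, h'⟩
      exact ⟨h, by omega⟩
  have h2 : Ioc 0 (l ^ (v - 1)) ⊆ range (l ^ v) := by
    intro k hk
    rw [mem_Ioc] at hk
    rw [mem_range, e]
    nlinarith
  rw [h1, card_sdiff_of_subset h2, card_range, Nat.card_Ioc, e, Nat.mul_sub]
  simp

theorem tCntT (h1 : S_Pt) (h2 : S_Cc) (h3 : S_CntP) : S_CntT := by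
  classical
  intro m p hm hp hpp h8
  obtain ⟨P1, -, P3, P4, -, -, P7, -⟩ := h1
  obtain ⟨C1, -, C3, -⟩ := h2
  have hm0 : m ≠ 0 := hm.ne'
  obtain ⟨a, ha⟩ : ∃ a, m.factorization p = a := ⟨_, rfl⟩
  have ha2 : 2 ≤ a := by
    rw [← ha]
    exact (hp.pow_dvd_iff_le_factorization hm0).1 hpp
  have ha3 : p = 2 → 3 ≤ a := by
    intro h
    have h8' : p ^ 3 ∣ m := by
      rw [h]
      exact h8 h
    rw [← ha]
    exact (hp.pow_dvd_iff_le_factorization hm0).1 h8'
  have hq : p ^ a = p * p ^ (a - 1) := by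
    rw [← pow_succ']
    congr 1
    omega
  have hmm : m = p ^ a * (m / p ^ a) := by
    have := (Nat.ordProj_mul_ordCompl_eq_self m p).symm
    rwa [ha] at this
  have hmp : m / p = p ^ (a - 1) * (m / p ^ a) := by
    apply Nat.div_eq_of_eq_mul_right hp.pos
    rw [← mul_assoc, ← hq]
    exact hmm
  have hcop : Nat.Coprime p (m / p ^ a) := by
    have := Nat.coprime_ordCompl hp hm0
    rwa [ha] at this
  have hpm : p ∈ m.primeFactors := by
    rw [Nat.mem_primeFactors]
    exact ⟨hp, (dvd_pow_self p (by norm_num)).trans hpp, hm0⟩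
  have hqpos : 0 < p ^ a := pow_pos hp.pos _
  -- the target finsets
  let A : Finset ℕ := {k ∈ range (p ^ a) | ¬ p ∣ k ∧ p ^ a < 2 * p * k ∧ 2 * k < p ^ a}
  let Bl : ℕ → Finset ℕ := fun l =>
    {k ∈ range (l ^ m.factorization l) | k = 0 ∨ l ^ (m.factorization l - 1) < k}
  let G : ℕ → Finset UnitAddCircle := fun l =>
    if l = p then A.image (pt (p ^ a)) else (Bl l).image (pt (l ^ m.factorization l))
  have hmaps : ∀ x ∈ TT m p, (fun (l : ℕ) (_ : l ∈ m.primeFactors) => cc m l x) ∈
      (m.primeFactors.pi G : Finset (∀ l ∈ m.primeFactors, UnitAddCircle)) := by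
    intro x hx
    obtain ⟨hx1, hx2, hx3, hx4, hx5⟩ := hx
    rw [Finset.mem_pi]
    intro l hl
    have hlp := Nat.prime_of_mem_primeFactors hl
    have hk := C1 m l x hx1
    rw [P1 _ _ (pow_pos hlp.pos _)] at hk
    obtain ⟨k, hk1, hk2⟩ := hk
    by_cases hlp' : l = p
    · subst hlp'
      simp only [G, if_true]
      rw [Finset.mem_image]
      rw [ha] at hk1 hk2
      refine ⟨k, ?_, hk2.symm⟩
      rw [hk2, P7 _ _ hqpos, Nat.mod_eq_of_lt hk1] at hx3 hx4
      have hqR : (0 : ℝ) < ((l ^ a : ℕ) : ℝ) := by exact_mod_cast hqpos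
      have hlR : (0 : ℝ) < (l : ℝ) := by exact_mod_cast hp.pos
      simp only [A, mem_filter, mem_range]
      refine ⟨hk1, ?_, ?_, ?_⟩
      · rintro ⟨k', rfl⟩
        apply hx2
        have e1 : (l ^ (a - 1)) • cc m l x = (m / l) • x := by
          unfold cc
          rw [← mul_nsmul', hmp, ha]
        rw [← e1, hk2, P4]
        have e2 : l ^ (a - 1) * (l * k') = l ^ a * k' := by
          rw [hq]
          ring
        rw [e2, P3 _ _ hqpos]
        exact Dvd.intro _ rfl
      · have h5 : (1 : ℝ) / (2 * l) < (k : ℝ) / ((l ^ a : ℕ) : ℝ) := by linarith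
        rw [div_lt_div_iff₀ (by positivity) hqR] at h5
        have h6 : ((l ^ a : ℕ) : ℝ) < ((2 * l * k : ℕ) : ℝ) := by
          push_cast at h5 ⊢
          linarith
        exact_mod_cast h6
      · have h5 : (k : ℝ) / ((l ^ a : ℕ) : ℝ) < 1 / 2 := by linarith
        rw [div_lt_div_iff₀ hqR (by norm_num)] at h5
        have h6 : ((2 * k : ℕ) : ℝ) < ((l ^ a : ℕ) : ℝ) := by
          push_cast at h5 ⊢
          linarith
        exact_mod_cast h6
    · simp only [G, if_neg hlp']
      rw [Finset.mem_image]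
      refine ⟨k, ?_, hk2.symm⟩
      simp only [Bl, mem_filter, mem_range]
      refine ⟨hk1, ?_⟩
      by_contra hcon
      push Not at hcon
      apply hx5 l hl hlp'
      exact ⟨k, by omega, hcon.2, hk2⟩
  have hinj : Set.InjOn (fun x => fun (l : ℕ) (_ : l ∈ m.primeFactors) => cc m l x) (TT m p) := by
    intro x hx y hy hxy
    apply C3 m x y hm hx.1 hy.1
    intro l hl
    exact congrFun (congrFun hxy l) hl
  have hfin : (TT m p).Finite := by
    refine Set.Finite.of_injOn (t := ((m.primeFactors.pi G :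
      Finset (∀ l ∈ m.primeFactors, UnitAddCircle)) : Set (∀ l ∈ m.primeFactors, UnitAddCircle)))
      ?_ hinj (Finset.finite_toSet _)
    intro x hx
    exact hmaps x hx
  refine ⟨hfin, ?_⟩
  have hcard : (TT m p).ncard ≤ ∏ l ∈ m.primeFactors, #(G l) := by
    rw [← Finset.card_pi, ← Set.ncard_coe_finset]
    exact Set.ncard_le_ncard_of_injOn _ (fun x hx => hmaps x hx) hinj (Finset.finite_toSet _)
  have hGp : #(G p) ≤ #A := by
    simp only [G, if_true]
    exact Finset.card_image_le
  have hGl : ∏ l ∈ m.primeFactors.erase p, #(G l) ≤ (m / p ^ a).totient := by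
    rw [Nat.totient_eq_prod_factorization (Nat.div_pos (Nat.le_of_dvd hm (Dvd.intro _ hmm.symm)) hqpos).ne']
    have e1 : (m / p ^ a).factorization = m.factorization.erase p := by
      have := Nat.factorization_ordCompl m p
      rwa [ha] at this
    rw [e1, Finsupp.prod]
    have e2 : (m.factorization.erase p).support = m.primeFactors.erase p := by
      rw [Finsupp.support_erase, Nat.support_factorization]
    rw [e2]
    apply Finset.prod_le_prod'
    intro l hl
    rw [Finset.mem_erase] at hl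
    rw [Finsupp.erase_ne hl.1]
    have hlp := Nat.prime_of_mem_primeFactors hl.2
    have hv : 0 < m.factorization l :=
      hlp.factorization_pos_of_dvd hm0 (Nat.dvd_of_mem_primeFactors hl.2)
    simp only [G, if_neg hl.1]
    exact Finset.card_image_le.trans (card_good l _ hlp hv)
  have hprod : ∏ l ∈ m.primeFactors, #(G l) ≤ #A * (m / p ^ a).totient := by
    rw [← Finset.mul_prod_erase _ _ hpm]
    exact Nat.mul_le_mul hGp hGl
  have hP := h3 p a hp ha2 ha3
  have t1 : m.totient = (p ^ a).totient * (m / p ^ a).totient := by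
    conv_lhs => rw [hmm]
    exact Nat.totient_mul (Nat.Coprime.pow_left a hcop)
  have t2 : (m / p).totient = (p ^ (a - 1)).totient * (m / p ^ a).totient := by
    rw [hmp]
    exact Nat.totient_mul (Nat.Coprime.pow_left (a - 1) hcop)
  rw [t1, t2]
  calc 2 * (TT m p).ncard + (p ^ (a - 1)).totient * (m / p ^ a).totient
      ≤ 2 * (#A * (m / p ^ a).totient) + (p ^ (a - 1)).totient * (m / p ^ a).totient := by
        have := hcard.trans hprod
        omega
    _ = (2 * #A + (p ^ (a - 1)).totient) * (m / p ^ a).totient := by ring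
    _ ≤ (p ^ a).totient * (m / p ^ a).totient := Nat.mul_le_mul_right _ hP

end Pool.Agent.FT
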