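import Pool.Agent.Lib.MP_640417_ag.FT.Spec

set_option autoImplicit false

noncomputable section

namespace Pool.Agent.FT

open Finset Pool.Agent.FC

private theorem sw_val (M : ℕ) [NeZero M] (k : ZMod M) :
    sw (ZMod.toAddCircle k) = (k.val : ℝ) / M - 1 / 2 := by
  have hM : (0 : ℝ) < M := Nat.cast_pos.mpr (NeZero.pos _)
  rw [ZMod.toAddCircle_apply]
  unfold sw
  rw [AddCircle.coe_equivIco_mk_apply]
  rw [div_one, mul_one, Int.fract_eq_self.2]
  exact ⟨by positivity, by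
    rw [div_lt_one hM]
    exact_mod_cast ZMod.val_lt k⟩

private theorem geom0 (z : ℂ) (M : ℕ) (hz : z ≠ 1) (hM : z ^ M = 1) :
    ∑ k ∈ range M, z ^ k = 0 := by
  have h := geom_sum_mul z M
  rw [hM, sub_self] at h
  exact (mul_eq_zero.1 h).resolve_right (sub_ne_zero.2 hz)

private theorem geom1 (z : ℂ) (n : ℕ) :
    (z - 1) * ∑ k ∈ range n, (k : ℂ) * z ^ k = n * z ^ n - z * ∑ k ∈ range n, z ^ k := by
  induction n with
  | zero => simp
  | succ n ih =>
    rw [sum_range_succ, sum_range_succ, mul_add, ih]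
    push_cast
    ring

private theorem sum_zmod (M : ℕ) [h : NeZero M] (F : ℕ → ℂ) :
    ∑ k : ZMod M, F k.val = ∑ k ∈ range M, F k := by
  obtain ⟨n, rfl⟩ : ∃ n, M = n + 1 := ⟨M - 1, by have := NeZero.pos M; omega⟩
  exact Fin.sum_univ_eq_sum_range F (n + 1)

/-- The finite Fourier transform of the sawtooth. -/
private theorem four (M : ℕ) [NeZero M] (t : ZMod M) (ht : t ≠ 0) :
    ∑ k : ZMod M, (sw (ZMod.toAddCircle k) : ℂ) * ZMod.stdAddChar (-(t * k)) =
      Complex.I / 2 * Complex.cot (Real.pi * (t.val / M)) - 1 / 2 := by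
  have hM : (M : ℂ) ≠ 0 := Nat.cast_ne_zero.2 (NeZero.ne M)
  set z : ℂ := ZMod.stdAddChar (-t) with hz
  have hz1 : z ≠ 1 := by
    intro h
    rw [hz, ← (ZMod.stdAddChar (N := M)).map_zero_eq_one, ZMod.injective_stdAddChar.eq_iff] at h
    exact ht (neg_eq_zero.1 h)
  have hzM : z ^ M = 1 := by
    rw [hz, ← AddChar.map_nsmul_eq_pow, nsmul_eq_mul, ZMod.natCast_self, zero_mul,
      AddChar.map_zero_eq_one]
  have e1 : ∀ k : ZMod M, (ZMod.stdAddChar (-(t * k)) : ℂ) = z ^ k.val := by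
    intro k
    rw [hz, ← AddChar.map_nsmul_eq_pow, nsmul_eq_mul, ZMod.natCast_zmod_val]
    congr 1
    ring
  have e2 : ∑ k : ZMod M, (sw (ZMod.toAddCircle k) : ℂ) * ZMod.stdAddChar (-(t * k)) =
      ∑ k ∈ range M, ((k : ℂ) / M - 1 / 2) * z ^ k := by
    rw [← sum_zmod M fun k => ((k : ℂ) / M - 1 / 2) * z ^ k]
    refine sum_congr rfl fun k _ => ?_
    rw [e1, sw_val]
    push_cast
    rfl
  have e3 : ∑ k ∈ range M, ((k : ℂ) / M - 1 / 2) * z ^ k = 1 / (z - 1) := by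
    have h1 : ∑ k ∈ range M, ((k : ℂ) / M - 1 / 2) * z ^ k =
        (∑ k ∈ range M, (k : ℂ) * z ^ k) / M - 1 / 2 * ∑ k ∈ range M, z ^ k := by
      rw [sum_div, mul_sum, ← sum_sub_distrib]
      exact sum_congr rfl fun k _ => by ring
    have h2 := geom1 z M
    rw [geom0 z M hz1 hzM, hzM, mul_zero, sub_zero, mul_one] at h2
    have h3 : z - 1 ≠ 0 := sub_ne_zero.2 hz1
    rw [h1, geom0 z M hz1 hzM, mul_zero, sub_zero, div_eq_div_iff hM h3]
    linear_combination h2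
  rw [e2, e3]
  set w : ℂ := Complex.exp (2 * Complex.I * (Real.pi * (t.val / M))) with hw
  have hw0 : w ≠ 0 := Complex.exp_ne_zero _
  have hzw : z = w⁻¹ := by
    have h1 : (-t : ZMod M) = ((-(t.val : ℤ) : ℤ) : ZMod M) := by
      push_cast
      rw [ZMod.natCast_zmod_val]
    rw [hz, h1, ZMod.stdAddChar_coe, hw, ← Complex.exp_neg]
    congr 1
    push_cast
    ring
  have hw1 : w ≠ 1 := by
    intro h
    rw [h, inv_one] at hzw
    exact hz1 hzw
  have h4 : (1 - w) ≠ 0 := sub_ne_zero.2 hw1.symm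
  rw [Complex.cot_eq_exp_ratio, ← hw, hzw]
  have h5 : w⁻¹ - 1 = (1 - w) / w := by
    field_simp
  rw [h5]
  have hI := Complex.I_ne_zero
  field_simp
  ring

theorem tCoe (h1 : S_Cot) : S_Coe := by
  intro M _ χ hχ
  by_contra hcon
  push Not at hcon
  have hM1 : M ≠ 1 := by
    rintro rfl
    have h2 : χ (-1) = -1 := hχ
    have h3 : (-1 : ZMod 1) = 1 := Subsingleton.elim _ _
    rw [h3, map_one] at h2
    norm_num at h2
  have : Fact (1 < M) := ⟨by have := NeZero.pos M; omega⟩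
  -- the sum of the values
  have hsum : ∑ s : (ZMod M)ˣ, χ (s : ZMod M) = 0 := by
    have h2 : ∑ s : (ZMod M)ˣ, χ (s : ZMod M) = ∑ s : (ZMod M)ˣ, -χ (s : ZMod M) := by
      refine Fintype.sum_equiv (Equiv.neg _) _ _ fun s => ?_
      rw [Equiv.neg_apply, Units.val_neg, DirichletCharacter.Odd.eval_neg (hψ := hχ), neg_neg]
    rw [sum_neg_distrib] at h2
    have h3 : (2 : ℂ) * ∑ s : (ZMod M)ˣ, χ (s : ZMod M) = 0 := by linear_combination h2
    exact (mul_eq_zero.1 h3).resolve_left two_ne_zero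
  have hall : ∀ k : ZMod M,
      ∑ s : (ZMod M)ˣ, χ (s : ZMod M) * (sw (ZMod.toAddCircle ((s : ZMod M) * k)) : ℂ) = 0 := by
    intro k
    by_cases hk : k = 0
    · subst hk
      simp only [mul_zero]
      rw [← sum_mul, hsum, zero_mul]
    · exact hcon k hk
  have hF : ∑ s : (ZMod M)ˣ, χ (s : ZMod M) *
      ∑ k : ZMod M, (sw (ZMod.toAddCircle k) : ℂ) *
        ZMod.stdAddChar (-(((s⁻¹ : (ZMod M)ˣ) : ZMod M) * k)) = 0 := by
    have h2 : ∑ k : ZMod M, (∑ s : (ZMod M)ˣ, χ (s : ZMod M) *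
        (sw (ZMod.toAddCircle ((s : ZMod M) * k)) : ℂ)) * ZMod.stdAddChar (-k) = 0 :=
      sum_eq_zero fun k _ => by rw [hall k, zero_mul]
    rw [← h2]
    simp only [sum_mul]
    rw [sum_comm]
    refine sum_congr rfl fun s _ => ?_
    rw [mul_sum]
    refine (Fintype.sum_equiv (Units.mulLeft s) _ _ fun k => ?_).symm
    rw [Units.mulLeft_apply]
    have h3 : ((s⁻¹ : (ZMod M)ˣ) : ZMod M) * ((s : ZMod M) * k) = k := by
      rw [← mul_assoc, Units.inv_mul, one_mul]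
    rw [h3]
    ring
  have hne : ∀ s : (ZMod M)ˣ, (s : ZMod M) ≠ 0 := fun s => Units.ne_zero s
  simp only [four M _ (hne _), mul_sub, sum_sub_distrib] at hF
  rw [← sum_mul, hsum, zero_mul, sub_zero] at hF
  have hG : ∑ s : (ZMod M)ˣ, χ⁻¹ (s : ZMod M) * Complex.cot (Real.pi * ((s : ZMod M).val / M)) = 0 := by
    have h2 : Complex.I / 2 *
        ∑ s : (ZMod M)ˣ, χ⁻¹ (s : ZMod M) * Complex.cot (Real.pi * ((s : ZMod M).val / M)) = 0 := by
      rw [← hF, mul_sum]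
      refine Fintype.sum_equiv (Equiv.inv _) _ _ fun s => ?_
      have h3 : χ ((s⁻¹ : (ZMod M)ˣ) : ZMod M) = (χ (s : ZMod M))⁻¹ := by
        refine eq_inv_of_mul_eq_one_left ?_
        rw [← map_mul, Units.inv_mul, map_one]
      rw [Equiv.inv_apply, inv_inv, MulChar.inv_apply_eq_inv', h3]
      ring
    exact (mul_eq_zero.1 h2).resolve_left (div_ne_zero Complex.I_ne_zero two_ne_zero)
  have hodd : (χ⁻¹).Odd := by
    unfold DirichletCharacter.Odd at hχ ⊢
    rw [MulChar.inv_apply_eq_inv', hχ]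
    norm_num
  refine h1 M χ⁻¹ hodd ?_
  rw [← hG]
  symm
  refine sum_of_injOn (fun s : (ZMod M)ˣ => (s : ZMod M)) (fun a _ b _ h => Units.ext h)
    (fun _ _ => mem_coe.2 (mem_univ _)) (fun j _ hj => ?_) (fun s _ => rfl)
  have h3 : ¬ IsUnit j := by
    rintro ⟨u, rfl⟩
    exact hj ⟨u, mem_coe.2 (mem_univ _), rfl⟩
  rw [MulChar.map_nonunit _ h3, zero_mul]

end Pool.Agent.FT
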