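import Pool.Agent.Lib.MP_640417_ag.FT.Spec

/-!
# MP_640417_ag, FT: the cotangent sum of an odd character is not zero
-/

set_option autoImplicit false

noncomputable section

namespace Pool.Agent.FT

open Finset Pool.Agent.FC

theorem tCot (h1 : S_Hz) : S_Cot := by
  intro N _ χ hχ h0
  have hN : (N : ℝ) ≠ 0 := Nat.cast_ne_zero.2 (NeZero.ne N)
  have hNpos : (0 : ℝ) < N := lt_of_le_of_ne (Nat.cast_nonneg N) hN.symm
  have hχ1 : χ ≠ 1 := by
    rintro rfl
    have h2 : (1 : DirichletCharacter ℂ N) (-1) = -1 := hχ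
    rw [MulChar.one_apply isUnit_one.neg] at h2
    norm_num at h2
  have hL := DirichletCharacter.LFunction_apply_one_ne_zero hχ1
  apply hL
  show ZMod.LFunction χ 1 = 0
  rw [ZMod.LFunction_def_odd hχ.to_fun]
  have h3 : ∀ j : ZMod N, χ j * HurwitzZeta.hurwitzZetaOdd (ZMod.toAddCircle j) 1 =
      (Real.pi / 2 : ℂ) * (χ j * Complex.cot (Real.pi * (j.val / N))) := by
    intro j
    by_cases hj : j = 0
    · have h4 : χ j = 0 := by
        rw [hj]
        refine MulChar.map_nonunit χ ?_
        intro hu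
        have h5 : χ (-0) = -χ 0 := hχ.to_fun 0
        rw [neg_zero] at h5
        have h6 : χ (0 : ZMod N) ≠ 0 := (hu.map χ).ne_zero
        have h7 : χ (0 : ZMod N) + χ 0 = 0 := by
          linear_combination h5
        have h8 : (2 : ℂ) * χ (0 : ZMod N) = 0 := by
          linear_combination h7
        rcases mul_eq_zero.1 h8 with h9 | h9
        · norm_num at h9
        · exact h6 h9
      rw [h4]
      ring
    · have hv : 0 < j.val := Nat.pos_of_ne_zero fun h => hj ((ZMod.val_eq_zero j).1 h)
      have h4 : (0 : ℝ) < (j.val / N : ℝ) := div_pos (by exact_mod_cast hv) hNpos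
      have h5 : (j.val / N : ℝ) < 1 := by
        rw [div_lt_one hNpos]
        exact_mod_cast ZMod.val_lt j
      rw [ZMod.toAddCircle_apply, h1 _ h4 h5]
      push_cast
      ring
  rw [Finset.sum_congr rfl fun j _ => h3 j, ← Finset.mul_sum, h0]
  ring

end Pool.Agent.FT
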