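import Pool.Agent.Lib.MP_640417_ag.FC.Defs

/-!
# Tate characters of Fermat varieties of degree with few prime factors: definitions
-/

set_option autoImplicit false

noncomputable section

namespace Pool.Agent.FT

open Finset Pool.Agent.FC

/-- the point `k / M` of the circle `ℝ/ℤ` -/
def pt (M k : ℕ) : UnitAddCircle := ((k / M : ℝ) : UnitAddCircle)

/-- nine tuples of residues: `(M, [k_1, k_2, …])` is the tuple `k_1, k_2, …` mod `M` -/
def tup : List (ℕ × List ℕ) :=
  [(12, [1, 4, 9, 10]), (15, [1, 6, 10, 13]), (20, [1, 4, 17, 18]), (21, [1, 4, 18, 19]),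
   (28, [1, 9, 21, 25]), (33, [1, 4, 16, 22, 25, 31]), (35, [1, 1, 17, 21, 30, 34, 31, 22, 16, 2]),
   (39, [1, 16, 22, 7, 34, 37]), (44, [1, 6, 22, 26, 33, 41, 37, 28, 17, 9])]

/-- the group generated by `HD` and the sums `∑ [t k_i / M]` for the nine tuples `(M, [k_1, k_2, …])` and all
`t` prime to `M` -/
def GG : AddSubgroup (UnitAddCircle →₀ ℤ) :=
  HD ⊔ AddSubgroup.closure {f | ∃ (q : ℕ × List ℕ) (t : ℕ), q ∈ tup ∧ t.Coprime q.1 ∧
    f = (q.2.map fun k => Finsupp.single (pt q.1 (t * k)) (1 : ℤ)).sum}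

/-- `m / 2` if `m ≡ 2` mod `4`, otherwise `m` -/
def red (m : ℕ) : ℕ := if m % 4 = 2 then m / 2 else m

/-- `red m` has at most one prime factor, or its prime factors are in one of the sets `{2, 3, 5}`,
`{2, 3, 7}`, `{2, 3, 11}`, `{2, 5, 7}`, `{3, 5, 7}`, `{3, 13}` -/
def Deg (m : ℕ) : Prop :=
  (red m).primeFactors.card ≤ 1 ∨
    ∃ S ∈ ([{2, 3, 5}, {2, 3, 7}, {2, 3, 11}, {2, 5, 7}, {3, 5, 7}, {3, 13}] : List (Finset ℕ)),
      (red m).primeFactors ⊆ S

/-! ## Auxiliary definitions (not used in the final statement) -/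

/-- the group generated by the `[b]`, `b ∈ S` -/
def Sp (S : Set UnitAddCircle) : AddSubgroup (UnitAddCircle →₀ ℤ) :=
  AddSubgroup.closure {f | ∃ b ∈ S, f = Finsupp.single b (1 : ℤ)}

/-- the elements killed by `M`, without zero -/
def Kz (M : ℕ) : Set UnitAddCircle := {x | M • x = 0 ∧ x ≠ 0}

/-- modulo `GG` the classes of the elements killed by `m` are generated by `φ(m) / 2` of them -/
def Gen (m : ℕ) : Prop :=
  ∃ B : Finset UnitAddCircle, (∀ b ∈ B, m • b = 0) ∧ 2 * #B ≤ m.totient ∧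
    ∀ x ∈ Kz m, Finsupp.single x (1 : ℤ) ∈ GG ⊔ Sp ↑B

/-- `Φ_t f = ∑ f(x) ({t x} - 1/2)` -/
def Ph (t : ℕ) : (UnitAddCircle →₀ ℤ) →+ ℝ :=
  Finsupp.liftAddHom fun y => (zmultiplesHom ℝ) (sw (t • y))

/-- the coordinate of `x` at the prime `l` (for `x` killed by `m`) -/
def cc (m l : ℕ) (x : UnitAddCircle) : UnitAddCircle := (m / l ^ m.factorization l) • x

/-- the elements `k / l ^ v`, `0 < k ≤ l ^ (v - 1)`, where `l ^ v` is the power of `l` in `m`: one nonzero
element of every coset of the elements killed by `l` -/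
def Bad (m l : ℕ) : Set UnitAddCircle :=
  {y | ∃ k : ℕ, 0 < k ∧ k ≤ l ^ (m.factorization l - 1) ∧ y = pt (l ^ m.factorization l) k}

/-- the good elements: killed by `m`, not by `m / p`, the coordinate at `p` is between `1 / (2 p)` and
`1 / 2`, the coordinates at the other primes are not in `Bad` -/
def TT (m p : ℕ) : Set UnitAddCircle :=
  {x | m • x = 0 ∧ (m / p) • x ≠ 0 ∧ -(1 / 2 - 1 / (2 * p) : ℝ) < sw (cc m p x) ∧ sw (cc m p x) < 0 ∧
    ∀ l ∈ m.primeFactors, l ≠ p → cc m l x ∉ Bad m l}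

/-- insert the class `c [k / M]` in a list of classes with coefficients; `k` is replaced by the
representative between `0` and `M / 2`, the class of `1 / 2` is omitted -/
def ins (M : ℕ) (l : List (ℕ × ℤ)) (q : ℕ × ℤ) : List (ℕ × ℤ) :=
  let r := q.1 % M
  if 2 * r < M then add l r q.2 else if 2 * r = M then l else add l (M - r) (-q.2)
where
  /-- add `c` to the coefficient of `k` -/
  add : List (ℕ × ℤ) → ℕ → ℤ → List (ℕ × ℤ)
  | [], k, c => [(k, c)]
  | (k', c') :: l, k, c => if k' = k then (k, c' + c) :: l else (k', c') :: add l k c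

/-- the relations: `(0, n, y)` is the distribution relation `∑_{j < n} [(y + j M / n) / M] - [n y / M]`,
`(i + 1, t, _)` is the `i`-th of the nine tuples multiplied by `t` -/
def rel (M : ℕ) : ℕ × ℕ × ℕ → List (ℕ × ℤ)
  | (0, n, y) => if 0 < n ∧ n ∣ M ∧ ¬ M ∣ n * y then
      ((List.range n).map fun j => (y + j * (M / n), (1 : ℤ))) ++ [(n * y, -1)] else []
  | (i + 1, t, _) => match tup[i]? with
    | none => []
    | some q => if q.1 ∣ M ∧ t.Coprime q.1 then q.2.map fun k => (t * k * (M / q.1), (1 : ℤ)) else []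

/-- one step of a certificate: if exactly one class with nonzero coefficient in the relation is not known,
and the coefficient is `± 1`, then this class is known -/
def stp (M : ℕ) (known : List ℕ) (s : ℕ × ℕ × ℕ) : List ℕ :=
  match ((rel M s).foldl (ins M) []).filter (fun q => q.2 ≠ 0 ∧ q.1 ∉ known) with
  | [(k, c)] => if c = 1 ∨ c = -1 then k :: known else known
  | _ => known

end Pool.Agent.FT
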