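import Pool.Agent.Lib.MP_640417_ag.FT.Spec

set_option autoImplicit false

noncomputable section

namespace Pool.Agent.FT

open Finset Pool.Agent.FC

/-- if `n • c = 0` then the order of `x + c` divides the order of `x` times anything divisible -/
private lemma ord_add_dvd (x c : UnitAddCircle) (n : ℕ) (hc : n • c = 0) (hn : n ∣ addOrderOf x) :
    addOrderOf (x + c) ∣ addOrderOf x := by
  rw [addOrderOf_dvd_iff_nsmul_eq_zero, nsmul_add, addOrderOf_nsmul_eq_zero, zero_add]
  obtain ⟨k, hk⟩ := hn
  rw [hk, mul_comm, mul_nsmul', hc, nsmul_zero]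

private lemma nsmul_div (n j : ℕ) (hn : 0 < n) : n • ((j / n : ℝ) : UnitAddCircle) = 0 := by
  have e : n • ((j / n : ℝ) : UnitAddCircle) = ((n • (j / n : ℝ) : ℝ) : UnitAddCircle) := rfl
  have hn' : (n : ℝ) ≠ 0 := by positivity
  rw [e, nsmul_eq_mul, mul_div_cancel₀ _ hn', AddCircle.coe_eq_zero_iff]
  exact ⟨(j : ℤ), by simp⟩

theorem tElim (h1 : S_Sw) (h2 : S_Pt) (h3 : S_HDf) (h4 : S_Cc) (h5 : S_StL) (h6 : S_StP) :
    S_Elim := by
  classical
  intro m p hm hp hpp h8
  obtain ⟨W1, W2, W3, W4, W5⟩ := h1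
  obtain ⟨P1, P2, P3, P4, P5, P6, P7, P8⟩ := h2
  obtain ⟨H1, H2, H3⟩ := h3
  obtain ⟨C1, C2, C3, C4⟩ := h4
  have hm0 : m ≠ 0 := hm.ne'
  have hpm : p ∣ m := (dvd_pow_self p (by norm_num)).trans hpp
  have hpmf : p ∈ m.primeFactors := by
    rw [Nat.mem_primeFactors]
    exact ⟨hp, hpm, hm0⟩
  have hmp : p * (m / p) = m := Nat.mul_div_cancel' hpm
  have hpdiv : p ∣ m / p := by
    rw [pow_two] at hpp
    exact Nat.dvd_div_of_mul_dvd hpp
  obtain ⟨V, hV⟩ : ∃ V, V = HD ⊔ Sp (TT m p ∪ Kz (m / p)) := ⟨_, rfl⟩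
  rw [← hV]
  have hHD : ∀ f ∈ HD, f ∈ V := by
    intro f hf
    rw [hV]
    exact AddSubgroup.mem_sup_left hf
  have hSp : ∀ x ∈ TT m p ∪ Kz (m / p), Finsupp.single x (1 : ℤ) ∈ V := by
    intro x hx
    rw [hV]
    exact AddSubgroup.mem_sup_right (mem_Sp hx)
  -- old elements
  have hold : ∀ x, x ≠ 0 → (m / p) • x = 0 → Finsupp.single x (1 : ℤ) ∈ V := by
    intro x hx hx'
    exact hSp x (Or.inr ⟨hx', hx⟩)
  -- distribution step
  have hdist : ∀ (n : ℕ) (x : UnitAddCircle), 0 < n → n • x ≠ 0 →
      (∀ j, 0 < j → j < n → Finsupp.single (x + ((j / n : ℝ) : UnitAddCircle)) (1 : ℤ) ∈ V) →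
      Finsupp.single (n • x) (1 : ℤ) ∈ V → Finsupp.single x (1 : ℤ) ∈ V := by
    intro n x hn hnx hj hx
    have e := hHD _ (H2 n x hn hnx)
    have e2 : ∑ j ∈ Ico 1 n, Finsupp.single (x + ((j / n : ℝ) : UnitAddCircle)) (1 : ℤ) ∈ V := by
      apply sum_mem
      intro j hj'
      rw [mem_Ico] at hj'
      exact hj j (by omega) hj'.2
    have e3 := V.sub_mem (V.add_mem e hx) e2
    have e4 : Finsupp.single x (1 : ℤ) + ∑ j ∈ Ico 1 n,
        Finsupp.single (x + ((j / n : ℝ) : UnitAddCircle)) 1 - Finsupp.single (n • x) 1 +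
        Finsupp.single (n • x) 1 -
        ∑ j ∈ Ico 1 n, Finsupp.single (x + ((j / n : ℝ) : UnitAddCircle)) (1 : ℤ) =
        Finsupp.single x (1 : ℤ) := by
      abel
    rwa [e4] at e3
  -- order facts
  have hordpos : ∀ x : UnitAddCircle, m • x = 0 → 0 < addOrderOf x := by
    intro x hx
    rw [addOrderOf_pos_iff]
    exact isOfFinAddOrder_iff_nsmul_eq_zero.2 ⟨m, hm, hx⟩
  -- the coordinate at p determines (m / p) • x
  have hcp : ∀ x : UnitAddCircle, (m / p) • x ≠ 0 → cc m p x ≠ 0 := by
    intro x hx hx'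
    apply hx
    have e1 : m / p = p ^ (m.factorization p - 1) * (m / p ^ m.factorization p) := by
      apply Nat.div_eq_of_eq_mul_right hp.pos
      rw [← mul_assoc, ← pow_succ']
      have e2 : m.factorization p - 1 + 1 = m.factorization p := by
        have : 0 < m.factorization p := hp.factorization_pos_of_dvd hm0 hpm
        omega
      rw [e2]
      exact (Nat.ordProj_mul_ordCompl_eq_self m p).symm
    rw [e1, mul_nsmul']
    unfold cc at hx'
    rw [hx', nsmul_zero]
  -- shift of new elements
  have hshift : ∀ (l j : ℕ) (x : UnitAddCircle), 0 < l → l ∣ m / p → m • x = 0 → (m / p) • x ≠ 0 →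
      m • (x + ((j / l : ℝ) : UnitAddCircle)) = 0 ∧
      (m / p) • (x + ((j / l : ℝ) : UnitAddCircle)) ≠ 0 := by
    intro l j x hl hlm hx hx'
    have e1 : (m / p) • ((j / l : ℝ) : UnitAddCircle) = 0 := by
      obtain ⟨k, hk⟩ := hlm
      rw [hk, mul_comm, mul_nsmul', nsmul_div l j hl, nsmul_zero]
    have e2 : m • ((j / l : ℝ) : UnitAddCircle) = 0 := by
      rw [← hmp, mul_nsmul', e1, nsmul_zero]
    exact ⟨by rw [nsmul_add, hx, e2, add_zero], by rwa [nsmul_add, e1, add_zero]⟩
  -- main induction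
  have main : ∀ n : ℕ, ∀ x : UnitAddCircle, m • x = 0 → (m / p) • x ≠ 0 → addOrderOf x = n →
      Finsupp.single x (1 : ℤ) ∈ V := by
    intro n
    induction n using Nat.strong_induction_on with
    | _ n ih =>
    -- step 2
    have step2 : ∀ k : ℕ, ∀ y : UnitAddCircle, m • y = 0 → (m / p) • y ≠ 0 → addOrderOf y ≤ n →
        -(1 / 2 - 1 / (2 * p) : ℝ) < sw (cc m p y) → sw (cc m p y) < 0 →
        #{l ∈ m.primeFactors | l ≠ p ∧ cc m l y ∈ Bad m l} = k →
        Finsupp.single y (1 : ℤ) ∈ V := by
      intro k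
      induction k using Nat.strong_induction_on with
      | _ k ihk =>
      intro y hy hy' hyn hs1 hs2 hk
      by_cases hbad : ∃ l ∈ m.primeFactors, l ≠ p ∧ cc m l y ∈ Bad m l
      · obtain ⟨l, hl, hlp, hlb⟩ := hbad
        have hlpr := Nat.prime_of_mem_primeFactors hl
        have hldm := Nat.dvd_of_mem_primeFactors hl
        have hv : 0 < m.factorization l := hlpr.factorization_pos_of_dvd hm0 hldm
        have hne : cc m l y ≠ 0 := by
          obtain ⟨k, hk0, hk1, hk2⟩ := hlb
          rw [hk2, Ne, P3 _ _ (pow_pos hlpr.pos _)]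
          intro hd
          have h7 := Nat.le_of_dvd hk0 hd
          have h8 : l ^ (m.factorization l - 1) < l ^ m.factorization l :=
            Nat.pow_lt_pow_right hlpr.one_lt (by omega)
          omega
        have hdvd : l ∣ addOrderOf y := C4 m l y hm hl hy hne
        have hcop : Nat.Coprime l p := (Nat.coprime_primes hlpr hp).2 hlp
        have hldmp : l ∣ m / p := by
          rw [← hmp] at hldm
          exact hcop.dvd_of_dvd_mul_left hldm
        have hz : (m / p) • (l • y) ≠ 0 := by
          intro h0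
          rw [← mul_nsmul', mul_comm, mul_nsmul'] at h0
          have hz1 : addOrderOf ((m / p) • y) ∣ l := addOrderOf_dvd_iff_nsmul_eq_zero.2 h0
          have hz2 : addOrderOf ((m / p) • y) ∣ p := by
            rw [addOrderOf_dvd_iff_nsmul_eq_zero, ← mul_nsmul', hmp]
            exact hy
          have hz3 : addOrderOf ((m / p) • y) ∣ 1 := by
            rw [← hcop.gcd_eq_one]
            exact Nat.dvd_gcd hz1 hz2
          rw [Nat.dvd_one, AddMonoid.addOrderOf_eq_one_iff] at hz3
          exact hy' hz3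
        have hly : l • y ≠ 0 := by
          intro h0
          rw [h0, nsmul_zero] at hz
          exact hz rfl
        apply hdist l y hlpr.pos hly
        · intro j hj0 hjl
          obtain ⟨n1, n2⟩ := hshift l j y hlpr.pos hldmp hy hy'
          have e1 : cc m p (y + ((j / l : ℝ) : UnitAddCircle)) = cc m p y :=
            C2 m l p j y hm hl hpmf (Ne.symm hlp)
          refine ihk _ ?_ _ n1 n2 ?_ (by rw [e1]; exact hs1) (by rw [e1]; exact hs2) rfl
          · rw [← hk]
            apply Finset.card_lt_card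
            rw [Finset.ssubset_iff_of_subset]
            · refine ⟨l, ?_, ?_⟩
              · rw [Finset.mem_filter]
                exact ⟨hl, hlp, hlb⟩
              · rw [Finset.mem_filter]
                rintro ⟨-, -, h9⟩
                exact h5 m l j y hm hl hlb hj0 hjl h9
            · intro l' hl'
              rw [Finset.mem_filter] at hl' ⊢
              obtain ⟨a1, a2, a3⟩ := hl'
              refine ⟨a1, a2, ?_⟩
              by_cases hll : l' = l
              · rw [hll]
                exact hlb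
              · rwa [C2 m l l' j y hm hl a1 hll] at a3
          · refine (Nat.le_of_dvd (hordpos y hy) ?_).trans hyn
            exact ord_add_dvd _ _ l (nsmul_div l j hlpr.pos) hdvd
        · have hlt : addOrderOf (l • y) < n := by
            rw [addOrderOf_nsmul_of_dvd hlpr.pos.ne' hdvd]
            exact (Nat.div_lt_self (hordpos y hy) hlpr.one_lt).trans_le hyn
          refine ih _ hlt (l • y) ?_ hz rfl
          rw [← mul_nsmul', mul_comm, mul_nsmul', hy, nsmul_zero]
      · push Not at hbad
        apply hSp y (Or.inl ⟨hy, hy', hs1, hs2, ?_⟩)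
        intro l hl hlp
        exact hbad l hl hlp
    have stepA : ∀ x : UnitAddCircle, m • x = 0 → (m / p) • x ≠ 0 → addOrderOf x ≤ n →
        |sw (cc m p x)| < 1 / 2 - 1 / (2 * p) → Finsupp.single x (1 : ℤ) ∈ V := by
      intro x hx hx' hxn hs
      have hs0 := (h6 m p x hm hp hpp h8 hx hx').1
      rw [abs_lt] at hs
      rcases lt_or_gt_of_ne hs0 with hneg | hpos
      · exact step2 _ x hx hx' hxn hs.1 hneg rfl
      · have e1 : cc m p (-x) = -cc m p x := by
          unfold cc
          rw [smul_neg]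
        have e2 : sw (cc m p (-x)) = -sw (cc m p x) := by
          rw [e1]
          exact W3 _ (hcp x hx')
        have h9 : Finsupp.single (-x) (1 : ℤ) ∈ V := by
          refine step2 _ (-x) ?_ ?_ ?_ ?_ ?_ rfl
          · rw [smul_neg, hx, neg_zero]
          · rwa [smul_neg, neg_ne_zero]
          · rwa [addOrderOf_neg]
          · rw [e2]
            linarith [hs.2]
          · rw [e2]
            linarith
        have hx0 : x ≠ 0 := by
          rintro rfl
          exact hx' (nsmul_zero _)
        have h10 := V.sub_mem (hHD _ (H1 x hx0)) h9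
        rwa [add_sub_cancel_right] at h10
    intro x hx hx' hxn
    by_cases hs : |sw (cc m p x)| < 1 / 2 - 1 / (2 * p)
    · exact stepA x hx hx' hxn.le hs
    · have hpx : p • x ≠ 0 := by
        intro h0
        apply hx'
        obtain ⟨k, hk⟩ := hpdiv
        rw [hk, mul_comm, mul_nsmul', h0, nsmul_zero]
      have hdvd : p ∣ addOrderOf x := C4 m p x hm hpmf hx (hcp x hx')
      apply hdist p x hp.pos hpx
      · intro j hj0 hjp
        obtain ⟨n1, n2⟩ := hshift p j x hp.pos hpdiv hx hx'
        refine stepA _ n1 n2 ?_ ((h6 m p x hm hp hpp h8 hx hx').2 hs j hj0 hjp)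
        refine (Nat.le_of_dvd (hordpos x hx) ?_).trans hxn.le
        exact ord_add_dvd _ _ p (nsmul_div p j hp.pos) hdvd
      · apply hold _ hpx
        rw [← mul_nsmul', mul_comm, hmp]
        exact hx
  intro x hx
  by_cases hx' : (m / p) • x = 0
  · exact hold x hx.2 hx'
  · exact main _ x hx.1 hx' rfl

end Pool.Agent.FT
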