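import Pool.Agent.Lib.MP_640417_ag.FT.Spec

/-!
# MP_640417_ag, project FT: module Emb (every level is in a level with `Gen`)
-/

set_option autoImplicit false

noncomputable section

namespace Pool.Agent.FT

open Finset Pool.Agent.FC

private theorem red_cases (m : ℕ) (hm : 0 < m) :
    0 < red m ∧ ((m = red m ∧ m % 4 ≠ 2) ∨ (m = 2 * red m ∧ ¬ 2 ∣ red m)) := by
  unfold red
  split_ifs with h
  · refine ⟨by omega, Or.inr ⟨by omega, by omega⟩⟩
  · exact ⟨hm, Or.inl ⟨rfl, h⟩⟩

private theorem last (h6 : S_Red) (m M : ℕ) (hm : 0 < m) (hrM : red m ∣ M) (h : m ∣ M ∨ ¬ 2 ∣ M) :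
    ∀ x ∈ Kz m, Finsupp.single x (1 : ℤ) ∈ GG ⊔ Sp (Kz M) := by
  intro x hx
  by_cases hd : m ∣ M
  · obtain ⟨c, rfl⟩ := hd
    refine AddSubgroup.mem_sup_right (mem_Sp ⟨?_, hx.2⟩)
    rw [mul_comm, mul_nsmul', hx.1, smul_zero]
  · have hM : ¬ 2 ∣ M := h.resolve_left hd
    obtain ⟨-, h0 | h0⟩ := red_cases m hm
    · exact absurd (h0.1 ▸ hrM) hd
    · have h1 : m ∣ 2 * M := by
        rw [h0.1]
        exact Nat.mul_dvd_mul_left 2 hrM
      obtain ⟨c, hc⟩ := h1
      have h2 : x ∈ Kz (2 * M) := by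
        refine ⟨?_, hx.2⟩
        rw [hc, mul_comm, mul_nsmul', hx.1, smul_zero]
      exact sup_le_sup_right HD_le_GG _ (h6 M hM x h2)

private theorem big (h3 : S_Chn) (h6 : S_Red) (m b : ℕ) (hm : 0 < m) (hb : 3 ≤ b) (hG : Gen b)
    (h4 : 4 ∣ b ∨ ¬ 2 ∣ b) (hs : (red m).primeFactors ⊆ b.primeFactors) :
    ∃ M : ℕ, 3 ≤ M ∧ Gen M ∧ ∀ x ∈ Kz m, Finsupp.single x (1 : ℤ) ∈ GG ⊔ Sp (Kz M) := by
  obtain ⟨hr, hc⟩ := red_cases m hm
  have hb0 : b ≠ 0 := by omega
  have hM : 0 < red m * b := Nat.mul_pos hr (by omega)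
  refine ⟨red m * b, ?_, ?_, ?_⟩
  · nlinarith
  · refine h3 b _ hG h4 hM (dvd_mul_left _ _) ?_
    rw [Nat.primeFactors_mul hr.ne' hb0]
    exact Finset.union_subset hs (Finset.Subset.refl _)
  · refine last h6 m _ hm (dvd_mul_right _ _) ?_
    rcases h4 with h4 | h4
    · left
      rcases hc with hc | hc
      · rw [← hc.1]
        exact dvd_mul_right _ _
      · obtain ⟨d, rfl⟩ := h4
        refine ⟨2 * d, ?_⟩
        conv_rhs => rw [hc.1]
        ring
    · right
      intro h2
      rcases (Nat.prime_two.dvd_mul).1 h2 with h2 | h2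
      · have := hs (Nat.mem_primeFactors.2 ⟨Nat.prime_two, h2, hr.ne'⟩)
        exact h4 (Nat.dvd_of_mem_primeFactors this)
      · exact h4 h2

theorem tEmb (_h1 : S_Pt) (_h2 : S_HDf) (h3 : S_Chn) (h4 : S_BasP) (h5 : S_Bas) (h6 : S_Red) : S_Emb := by
  intro m hm hD
  obtain ⟨hr, hc⟩ := red_cases m hm
  obtain ⟨g4, g39, g60, g84, g105, g132, g140⟩ := h5
  rcases hD with hD | ⟨S, hS, hD⟩
  · rcases Nat.le_one_iff_eq_zero_or_eq_one.1 hD with h0 | h0
    · have hr1 : red m = 1 := by
        rw [Finset.card_eq_zero, Nat.primeFactors_eq_empty] at h0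
        omega
      exact ⟨3, le_refl _, h4 3 Nat.prime_three (by norm_num),
        last h6 m 3 hm (by rw [hr1]; exact one_dvd _) (Or.inr (by norm_num))⟩
    · obtain ⟨p, hp⟩ := Finset.card_eq_one.1 h0
      have hpm : p ∈ (red m).primeFactors := by rw [hp]; exact Finset.mem_singleton_self p
      obtain ⟨hpp, hpd, -⟩ := Nat.mem_primeFactors.1 hpm
      by_cases hp2 : p = 2
      · subst hp2
        have hmr : m = red m ∧ m % 4 ≠ 2 := hc.resolve_right fun h => h.2 hpd
        have h4r : 4 ∣ red m := by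
          have := hmr.1
          have := hmr.2
          omega
        refine ⟨red m, by have := Nat.le_of_dvd hr h4r; omega, ?_, ?_⟩
        · refine h3 4 _ g4 (Or.inl (dvd_refl _)) hr h4r ?_
          rw [hp]
          intro q hq
          rw [Finset.mem_singleton] at hq
          subst hq
          exact Nat.mem_primeFactors.2 ⟨Nat.prime_two, by norm_num, by norm_num⟩
        · exact last h6 m _ hm (dvd_refl _) (Or.inl (by rw [← hmr.1]))
      · have hp3 : 3 ≤ p := by
          have := hpp.two_le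
          omega
        have hpo : ¬ 2 ∣ p := fun h => hp2 ((Nat.prime_dvd_prime_iff_eq Nat.prime_two hpp).1 h).symm
        refine ⟨red m, hp3.trans (Nat.le_of_dvd hr hpd), ?_, ?_⟩
        · refine h3 p _ (h4 p hpp hp2) (Or.inr hpo) hr hpd ?_
          rw [hp, hpp.primeFactors]
        · refine last h6 m _ hm (dvd_refl _) (Or.inr ?_)
          intro h
          have : 2 ∈ (red m).primeFactors := Nat.mem_primeFactors.2 ⟨Nat.prime_two, h, hr.ne'⟩
          rw [hp, Finset.mem_singleton] at this
          exact hp2 this.symm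
  · have key : ∀ b : ℕ, b ≠ 0 → (∀ q ∈ S, q.Prime ∧ q ∣ b) → (red m).primeFactors ⊆ b.primeFactors := by
      intro b hb hq q hqm
      obtain ⟨h7, h8⟩ := hq q (hD hqm)
      exact Nat.mem_primeFactors.2 ⟨h7, h8, hb⟩
    simp only [List.mem_cons, List.not_mem_nil, or_false] at hS
    rcases hS with rfl | rfl | rfl | rfl | rfl | rfl
    · refine big h3 h6 m 60 hm (by norm_num) g60 (Or.inl (by norm_num)) (key 60 (by norm_num) ?_)
      intro q hq
      simp only [Finset.mem_insert, Finset.mem_singleton] at hq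
      rcases hq with rfl | rfl | rfl <;> norm_num
    · refine big h3 h6 m 84 hm (by norm_num) g84 (Or.inl (by norm_num)) (key 84 (by norm_num) ?_)
      intro q hq
      simp only [Finset.mem_insert, Finset.mem_singleton] at hq
      rcases hq with rfl | rfl | rfl <;> norm_num
    · refine big h3 h6 m 132 hm (by norm_num) g132 (Or.inl (by norm_num)) (key 132 (by norm_num) ?_)
      intro q hq
      simp only [Finset.mem_insert, Finset.mem_singleton] at hq
      rcases hq with rfl | rfl | rfl <;> norm_num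
    · refine big h3 h6 m 140 hm (by norm_num) g140 (Or.inl (by norm_num)) (key 140 (by norm_num) ?_)
      intro q hq
      simp only [Finset.mem_insert, Finset.mem_singleton] at hq
      rcases hq with rfl | rfl | rfl <;> norm_num
    · refine big h3 h6 m 105 hm (by norm_num) g105 (Or.inr (by norm_num)) (key 105 (by norm_num) ?_)
      intro q hq
      simp only [Finset.mem_insert, Finset.mem_singleton] at hq
      rcases hq with rfl | rfl | rfl <;> norm_num
    · refine big h3 h6 m 39 hm (by norm_num) g39 (Or.inr (by norm_num)) (key 39 (by norm_num) ?_)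
      intro q hq
      simp only [Finset.mem_insert, Finset.mem_singleton] at hq
      rcases hq with rfl | rfl <;> norm_num

end Pool.Agent.FT
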