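import Pool.Agent.Lib.MP_640417_ag.FT.Spec

/-!
THEOREM F3P.
-/

set_option autoImplicit false

noncomputable section

namespace Pool.Agent.FT

open Finset Pool.Agent.FC

theorem tEnd (h1 : S_Ker) (h2 : S_Emb) : S_End := by
  intro m hm hD f hf hL
  obtain ⟨M, hM, hG, hx⟩ := h2 m hm hD
  refine h1 M hM hG f ?_ hL
  have hle : Sp (Kz m) ≤ GG ⊔ Sp (Kz M) := by
    refine (AddSubgroup.closure_le _).2 ?_
    rintro _ ⟨b, hb, rfl⟩
    exact hx b hb
  exact hle hf

theorem tEndT (h1 : S_End) : S_EndT := by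
  intro m hm hD ι s x hx hr
  refine h1 m hm hD _ (sum_mem fun i hi => mem_Sp (hx i hi)) ⟨m, hm, fun t ht => ?_⟩
  have h := hr t fun i hi =>
    Nat.Coprime.coprime_dvd_right (addOrderOf_dvd_of_nsmul_eq_zero (hx i hi).1) ht
  rw [map_sum, ← h]
  refine sum_congr rfl fun i _ => ?_
  rw [Ph_single]
  simp

end Pool.Agent.FT
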