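import Pool.Agent.Lib.MP_640417_ag.FT.Spec

/-!
# MP_640417_ag, project FT, module GPh: the elements of `GG` satisfy Stickelberger's relation
-/

set_option autoImplicit false

noncomputable section

namespace Pool.Agent.FT

open Finset Pool.Agent.FC

/-- The elements which satisfy Stickelberger's relation. -/
private def GPh_G : AddSubgroup (UnitAddCircle →₀ ℤ) where
  carrier := {f | ∃ L : ℕ, 0 < L ∧ ∀ t : ℕ, t.Coprime L → Ph t f = 0}
  zero_mem' := ⟨1, one_pos, fun t _ => map_zero _⟩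
  add_mem' := by
    rintro f g ⟨L, hL, hf⟩ ⟨M, hM, hg⟩
    refine ⟨L * M, Nat.mul_pos hL hM, fun t ht => ?_⟩
    rw [map_add, hf t (Nat.Coprime.coprime_mul_right_right ht),
      hg t (Nat.Coprime.coprime_mul_left_right ht), add_zero]
  neg_mem' := by
    rintro f ⟨L, hL, hf⟩
    exact ⟨L, hL, fun t ht => by rw [map_neg, hf t ht, neg_zero]⟩

private theorem GPh_ne {y : UnitAddCircle} (hy : y ≠ 0) {t : ℕ}
    (ht : t.Coprime (2 * max (addOrderOf y) 1)) : t • y ≠ 0 := by
  intro h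
  have hd : addOrderOf y ∣ t := addOrderOf_dvd_iff_nsmul_eq_zero.2 h
  rcases Nat.eq_zero_or_pos (addOrderOf y) with h0 | h0
  · rw [h0] at hd ht
    have ht0 : t = 0 := Nat.eq_zero_of_zero_dvd hd
    rw [ht0] at ht
    norm_num at ht
  · have h1 : max (addOrderOf y) 1 = addOrderOf y := Nat.max_eq_left h0
    rw [h1] at ht
    have h2 : addOrderOf y ∣ 1 := by
      rw [← (show Nat.gcd t (2 * addOrderOf y) = 1 from ht)]
      exact Nat.dvd_gcd hd (Dvd.intro_left 2 rfl)
    have h3 : addOrderOf y = 1 := Nat.dvd_one.1 h2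
    exact hy (AddMonoid.addOrderOf_eq_one_iff.1 h3)

private theorem GPh_HD (h2 : S_Sw) (h3 : S_Dis) : HD ≤ GPh_G := by
  unfold HD
  rw [AddSubgroup.closure_le]
  rintro f (⟨y, hy, rfl⟩ | ⟨n, y, hn, _, rfl⟩)
  · refine ⟨2 * max (addOrderOf y) 1, ?_, fun t ht => ?_⟩
    · have : 1 ≤ max (addOrderOf y) 1 := le_max_right _ _
      omega
    · rw [map_add, Ph_single, Ph_single, smul_neg, h2.2.2.1 _ (GPh_ne hy ht)]
      ring
  · refine ⟨2 * n, by omega, fun t ht => ?_⟩
    have hn' : 0 < n := Nat.pos_of_ne_zero hn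
    have htn : t.Coprime n := Nat.Coprime.coprime_mul_left_right ht
    rw [map_sub, map_sum, Ph_single]
    simp_rw [Ph_single, Int.cast_one, one_mul]
    rw [h3 n t y hn' htn, sub_self]

private theorem GPh_tup : ∀ q ∈ tup, 0 < q.1 ∧ ∀ u < q.1, u.Coprime q.1 →
    2 * (q.2.map fun k => u * k % q.1).sum = q.1 * q.2.length := by
  decide +kernel

private theorem GPh_sum (M : ℕ) (g : ℕ → ℕ) (l : List ℕ) :
    (l.map fun k => ((g k : ℕ) : ℝ) / M - 1 / 2).sum = ((l.map g).sum : ℕ) / M - l.length / 2 := by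
  induction l with
  | nil => simp
  | cons a l ih =>
    rw [List.map_cons, List.sum_cons, ih, List.map_cons, List.sum_cons, List.length_cons]
    push_cast
    ring

/-- **GPh.** -/
theorem tGPh (h1 : S_Sw) (h2 : S_Dis) (h3 : S_Pt) : S_GPh := by
  have key : GG ≤ GPh_G := by
    unfold GG
    refine sup_le (GPh_HD h1 h2) ?_
    rw [AddSubgroup.closure_le]
    rintro f ⟨q, t, hq, ht, rfl⟩
    obtain ⟨hM, hc⟩ := GPh_tup q hq
    refine ⟨q.1, hM, fun t' ht' => ?_⟩
    obtain ⟨-, -, -, p4, -, -, p7, -⟩ := h3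
    have hu : (t' * t % q.1).Coprime q.1 := by
      have h4 : (t' * t).Coprime q.1 := ht'.mul_left ht
      have h5 := Nat.gcd_rec q.1 (t' * t)
      unfold Nat.Coprime at h4 ⊢
      rw [Nat.gcd_comm] at h4
      rw [← h5, h4]
    have h6 := hc _ (Nat.mod_lt _ hM) hu
    rw [map_list_sum, List.map_map]
    have h7 : (fun k => (Ph t' ∘ fun k => Finsupp.single (pt q.1 (t * k)) (1 : ℤ)) k) =
        fun k => (((t' * t % q.1 * k % q.1 : ℕ) : ℕ) : ℝ) / q.1 - 1 / 2 := by
      funext k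
      rw [Function.comp_apply, Ph_single, Int.cast_one, one_mul, p4, p7 _ _ hM]
      have h8 : t' * (t * k) % q.1 = t' * t % q.1 * k % q.1 := by
        rw [Nat.mod_mul_mod, mul_assoc]
      rw [h8]
    have h9 := GPh_sum q.1 (fun k => t' * t % q.1 * k % q.1) q.2
    rw [← h7] at h9
    refine h9.trans ?_
    have h10 : (2 : ℝ) * ((q.2.map fun k => t' * t % q.1 * k % q.1).sum : ℕ) =
        q.1 * q.2.length := by exact_mod_cast h6
    have h11 : (q.1 : ℝ) ≠ 0 := by exact_mod_cast hM.ne'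
    field_simp
    linarith
  intro g hg
  exact key hg

end Pool.Agent.FT
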