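import Pool.Agent.Lib.MP_640417_ag.FT.Spec

set_option autoImplicit false

noncomputable section

namespace Pool.Agent.FT

open Finset Pool.Agent.FC

theorem tGRel (h1 : S_Cop) (h2 : S_GPh) : S_GRel := by
  intro ι s x hx hG t ht
  obtain ⟨L, hL, hPh⟩ := h2 _ hG
  have hP : 0 < ∏ i ∈ s, addOrderOf (x i) := Finset.prod_pos fun i hi => (hx i hi).addOrderOf_pos
  have htP : t.Coprime (∏ i ∈ s, addOrderOf (x i)) := Nat.Coprime.prod_right fun i hi => ht i hi
  obtain ⟨t', ht1, ht2⟩ := h1 _ L t hP hL htP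
  have h3 := hPh t' (ht2.coprime_dvd_right (Dvd.intro_left _ rfl))
  rw [map_sum] at h3
  rw [← h3]
  refine Finset.sum_congr rfl fun i hi => ?_
  have h4 : t' ≡ t [MOD addOrderOf (x i)] := ht1.of_dvd (Finset.dvd_prod_of_mem (fun i => addOrderOf (x i)) hi)
  rw [Ph_single, (nsmul_eq_nsmul_iff_modEq).2 h4]
  simp

end Pool.Agent.FT
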