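import Pool.Agent.Lib.MP_640417_ag.FT.Spec

/-!
# THEOREM F3P: elements of `HD`
-/

set_option autoImplicit false

noncomputable section

namespace Pool.Agent.FT

open Finset Pool.Agent.FC

private theorem HDf_one (x : UnitAddCircle) (hx : x ≠ 0) :
    Finsupp.single x (1 : ℤ) + Finsupp.single (-x) 1 ∈ HD :=
  AddSubgroup.subset_closure (Or.inl ⟨x, hx, rfl⟩)

private theorem HDf_two (n : ℕ) (x : UnitAddCircle) (hn : 0 < n) (hx : n • x ≠ 0) :
    Finsupp.single x (1 : ℤ) + ∑ j ∈ Ico 1 n, Finsupp.single (x + ((j / n : ℝ) : UnitAddCircle)) 1 -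
      Finsupp.single (n • x) 1 ∈ HD := by
  refine AddSubgroup.subset_closure (Or.inr ⟨n, x, hn.ne', hx, ?_⟩)
  rw [Finset.range_eq_Ico, Finset.sum_eq_sum_Ico_succ_bot hn, Nat.cast_zero, zero_div,
    AddCircle.coe_zero, add_zero]

theorem tHDf (h1 : S_Pt) : S_HDf := by
  obtain ⟨-, -, h3, h4, h5, h6, -, h8⟩ := h1
  refine ⟨HDf_one, HDf_two, ?_⟩
  have e2 : 2 • pt 4 1 = pt 4 2 := h4 4 1 2
  have e21 : pt 2 1 = pt 4 2 := h6 4 2 1 (by norm_num) (by norm_num)
  have hne : 2 • pt 4 1 ≠ 0 := by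
    rw [e2]
    intro h
    have := (h3 4 2 (by norm_num)).1 h
    omega
  have hy : pt 4 1 ≠ 0 := by
    intro h
    have := (h3 4 1 (by norm_num)).1 h
    omega
  have g2 := HDf_two 2 (pt 4 1) (by norm_num) hne
  have g1 := HDf_one (pt 4 1) hy
  have e5 := h5 4 1 2 1 (by norm_num) (by norm_num)
  have e8 : pt 4 3 = -pt 4 1 := h8 4 1 3 (by norm_num) (by norm_num)
  have e9 : (1 : ℕ) + 1 * (4 / 2) = 3 := by norm_num
  rw [e9, e8] at e5
  have hI : Ico 1 2 = ({1} : Finset ℕ) := by decide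
  rw [hI, Finset.sum_singleton, e5, e2, ← e21] at g2
  have h := HD.sub_mem g1 g2
  have e : Finsupp.single (pt 4 1) (1 : ℤ) + Finsupp.single (-pt 4 1) 1 -
      (Finsupp.single (pt 4 1) (1 : ℤ) + Finsupp.single (-pt 4 1) 1 - Finsupp.single (pt 2 1) 1) =
      Finsupp.single (pt 2 1) 1 := by abel
  rwa [e] at h

end Pool.Agent.FT
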