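import Pool.Agent.Lib.MP_640417_ag.FT.Spec

noncomputable section

namespace Pool.Agent.FT

open Finset Pool.Agent.FC

private theorem Hz_pos (n : ℕ) (hn : 1 ≤ n) (s : ℝ) (hs1 : 1 ≤ s) (hs2 : s ≤ 2) :
    1 / (n : ℝ) ^ s - 1 / ((n : ℝ) + 1) ^ s ≤ 4 * (1 / ((n : ℝ) + 1) ^ 2) := by
  have hn' : (1 : ℝ) ≤ (n : ℝ) := by exact_mod_cast hn
  have hn0 : (0 : ℝ) < (n : ℝ) := by linarith
  have hm0 : (0 : ℝ) < (n : ℝ) + 1 := by linarith
  have e1 : 1 / ((n : ℝ) + 1) ^ s = 1 / (n : ℝ) ^ s * ((n : ℝ) / ((n : ℝ) + 1)) ^ s := by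
    rw [Real.div_rpow hn0.le hm0.le]
    have : (n : ℝ) ^ s ≠ 0 := (Real.rpow_pos_of_pos hn0 s).ne'
    field_simp
  have h2 : ((n : ℝ) / ((n : ℝ) + 1)) ^ (2 : ℝ) ≤ ((n : ℝ) / ((n : ℝ) + 1)) ^ s := by
    refine Real.rpow_le_rpow_of_exponent_ge (by positivity) ?_ hs2
    rw [div_le_one hm0]
    linarith
  rw [Real.rpow_two] at h2
  have h3 : 1 / (n : ℝ) ^ s ≤ 1 / (n : ℝ) := by
    refine one_div_le_one_div_of_le hn0 ?_
    calc (n : ℝ) = (n : ℝ) ^ (1 : ℝ) := (Real.rpow_one _).symm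
      _ ≤ (n : ℝ) ^ s := Real.rpow_le_rpow_of_exponent_le hn' hs1
  have h4 : 0 ≤ 1 / (n : ℝ) ^ s := by positivity
  have h5 : (0 : ℝ) ≤ 1 - ((n : ℝ) / ((n : ℝ) + 1)) ^ 2 := by
    have : ((n : ℝ) / ((n : ℝ) + 1)) ^ 2 ≤ 1 := by
      refine pow_le_one₀ (by positivity) ?_
      rw [div_le_one hm0]
      linarith
    linarith
  rw [e1]
  calc 1 / (n : ℝ) ^ s - 1 / (n : ℝ) ^ s * ((n : ℝ) / ((n : ℝ) + 1)) ^ s
      = 1 / (n : ℝ) ^ s * (1 - ((n : ℝ) / ((n : ℝ) + 1)) ^ s) := by ring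
    _ ≤ 1 / (n : ℝ) ^ s * (1 - ((n : ℝ) / ((n : ℝ) + 1)) ^ 2) :=
        mul_le_mul_of_nonneg_left (by linarith) h4
    _ ≤ 1 / (n : ℝ) * (1 - ((n : ℝ) / ((n : ℝ) + 1)) ^ 2) := mul_le_mul_of_nonneg_right h3 h5
    _ ≤ 4 * (1 / ((n : ℝ) + 1) ^ 2) := by
        have e2 : 1 / (n : ℝ) * (1 - ((n : ℝ) / ((n : ℝ) + 1)) ^ 2) =
            ((2 * n + 1) / n) * (1 / ((n : ℝ) + 1) ^ 2) := by
          field_simp
          ring
        rw [e2]
        refine mul_le_mul_of_nonneg_right ?_ (by positivity)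
        rw [div_le_iff₀ hn0]
        linarith

private theorem Hz_mid (n : ℕ) (hn : 1 ≤ n) (s : ℝ) (hs1 : 1 ≤ s) (x : ℝ) (hx : (n : ℝ) ≤ x)
    (hx2 : x ≤ (n : ℝ) + 1) : 1 / ((n : ℝ) + 1) ^ s ≤ 1 / x ^ s ∧ 1 / x ^ s ≤ 1 / (n : ℝ) ^ s := by
  have hn' : (1 : ℝ) ≤ (n : ℝ) := by exact_mod_cast hn
  have hn0 : (0 : ℝ) < (n : ℝ) := by linarith
  have hx0 : 0 < x := by linarith
  constructor
  · exact one_div_le_one_div_of_le (Real.rpow_pos_of_pos hx0 s)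
      (Real.rpow_le_rpow hx0.le hx2 (by linarith))
  · exact one_div_le_one_div_of_le (Real.rpow_pos_of_pos hn0 s)
      (Real.rpow_le_rpow hn0.le hx (by linarith))

private theorem Hz_zero (x : ℝ) (hx : 0 < x) (hx1 : x < 1) (s : ℝ) (hs2 : s ≤ 2) :
    1 / x ^ s ≤ 1 / x ^ 2 := by
  refine one_div_le_one_div_of_le (by positivity) ?_
  calc x ^ 2 = x ^ (2 : ℝ) := (Real.rpow_two x).symm
    _ ≤ x ^ s := Real.rpow_le_rpow_of_exponent_ge hx hx1.le hs2

private theorem Hz_bd (a : ℝ) (h0 : 0 < a) (h1 : a < 1) (s : ℝ) (hs1 : 1 ≤ s) (hs2 : s ≤ 2) (n : ℕ) :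
    |(1 / ((n : ℝ) + a) ^ s - 1 / ((n : ℝ) + 1 - a) ^ s) / 2| ≤
      (2 + 1 / a ^ 2 + 1 / (1 - a) ^ 2) * (1 / ((n : ℝ) + 1) ^ 2) := by
  have h1a : 0 < 1 - a := by linarith
  have ha2 : 0 ≤ 1 / a ^ 2 := by positivity
  have hb2 : 0 ≤ 1 / (1 - a) ^ 2 := by positivity
  rcases Nat.eq_zero_or_pos n with rfl | hn
  · have h2 := Hz_zero a h0 h1 s hs2
    have h3 := Hz_zero (1 - a) h1a (by linarith) s hs2
    have h4 : 0 ≤ 1 / a ^ s := by positivity
    have h5 : 0 ≤ 1 / (1 - a) ^ s := by positivity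
    simp only [Nat.cast_zero, zero_add]
    rw [one_pow, div_one, mul_one, abs_le]
    constructor <;> linarith
  · obtain ⟨p1, p2⟩ := Hz_mid n hn s hs1 ((n : ℝ) + a) (by linarith) (by linarith)
    obtain ⟨q1, q2⟩ := Hz_mid n hn s hs1 ((n : ℝ) + 1 - a) (by linarith) (by linarith)
    have h2 := Hz_pos n hn s hs1 hs2
    have h3 : 0 ≤ 1 / ((n : ℝ) + 1) ^ 2 := by positivity
    have h4 : 2 * (1 / ((n : ℝ) + 1) ^ 2) ≤
        (2 + 1 / a ^ 2 + 1 / (1 - a) ^ 2) * (1 / ((n : ℝ) + 1) ^ 2) :=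
      mul_le_mul_of_nonneg_right (by linarith) h3
    refine le_trans ?_ h4
    rw [abs_le]
    constructor <;> linarith

private theorem Hz_sum (a : ℝ) (h0 : 0 < a) (h1 : a < 1) (s : ℝ) (hs : 1 < s) :
    HurwitzZeta.hurwitzZetaOdd (a : UnitAddCircle) (s : ℂ) =
      ∑' n : ℕ, (((1 / ((n : ℝ) + a) ^ s - 1 / ((n : ℝ) + 1 - a) ^ s) / 2 : ℝ) : ℂ) := by
  have h := HurwitzZeta.hasSum_nat_hurwitzZetaOdd_of_mem_Icc (a := a) ⟨h0.le, h1.le⟩ (s := (s : ℂ))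
    (by rwa [Complex.ofReal_re])
  rw [← h.tsum_eq]
  refine tsum_congr fun n => ?_
  have hn : (0 : ℝ) ≤ (n : ℝ) := Nat.cast_nonneg n
  rw [Complex.ofReal_div, Complex.ofReal_sub, Complex.ofReal_div, Complex.ofReal_div,
    Complex.ofReal_cpow (by linarith), Complex.ofReal_cpow (by linarith)]
  push_cast
  rfl

private theorem Hz_lim (a : ℝ) (h0 : 0 < a) (h1 : a < 1) :
    HurwitzZeta.hurwitzZetaOdd (a : UnitAddCircle) 1 =
      ∑' n : ℕ, (((1 / ((n : ℝ) + a) - 1 / ((n : ℝ) + 1 - a)) / 2 : ℝ) : ℂ) := by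
  have hL : Filter.Tendsto (fun s : ℝ => HurwitzZeta.hurwitzZetaOdd (a : UnitAddCircle) (s : ℂ))
      (nhdsWithin 1 (Set.Ioi 1)) (nhds (HurwitzZeta.hurwitzZetaOdd (a : UnitAddCircle) 1)) := by
    have h2 : Continuous fun s : ℝ => HurwitzZeta.hurwitzZetaOdd (a : UnitAddCircle) (s : ℂ) :=
      (HurwitzZeta.differentiable_hurwitzZetaOdd _).continuous.comp Complex.continuous_ofReal
    have h3 := h2.tendsto 1
    rw [Complex.ofReal_one] at h3
    exact h3.mono_left nhdsWithin_le_nhds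
  have hR : Filter.Tendsto (fun s : ℝ =>
      ∑' n : ℕ, (((1 / ((n : ℝ) + a) ^ s - 1 / ((n : ℝ) + 1 - a) ^ s) / 2 : ℝ) : ℂ))
      (nhdsWithin 1 (Set.Ioi 1))
      (nhds (∑' n : ℕ, (((1 / ((n : ℝ) + a) - 1 / ((n : ℝ) + 1 - a)) / 2 : ℝ) : ℂ))) := by
    refine tendsto_tsum_of_dominated_convergence
      (bound := fun n : ℕ => (2 + 1 / a ^ 2 + 1 / (1 - a) ^ 2) * (1 / ((n : ℝ) + 1) ^ 2)) ?_ ?_ ?_
    · refine Summable.mul_left _ ?_
      have h4 := (summable_nat_add_iff 1).2 (Real.summable_one_div_nat_pow.2 (one_lt_two))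
      refine h4.congr fun n => ?_
      push_cast
      rfl
    · intro n
      have hn : (0 : ℝ) ≤ (n : ℝ) := Nat.cast_nonneg n
      have p1 : (0 : ℝ) < (n : ℝ) + a := by linarith
      have p2 : (0 : ℝ) < (n : ℝ) + 1 - a := by linarith
      have h5 : Continuous fun s : ℝ => (1 / ((n : ℝ) + a) ^ s - 1 / ((n : ℝ) + 1 - a) ^ s) / 2 := by
        refine Continuous.div_const (Continuous.sub ?_ ?_) 2
        · exact continuous_const.div (Real.continuous_const_rpow p1.ne')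
            fun s => (Real.rpow_pos_of_pos p1 s).ne'
        · exact continuous_const.div (Real.continuous_const_rpow p2.ne')
            fun s => (Real.rpow_pos_of_pos p2 s).ne'
      have h6 := (Complex.continuous_ofReal.comp h5).tendsto 1
      simp only [Function.comp, Real.rpow_one] at h6
      exact h6.mono_left nhdsWithin_le_nhds
    · have h7 : ∀ᶠ s : ℝ in nhdsWithin 1 (Set.Ioi 1), s ∈ Set.Ioo (1 : ℝ) 2 :=
        Ioo_mem_nhdsGT one_lt_two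
      filter_upwards [h7] with s hs n
      rw [Complex.norm_real, Real.norm_eq_abs]
      exact Hz_bd a h0 h1 s hs.1.le hs.2.le n
  refine tendsto_nhds_unique hL (hR.congr' ?_)
  filter_upwards [self_mem_nhdsWithin] with s hs
  exact (Hz_sum a h0 h1 s hs).symm

private theorem Hz_smb (a : ℝ) (h0 : 0 < a) (h1 : a < 1) :
    Summable fun n : ℕ => (((1 / ((n : ℝ) + a) - 1 / ((n : ℝ) + 1 - a)) / 2 : ℝ) : ℂ) := by
  have h4 := (summable_nat_add_iff 1).2 (Real.summable_one_div_nat_pow.2 (one_lt_two))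
  refine Summable.of_norm_bounded (h4.mul_left (2 + 1 / a ^ 2 + 1 / (1 - a) ^ 2)) fun n => ?_
  rw [Complex.norm_real, Real.norm_eq_abs]
  have h5 := Hz_bd a h0 h1 1 le_rfl one_le_two n
  simp only [Real.rpow_one] at h5
  refine h5.trans (le_of_eq ?_)
  push_cast
  rfl

private theorem Hz_part (a : ℝ) (h1 : a < 1) (K : ℕ) :
    ∑ n ∈ range K, (((1 / ((n : ℝ) + a) - 1 / ((n : ℝ) + 1 - a)) / 2 : ℝ) : ℂ) =
      (1 / (a : ℂ) + ∑ n ∈ range K, (1 / ((a : ℂ) - (n + 1)) + 1 / ((a : ℂ) + (n + 1))) -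
        1 / ((a : ℂ) + K)) / 2 := by
  induction K with
  | zero => simp
  | succ K ih =>
    rw [Finset.sum_range_succ, Finset.sum_range_succ, ih]
    have hn : (0 : ℝ) ≤ (K : ℝ) := Nat.cast_nonneg K
    have p1 : ((K : ℝ) + 1 - a) ≠ 0 := by linarith
    have p2 : ((K : ℂ) + 1 - a) ≠ 0 := by
      have := p1
      exact_mod_cast this
    have e1 : 1 / ((a : ℂ) - (K + 1)) = -(1 / ((K : ℂ) + 1 - a)) := by
      rw [← neg_sub, one_div, one_div, inv_neg]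
    rw [e1]
    push_cast
    rw [add_comm (a : ℂ) (K : ℂ), add_comm (a : ℂ) ((K : ℂ) + 1)]
    ring

theorem tHz : S_Hz := by
  intro a h0 h1
  have hz : (a : ℂ) ∈ Complex.integerComplement := by
    rw [Complex.mem_integerComplement_iff]
    rintro ⟨n, hn⟩
    have h2 : (n : ℝ) = a := by exact_mod_cast hn
    have h3 : 0 < n := by
      have : (0 : ℝ) < (n : ℝ) := by rw [h2]; exact h0
      exact_mod_cast this
    have h4 : n < 1 := by
      have : (n : ℝ) < 1 := by rw [h2]; exact h1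
      exact_mod_cast this
    omega
  have hcot := cot_series_rep' hz
  have hT : Filter.Tendsto (fun K : ℕ => ∑ n ∈ range K, (1 / ((a : ℂ) - (n + 1)) + 1 / ((a : ℂ) + (n + 1))))
      Filter.atTop (nhds (Real.pi * Complex.cot (Real.pi * a) - 1 / a)) := by
    have h2 := (summable_cotTerm hz).hasSum.tendsto_sum_nat
    have h3 : ∑' n : ℕ, cotTerm (a : ℂ) n = Real.pi * Complex.cot (Real.pi * a) - 1 / a := by
      rw [hcot]
    rw [h3] at h2
    exact h2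
  have hU : Filter.Tendsto (fun K : ℕ => 1 / ((a : ℂ) + K)) Filter.atTop (nhds 0) := by
    have h2 : Filter.Tendsto (fun K : ℕ => 1 / (a + (K : ℝ))) Filter.atTop (nhds 0) :=
      tendsto_const_nhds.div_atTop
        (Filter.tendsto_atTop_add_const_left _ a tendsto_natCast_atTop_atTop)
    have h3 := (Complex.continuous_ofReal.tendsto 0).comp h2
    rw [Complex.ofReal_zero] at h3
    refine h3.congr fun K => ?_
    simp only [Function.comp]
    push_cast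
    rfl
  have hS := (Hz_smb a h0 h1).hasSum.tendsto_sum_nat
  rw [Hz_lim a h0 h1]
  have hV : Filter.Tendsto (fun K : ℕ => (1 / (a : ℂ) + ∑ n ∈ range K, (1 / ((a : ℂ) - (n + 1)) +
      1 / ((a : ℂ) + (n + 1))) - 1 / ((a : ℂ) + K)) / 2) Filter.atTop
      (nhds ((1 / (a : ℂ) + (Real.pi * Complex.cot (Real.pi * a) - 1 / a) - 0) / 2)) :=
    (((hT.const_add _).sub hU).div_const 2)
  have hW := tendsto_nhds_unique hS (hV.congr fun K => (Hz_part a h1 K).symm)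
  rw [hW]
  ring

end Pool.Agent.FT
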