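import Pool.Agent.Lib.MP_640417_ag.FT.Spec

set_option autoImplicit false

noncomputable section

namespace Pool.Agent.FT

open Finset Pool.Agent.FC

/-- the function `u ↦ sw (u x)` on the units -/
private def Fx (M : ℕ) (x : UnitAddCircle) : (ZMod M)ˣ → ℂ :=
  fun u => (sw ((u : ZMod M).val • x) : ℂ)

/-- the homomorphism `u ↦ χ (u⁻¹)` -/
private def hx {M : ℕ} (χ : DirichletCharacter ℂ M) : (ZMod M)ˣ →* ℂ :=
  χ.toMonoidHom.comp ((Units.coeHom (ZMod M)).comp invMonoidHom)

private lemma hx_apply {M : ℕ} (χ : DirichletCharacter ℂ M) (u : (ZMod M)ˣ) :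
    hx χ u = χ ((u⁻¹ : (ZMod M)ˣ) : ZMod M) := rfl

private lemma hx_inj {M : ℕ} : Function.Injective (hx (M := M)) := by
  intro χ χ' h
  apply MulChar.ext
  intro a
  have := DFunLike.congr_fun h a⁻¹
  rw [hx_apply, hx_apply, inv_inv] at this
  exact this

theorem tInd (h1 : S_Coe) (h2 : S_Odd) : S_Ind := by
  classical
  intro M B hM hB hBM hgen c hc
  haveI : NeZero M := ⟨by omega⟩
  obtain ⟨V, hV⟩ : ∃ V, V = Submodule.span ℂ (Set.range (fun b : B => Fx M b)) := ⟨_, rfl⟩
  -- all functions are in `V`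
  have hmem : ∀ x ∈ Kz M, Fx M x ∈ V := by
    intro x hx
    obtain ⟨c, hc⟩ := hgen x hx
    have e : Fx M x = ∑ b : B, (c b : ℂ) • Fx M b := by
      funext u
      rw [Finset.sum_apply]
      simp only [Pi.smul_apply, smul_eq_mul, Fx]
      rw [hc _ (ZMod.val_coe_unit_coprime u), ← Finset.sum_coe_sort]
      push_cast
      rfl
    rw [e, hV]
    apply Submodule.sum_mem
    intro b _
    apply Submodule.smul_mem
    exact Submodule.subset_span ⟨b, rfl⟩
  -- the odd characters are in `V`
  have hodd : ∀ χ : DirichletCharacter ℂ M, χ.Odd → (fun u => hx χ u) ∈ V := by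
    intro χ hχ
    obtain ⟨k, hk, hk'⟩ := h1 M χ hχ
    obtain ⟨w, hw⟩ : ∃ w, w = ∑ s : (ZMod M)ˣ, χ s *
      (sw (ZMod.toAddCircle ((s : ZMod M) * k)) : ℂ) := ⟨_, rfl⟩
    rw [← hw] at hk'
    have hG : (∑ s : (ZMod M)ˣ, χ s • Fx M (ZMod.toAddCircle ((s : ZMod M) * k))) ∈ V := by
      apply Submodule.sum_mem
      intro s _
      apply Submodule.smul_mem
      apply hmem
      refine ⟨?_, ?_⟩
      · rw [← map_nsmul]
        simp
      · intro h0
        have h0' : ZMod.toAddCircle ((s : ZMod M) * k) =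
            ZMod.toAddCircle (0 : ZMod M) := by
          rw [h0, map_zero]
        have := ZMod.toAddCircle_injective M h0'
        apply hk
        have e : ((s⁻¹ : (ZMod M)ˣ) : ZMod M) * ((s : ZMod M) * k) = k := by
          rw [← mul_assoc, Units.inv_mul, one_mul]
        rw [← e, this, mul_zero]
    have e : (fun u => hx χ u) =
        w⁻¹ • ∑ s : (ZMod M)ˣ, χ s • Fx M (ZMod.toAddCircle ((s : ZMod M) * k)) := by
      funext u
      rw [Pi.smul_apply, Finset.sum_apply, smul_eq_mul]
      have e1 : ∑ s : (ZMod M)ˣ, (χ s • Fx M (ZMod.toAddCircle ((s : ZMod M) * k))) u =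
          hx χ u * w := by
        rw [hw, Finset.mul_sum]
        rw [← Equiv.sum_comp (Equiv.mulRight u) (fun s : (ZMod M)ˣ => hx χ u * (χ s *
          (sw (ZMod.toAddCircle ((s : ZMod M) * k)) : ℂ)))]
        apply Finset.sum_congr rfl
        intro s _
        rw [Pi.smul_apply, smul_eq_mul, Equiv.coe_mulRight]
        unfold Fx
        rw [← map_nsmul, nsmul_eq_mul, ZMod.natCast_zmod_val, hx_apply, ← mul_assoc (χ _) (χ _),
          ← map_mul]
        have e2 : ((u⁻¹ : (ZMod M)ˣ) : ZMod M) * ((s * u : (ZMod M)ˣ) : ZMod M) = s := by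
          rw [← Units.val_mul]
          congr 1
          rw [mul_comm s u, inv_mul_cancel_left]
        have e3 : (u : ZMod M) * ((s : ZMod M) * k) = ((s * u : (ZMod M)ˣ) : ZMod M) * k := by
          rw [Units.val_mul]
          ring
        rw [e2, e3]
      rw [e1, mul_comm, mul_assoc, mul_inv_cancel₀ hk', mul_one]
    rw [e]
    exact Submodule.smul_mem _ _ hG
  obtain ⟨S, hS1, hS2⟩ := h2 M hM
  -- the dimension
  have hdim : #S ≤ Module.finrank ℂ V := by
    have hli : LinearIndependent ℂ (fun χ : S => (fun u => hx χ.1 u : (ZMod M)ˣ → ℂ)) := by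
      have := (linearIndependent_monoidHom (ZMod M)ˣ ℂ).comp (fun χ : S => hx χ.1)
        (hx_inj.comp Subtype.val_injective)
      exact this
    have hli2 : LinearIndependent ℂ
        (fun χ : S => (⟨fun u => hx χ.1 u, hodd χ.1 (hS1 χ.1 χ.2)⟩ : V)) := by
      apply LinearIndependent.of_comp V.subtype
      exact hli
    have := hli2.fintype_card_le_finrank
    rwa [Fintype.card_coe] at this
  have hliB : LinearIndependent ℂ (fun b : B => Fx M b) := by
    rw [linearIndependent_iff_card_le_finrank_span, Set.finrank, ← hV, Fintype.card_coe]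
    omega
  rw [Fintype.linearIndependent_iff] at hliB
  intro b hb
  have h := hliB (fun b => (c b : ℂ)) ?_ ⟨b, hb⟩
  · exact_mod_cast h
  · funext u
    rw [Finset.sum_apply]
    simp only [Pi.smul_apply, smul_eq_mul, Fx, Pi.zero_apply]
    have h := hc _ (ZMod.val_coe_unit_coprime u)
    rw [← Finset.sum_coe_sort] at h
    have h' := congrArg (fun r : ℝ => (r : ℂ)) h
    push_cast at h'
    exact h'

end Pool.Agent.FT
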