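import Pool.Agent.Lib.MP_640417_ag.FT.Spec

/-! # MP_640417_ag, project FT, module Ker: the kernel of the maps `Ph t` -/

set_option autoImplicit false

noncomputable section

namespace Pool.Agent.FT

open Finset Pool.Agent.FC

/-- elements of `Sp B` are combinations of the classes of the elements of `B` -/
private theorem Ker_sp (B : Finset UnitAddCircle) {s : UnitAddCircle →₀ ℤ}
    (hs : s ∈ Sp (↑B : Set UnitAddCircle)) :
    ∃ c : UnitAddCircle → ℤ, s = ∑ b ∈ B, c b • Finsupp.single b (1 : ℤ) := by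
  classical
  unfold Sp at hs
  induction hs using AddSubgroup.closure_induction with
  | mem x hx =>
    obtain ⟨b, hb, rfl⟩ := hx
    refine ⟨fun y => if y = b then 1 else 0, ?_⟩
    rw [Finset.sum_eq_single b]
    · simp only [if_true, one_smul]
    · intro y _ hyb
      simp only [if_neg hyb, zero_smul]
    · intro hb'
      exact absurd hb hb'
  | zero => exact ⟨fun _ => 0, by simp⟩
  | add x y _ _ hx hy =>
    obtain ⟨c, hc⟩ := hx
    obtain ⟨c', hc'⟩ := hy
    refine ⟨fun b => c b + c' b, ?_⟩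
    rw [hc, hc', ← Finset.sum_add_distrib]
    exact Finset.sum_congr rfl fun b _ => (add_smul _ _ _).symm
  | neg x _ hx =>
    obtain ⟨c, hc⟩ := hx
    refine ⟨fun b => -c b, ?_⟩
    rw [hc, ← Finset.sum_neg_distrib]
    exact Finset.sum_congr rfl fun b _ => (neg_smul _ _).symm

private theorem Ker_ph (t : ℕ) (B : Finset UnitAddCircle) (c : UnitAddCircle → ℤ) :
    Ph t (∑ b ∈ B, c b • Finsupp.single b (1 : ℤ)) = ∑ b ∈ B, (c b : ℝ) * sw (t • b) := by
  rw [map_sum]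
  refine Finset.sum_congr rfl fun b _ => ?_
  rw [map_zsmul, Ph_single, Int.cast_one, one_mul, zsmul_eq_mul]

private theorem Ker_per {M t t' : ℕ} {y : UnitAddCircle} (hy : M • y = 0) (h : t' ≡ t [MOD M]) :
    t' • y = t • y := by
  rw [nsmul_eq_nsmul_iff_modEq]
  exact h.of_dvd (addOrderOf_dvd_of_nsmul_eq_zero hy)

/-- transfer from the numbers prime to `L` to the numbers prime to `M` -/
private theorem Ker_tr (h1 : S_Cop) {M L : ℕ} (hM : 0 < M) (hL : 0 < L) (F : ℕ → ℝ)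
    (hF : ∀ t t' : ℕ, t' ≡ t [MOD M] → F t' = F t) (h0 : ∀ t : ℕ, t.Coprime L → F t = 0) :
    ∀ t : ℕ, t.Coprime M → F t = 0 := by
  intro t ht
  obtain ⟨t', h2, h3⟩ := h1 M L t hM hL ht
  rw [← hF t t' h2]
  exact h0 t' (Nat.Coprime.coprime_mul_left_right h3)

theorem tKer (h1 : S_Cop) (h2 : S_GPh) (h3 : S_Ind) : S_Ker := by
  intro M hM3 hGen f hf hL
  obtain ⟨B, hB1, hB2, hB3⟩ := hGen
  have hM : 0 < M := by omega
  have hle : GG ⊔ Sp (Kz M) ≤ GG ⊔ Sp (↑B : Set UnitAddCircle) := by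
    refine sup_le le_sup_left ?_
    unfold Sp
    rw [AddSubgroup.closure_le]
    rintro _ ⟨b, hb, rfl⟩
    exact hB3 b hb
  have hdec : ∀ f ∈ GG ⊔ Sp (↑B : Set UnitAddCircle), ∃ g ∈ GG, ∃ c : UnitAddCircle → ℤ,
      f = g + ∑ b ∈ B, c b • Finsupp.single b (1 : ℤ) := by
    intro f hf
    obtain ⟨g, hg, s, hs, rfl⟩ := AddSubgroup.mem_sup.1 hf
    obtain ⟨c, hc⟩ := Ker_sp B hs
    exact ⟨g, hg, c, by rw [hc]⟩
  have hper : ∀ (c : UnitAddCircle → ℝ) (t t' : ℕ), t' ≡ t [MOD M] →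
      ∑ b ∈ B, c b * sw (t' • b) = ∑ b ∈ B, c b * sw (t • b) := by
    intro c t t' h
    refine Finset.sum_congr rfl fun b hb => ?_
    rw [Ker_per (hB1 b hb) h]
  have hind : ∀ x ∈ Kz M, ∃ c : UnitAddCircle → ℝ, ∀ t : ℕ, t.Coprime M →
      sw (t • x) = ∑ b ∈ B, c b * sw (t • b) := by
    intro x hx
    obtain ⟨g, hg, c, hc⟩ := hdec _ (hB3 x hx)
    obtain ⟨L, hL0, hL⟩ := h2 g hg
    refine ⟨fun b => (c b : ℝ), ?_⟩
    have h4 := Ker_tr h1 hM hL0 (fun t => sw (t • x) - ∑ b ∈ B, (c b : ℝ) * sw (t • b))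
      (fun t t' h => by
        show sw (t' • x) - _ = sw (t • x) - _
        rw [Ker_per hx.1 h, hper (fun b => (c b : ℝ)) t t' h])
      (fun t ht => by
        have h5 := congrArg (Ph t) hc
        rw [Ph_single, map_add, hL t ht, Ker_ph, Int.cast_one, one_mul, zero_add] at h5
        show sw (t • x) - _ = 0
        rw [h5, sub_self])
    intro t ht
    exact sub_eq_zero.1 (h4 t ht)
  obtain ⟨g, hg, c, hc⟩ := hdec f (hle hf)
  obtain ⟨L, hL0, hL⟩ := hL
  obtain ⟨L', hL0', hL'⟩ := h2 g hg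
  have h4 := Ker_tr h1 hM (Nat.mul_pos hL0 hL0') (fun t => ∑ b ∈ B, (c b : ℝ) * sw (t • b))
    (fun t t' h => hper (fun b => (c b : ℝ)) t t' h)
    (fun t ht => by
      have h5 := congrArg (Ph t) hc
      rw [map_add, hL t (Nat.Coprime.coprime_mul_right_right ht),
        hL' t (Nat.Coprime.coprime_mul_left_right ht), Ker_ph, zero_add] at h5
      exact h5.symm)
  have h5 := h3 M B hM3 hB2 hB1 hind (fun b => (c b : ℝ)) h4
  have h6 : ∑ b ∈ B, c b • Finsupp.single b (1 : ℤ) = 0 := by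
    refine Finset.sum_eq_zero fun b hb => ?_
    have h7 : c b = 0 := by exact_mod_cast h5 b hb
    rw [h7, zero_smul]
  rw [hc, h6, add_zero]
  exact hg

end Pool.Agent.FT
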