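import Pool.Agent.Lib.MP_640417_ag.FT.Spec

set_option autoImplicit false

noncomputable section

namespace Pool.Agent.FT

open Finset Pool.Agent.FC

theorem tLow (h1 : S_Elim) (h2 : S_CntT) : S_Low := by
  classical
  rintro m p hm hp hpm h8 ⟨B₁, hB1, hc1, hg1⟩
  obtain ⟨hfin, hcard⟩ := h2 m p hm hp hpm h8
  have hpd : p ∣ m := (dvd_pow_self p two_ne_zero).trans hpm
  have hsub1 : (↑B₁ : Set UnitAddCircle) ⊆ ↑(B₁ ∪ hfin.toFinset) := by
    intro x hx
    rw [Finset.mem_coe, Finset.mem_union]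
    exact Or.inl hx
  have hsub2 : TT m p ⊆ (↑(B₁ ∪ hfin.toFinset) : Set UnitAddCircle) := by
    intro x hx
    rw [Finset.mem_coe, Finset.mem_union, Set.Finite.mem_toFinset]
    exact Or.inr hx
  refine ⟨B₁ ∪ hfin.toFinset, ?_, ?_, ?_⟩
  · intro b hb
    rcases Finset.mem_union.1 hb with hb | hb
    · have h3 := hB1 b hb
      calc m • b = (p * (m / p)) • b := by rw [Nat.mul_div_cancel' hpd]
        _ = p • ((m / p) • b) := by rw [mul_nsmul']
        _ = 0 := by rw [h3, smul_zero]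
    · rw [Set.Finite.mem_toFinset] at hb
      exact hb.1
  · have h3 : #(B₁ ∪ hfin.toFinset) ≤ #B₁ + hfin.toFinset.card := Finset.card_union_le _ _
    have h4 : (TT m p).ncard = hfin.toFinset.card := Set.ncard_eq_toFinset_card _ hfin
    omega
  · intro x hx
    have h3 := h1 m p hm hp hpm h8 x hx
    have hle : HD ⊔ Sp (TT m p ∪ Kz (m / p)) ≤ GG ⊔ Sp (↑(B₁ ∪ hfin.toFinset)) := by
      refine sup_le (HD_le_GG.trans le_sup_left) ?_
      unfold Sp
      rw [AddSubgroup.closure_le]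
      rintro f ⟨b, hb, rfl⟩
      rcases hb with hb | hb
      · exact AddSubgroup.mem_sup_right (mem_Sp (hsub2 hb))
      · exact (sup_le_sup_left (Sp_mono hsub1) GG) (hg1 b hb)
    exact hle h3

end Pool.Agent.FT
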