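import Pool.Agent.Lib.MP_640417_ag.FT.Spec

/-!
# At least half of the Dirichlet characters are odd
-/

set_option autoImplicit false

noncomputable section

namespace Pool.Agent.FT

open Finset Pool.Agent.FC

theorem tOdd : S_Odd := by
  classical
  intro M _ hM
  have : Fact (2 < M) := ⟨by omega⟩
  have hne : (-1 : ZMod M) ≠ 1 := ZMod.neg_one_ne_one
  have hsum : ∑ χ : DirichletCharacter ℂ M, χ (-1) = 0 :=
    DirichletCharacter.sum_characters_eq_zero ℂ hne
  have hcard : Fintype.card (DirichletCharacter ℂ M) = M.totient := by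
    rw [← Nat.card_eq_fintype_card]
    exact DirichletCharacter.card_eq_totient_of_hasEnoughRootsOfUnity ℂ M
  refine ⟨univ.filter fun χ : DirichletCharacter ℂ M => χ.Odd, fun χ hχ => (mem_filter.1 hχ).2, ?_⟩
  have h1 : ∑ χ : DirichletCharacter ℂ M, χ (-1) =
      ∑ χ ∈ univ.filter (fun χ : DirichletCharacter ℂ M => χ.Odd), (-1 : ℂ) +
        ∑ χ ∈ univ.filter (fun χ : DirichletCharacter ℂ M => ¬ χ.Odd), (1 : ℂ) := by
    rw [← sum_filter_add_sum_filter_not univ (fun χ : DirichletCharacter ℂ M => χ.Odd)]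
    congr 1
    · exact sum_congr rfl fun χ hχ => (mem_filter.1 hχ).2
    · refine sum_congr rfl fun χ hχ => ?_
      rcases χ.even_or_odd with h | h
      · exact h
      · exact absurd h (mem_filter.1 hχ).2
  rw [hsum, sum_const, sum_const, nsmul_eq_mul, nsmul_eq_mul, mul_one] at h1
  have h2 : ((#(univ.filter fun χ : DirichletCharacter ℂ M => χ.Odd) : ℕ) : ℂ) =
      (#(univ.filter fun χ : DirichletCharacter ℂ M => ¬ χ.Odd) : ℕ) := by
    linear_combination h1
  have h3 : #(univ.filter fun χ : DirichletCharacter ℂ M => χ.Odd) =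
      #(univ.filter fun χ : DirichletCharacter ℂ M => ¬ χ.Odd) := by
    exact_mod_cast h2
  have h4 := card_filter_add_card_filter_not (s := (univ : Finset (DirichletCharacter ℂ M)))
    (fun χ : DirichletCharacter ℂ M => χ.Odd)
  rw [card_univ, hcard] at h4
  omega

end Pool.Agent.FT
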