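import Pool.Agent.Lib.MP_640417_ag.FT.Spec

/-!
Facts about the points `k / M`.
-/

set_option autoImplicit false

noncomputable section

namespace Pool.Agent.FT

open Finset Pool.Agent.FC

private theorem pt_eq_zero {M k : ℕ} (hM : 0 < M) : pt M k = 0 ↔ M ∣ k := by
  have hM' : (M : ℝ) ≠ 0 := by exact_mod_cast hM.ne'
  unfold pt
  rw [AddCircle.coe_eq_zero_iff]
  constructor
  · rintro ⟨n, hn⟩
    rw [zsmul_eq_mul, mul_one, eq_div_iff hM'] at hn
    have h : n * (M : ℤ) = (k : ℤ) := by exact_mod_cast hn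
    exact Int.natCast_dvd_natCast.1 ⟨n, by rw [← h]; ring⟩
  · rintro ⟨n, rfl⟩
    refine ⟨n, ?_⟩
    rw [zsmul_eq_mul, mul_one]
    push_cast
    field_simp

private theorem pt_add (M k l : ℕ) : pt M k + pt M l = pt M (k + l) := by
  unfold pt
  rw [← AddCircle.coe_add]
  push_cast
  rw [add_div]

private theorem nsmul_pt (M k n : ℕ) : n • pt M k = pt M (n * k) := by
  unfold pt
  rw [← AddCircle.coe_nsmul]
  congr 1
  rw [nsmul_eq_mul]
  push_cast
  ring

private theorem pt_mod (M k : ℕ) (hM : 0 < M) : pt M (k % M) = pt M k := by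
  conv_rhs => rw [← Nat.mod_add_div k M]
  rw [← pt_add, (pt_eq_zero hM).2 (Dvd.intro _ rfl), add_zero]

private theorem pt_neg (M k l : ℕ) (hM : 0 < M) (h : M ∣ k + l) : pt M l = - pt M k := by
  rw [eq_neg_iff_add_eq_zero, pt_add, pt_eq_zero hM, add_comm]
  exact h

private theorem pt_inj (M k l : ℕ) (hM : 0 < M) : pt M k = pt M l ↔ k ≡ l [MOD M] := by
  obtain ⟨l', hl'⟩ : ∃ l', M ∣ l + l' := ⟨M * l - l, by
    have h : l ≤ M * l := Nat.le_mul_of_pos_left l hM
    rw [Nat.add_sub_cancel' h]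
    exact Dvd.intro _ rfl⟩
  have h1 : pt M k = pt M l ↔ pt M (k + l') = 0 := by
    rw [← pt_add, pt_neg M l l' hM hl', ← sub_eq_add_neg, sub_eq_zero]
  rw [h1, pt_eq_zero hM]
  have h2 : l + l' ≡ 0 [MOD M] := (Nat.modEq_zero_iff_dvd).2 hl'
  constructor
  · intro h
    have h3 : k + l' ≡ 0 [MOD M] := (Nat.modEq_zero_iff_dvd).2 h
    exact Nat.ModEq.add_right_cancel' l' (h3.trans h2.symm)
  · intro h
    exact (Nat.modEq_zero_iff_dvd).1 ((Nat.ModEq.add_right l' h).trans h2)

theorem tPt (h1 : S_Sw) : S_Pt := by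
  refine ⟨fun M x hM => ?_, fun M k l hM => pt_inj M k l hM, fun M k hM => pt_eq_zero hM,
    nsmul_pt, fun M k n j hM hn => ?_, fun M L k hM hL => ?_, fun M k hM => ?_,
    fun M k l hM h => pt_neg M k l hM h⟩
  · have hM' : (M : ℝ) ≠ 0 := by exact_mod_cast hM.ne'
    constructor
    · intro h
      obtain ⟨r, rfl⟩ := QuotientAddGroup.mk_surjective x
      change M • (r : UnitAddCircle) = 0 at h
      rw [← AddCircle.coe_nsmul, AddCircle.coe_eq_zero_iff] at h
      obtain ⟨n, hn⟩ := h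
      rw [zsmul_eq_mul, mul_one, nsmul_eq_mul] at hn
      refine ⟨(n % M).toNat, ?_, ?_⟩
      · have h0 := Int.emod_nonneg n (show (M : ℤ) ≠ 0 by exact_mod_cast hM.ne')
        have h1 := Int.emod_lt_of_pos n (show (0 : ℤ) < M by exact_mod_cast hM)
        omega
      · change (r : UnitAddCircle) = _
        have h0 := Int.emod_nonneg n (show (M : ℤ) ≠ 0 by exact_mod_cast hM.ne')
        unfold pt
        rw [← sub_eq_zero, ← AddCircle.coe_sub, AddCircle.coe_eq_zero_iff]
        refine ⟨n / M, ?_⟩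
        have h2 : (((n % M).toNat : ℕ) : ℝ) = ((n % M : ℤ) : ℝ) := by
          have : (((n % M).toNat : ℕ) : ℤ) = n % M := Int.toNat_of_nonneg h0
          exact_mod_cast this
        rw [h2, zsmul_eq_mul, mul_one]
        have h3 : (n : ℝ) = ((n % M : ℤ) : ℝ) + M * ((n / M : ℤ) : ℝ) := by
          exact_mod_cast (Int.emod_add_mul_ediv n M).symm
        have h4 : r = n / M := by
          rw [hn]
          field_simp
        rw [h4, h3]
        field_simp
        ring
    · rintro ⟨k, -, rfl⟩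
      rw [nsmul_pt, pt_eq_zero hM]
      exact Dvd.intro _ rfl
  · obtain ⟨c, rfl⟩ := hn
    have hn0 : 0 < n := Nat.pos_of_mul_pos_right hM
    have hc0 : 0 < c := Nat.pos_of_mul_pos_left hM
    rw [Nat.mul_div_cancel_left c hn0]
    unfold pt
    rw [← AddCircle.coe_add]
    congr 1
    have h1 : (n : ℝ) ≠ 0 := by exact_mod_cast hn0.ne'
    have h2 : (c : ℝ) ≠ 0 := by exact_mod_cast hc0.ne'
    push_cast
    field_simp
  · obtain ⟨c, rfl⟩ := hL
    have hn0 : 0 < L := Nat.pos_of_mul_pos_right hM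
    have hc0 : 0 < c := Nat.pos_of_mul_pos_left hM
    rw [Nat.mul_div_cancel_left c hn0]
    unfold pt
    congr 1
    have h1 : (L : ℝ) ≠ 0 := by exact_mod_cast hn0.ne'
    have h2 : (c : ℝ) ≠ 0 := by exact_mod_cast hc0.ne'
    push_cast
    field_simp
  · unfold pt
    rw [h1.2.1, Int.fract_div_natCast_eq_div_natCast_mod]

end Pool.Agent.FT
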