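import Pool.Agent.Lib.MP_640417_ag.FT.Spec

/-!
# Red: twice an odd level
-/

set_option autoImplicit false

noncomputable section

namespace Pool.Agent.FT

open Finset Pool.Agent.FC

theorem tRed (h1 : S_Pt) (h2 : S_HDf) : S_Red := by
  obtain ⟨hP1, hP2, hP3, hP4, -, -, -, -⟩ := h1
  obtain ⟨-, hH2, hH3⟩ := h2
  intro M hM x hx
  obtain ⟨hx1, hx2⟩ := hx
  have hSp : ∀ z ∈ Kz M, Finsupp.single z (1 : ℤ) ∈ HD ⊔ Sp (Kz M) := fun z hz =>
    AddSubgroup.mem_sup_right (AddSubgroup.subset_closure ⟨z, hz, rfl⟩)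
  by_cases hMx : M • x = 0
  · exact hSp x ⟨hMx, hx2⟩
  · have hz2 : 2 • (M • x) = 0 := by
      rw [← mul_nsmul', mul_comm]
      rw [mul_comm]
      exact hx1
    have hh0 : pt 2 1 + pt 2 1 = 0 := by
      rw [← two_nsmul, hP4]
      exact (hP3 2 _ two_pos).2 (by norm_num)
    have hMx1 : M • x = pt 2 1 := by
      obtain ⟨k, hk, hk2⟩ := (hP1 2 (M • x) two_pos).1 hz2
      have hk3 : k = 0 ∨ k = 1 := by omega
      rcases hk3 with rfl | rfl
      · exfalso
        apply hMx
        rw [hk2]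
        exact (hP3 2 0 two_pos).2 (dvd_zero 2)
      · exact hk2
    have hMh : M • pt 2 1 = pt 2 1 := by
      rw [hP4]
      refine (hP2 2 _ _ two_pos).2 ?_
      rw [mul_one]
      change M % 2 = 1 % 2
      omega
    have hyx : x + pt 2 1 + pt 2 1 = x := by rw [add_assoc, hh0, add_zero]
    have hMy : M • (x + pt 2 1) = 0 := by
      rw [nsmul_add, hMx1, hMh, hh0]
    by_cases hy : x + pt 2 1 = 0
    · have hxh : x = pt 2 1 := by
        rw [hy, zero_add] at hyx
        exact hyx.symm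
      rw [hxh]
      exact AddSubgroup.mem_sup_left hH3
    · have h2y : 2 • (x + pt 2 1) ≠ 0 := by
        intro h0
        apply hy
        have hM2 : M = (M / 2) * 2 + 1 := by omega
        have e : M • (x + pt 2 1) = (M / 2) • (2 • (x + pt 2 1)) + (x + pt 2 1) := by
          conv_lhs => rw [hM2]
          rw [add_nsmul, one_nsmul, mul_nsmul']
        rw [hMy, h0, nsmul_zero, zero_add] at e
        exact e.symm
      have h3 := hH2 2 (x + pt 2 1) two_pos h2y
      have hI : Ico 1 2 = ({1} : Finset ℕ) := rfl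
      rw [hI, Finset.sum_singleton] at h3
      have e2 : x + pt 2 1 + (((1 : ℕ) / (2 : ℕ) : ℝ) : UnitAddCircle) = x := hyx
      rw [e2] at h3
      have h4 := hSp (x + pt 2 1) ⟨hMy, hy⟩
      have h5 := hSp (2 • (x + pt 2 1)) ⟨by
        rw [← mul_nsmul', mul_comm, mul_nsmul', hMy, nsmul_zero], h2y⟩
      have h6 : Finsupp.single x (1 : ℤ) =
          (Finsupp.single (x + pt 2 1) (1 : ℤ) + Finsupp.single x 1 -
            Finsupp.single (2 • (x + pt 2 1)) 1) - Finsupp.single (x + pt 2 1) 1 +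
            Finsupp.single (2 • (x + pt 2 1)) 1 := by abel
      rw [h6]
      exact AddSubgroup.add_mem _ (AddSubgroup.sub_mem _ (AddSubgroup.mem_sup_left h3) h4) h5

end Pool.Agent.FT
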