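import Pool.Agent.Lib.MP_640417_ag.FT.Spec

/-!
# Tate characters of Fermat varieties: the other elements of the coset of a bad element are not bad
-/

set_option autoImplicit false

namespace Pool.Agent.FT

noncomputable section

open Finset Pool.Agent.FC

private theorem stl_smul (u j l : ℕ) :
    u • ((j / l : ℝ) : UnitAddCircle) = (((u * j : ℕ) / l : ℝ) : UnitAddCircle) := by
  rw [← AddCircle.coe_nsmul]
  congr 1
  rw [nsmul_eq_mul]
  push_cast
  ring

/-- **StL.** -/
theorem tStL (h1 : S_Pt) : S_StL := by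
  intro m l j x hm hl hx hj hjl hbad
  obtain ⟨-, h2, -, -, h5, -, -, -⟩ := h1
  have hlp : l.Prime := Nat.prime_of_mem_primeFactors hl
  have hv : 0 < m.factorization l :=
    hlp.factorization_pos_of_dvd hm.ne' (Nat.dvd_of_mem_primeFactors hl)
  obtain ⟨k, hk0, hk1, hk⟩ := hx
  obtain ⟨k', hk0', hk1', hk'⟩ := hbad
  have hcop : Nat.Coprime l (m / l ^ m.factorization l) := Nat.coprime_ordCompl hlp hm.ne'
  unfold cc at hk hk'
  generalize m / l ^ m.factorization l = u at hk hk' hcop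
  generalize m.factorization l = v at hk hk' hk1 hk1' hv
  have hN : 0 < l ^ (v - 1) := pow_pos hlp.pos _
  have hM : 0 < l ^ v := pow_pos hlp.pos _
  have hMN : l ^ v = l * l ^ (v - 1) := by
    rw [← pow_succ']
    congr 1
    omega
  have hdiv : l ^ v / l = l ^ (v - 1) := by
    rw [hMN]
    exact Nat.mul_div_cancel_left _ hlp.pos
  rw [smul_add, hk, stl_smul, h5 _ k l (u * j) hM (hMN ▸ dvd_mul_right l _), hdiv, h2 _ _ _ hM] at hk'
  have h6 : k ≡ k' [MOD l ^ (v - 1)] := by
    have h7 : k + u * j * l ^ (v - 1) ≡ k' [MOD l ^ (v - 1)] :=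
      hk'.of_dvd (hMN ▸ dvd_mul_left _ l)
    have h8 : k + u * j * l ^ (v - 1) ≡ k [MOD l ^ (v - 1)] := by
      simp [Nat.ModEq]
    exact h8.symm.trans h7
  have h9 : k = k' := by
    apply h6.eq_of_abs_lt
    rw [abs_lt]
    have e1 : (k : ℤ) ≤ (l ^ (v - 1) : ℕ) := by exact_mod_cast hk1
    have e2 : (k' : ℤ) ≤ (l ^ (v - 1) : ℕ) := by exact_mod_cast hk1'
    have e3 : (0 : ℤ) < k := by exact_mod_cast hk0
    have e4 : (0 : ℤ) < k' := by exact_mod_cast hk0'
    constructor <;> linarith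
  rw [← h9] at hk'
  have h10 : u * j * l ^ (v - 1) ≡ 0 [MOD l ^ v] :=
    Nat.ModEq.add_left_cancel' k (by rw [add_zero]; exact hk')
  have h11 : l ^ v ∣ u * j * l ^ (v - 1) := (Nat.modEq_zero_iff_dvd).1 h10
  rw [hMN] at h11
  have h12 : l ∣ u * j := Nat.dvd_of_mul_dvd_mul_right hN h11
  have h13 : l ∣ j := hcop.dvd_of_dvd_mul_left h12
  exact absurd (Nat.le_of_dvd hj h13) (by omega)

end

end Pool.Agent.FT
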