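import Pool.Agent.Lib.MP_640417_ag.FT.Spec

/-! # MP_640417_ag, project FT, module StP: the coordinate at `p` -/

set_option autoImplicit false

noncomputable section

namespace Pool.Agent.FT

open Finset Pool.Agent.FC

private theorem StP_dvd {p n k c : ℕ} (hp : p.Prime) (hn : p ∣ n) (h4 : p = 2 → 4 ∣ n)
    (h : 2 * k = n * c) : p ∣ k := by
  by_cases h2 : p = 2
  · obtain ⟨e, he⟩ := h4 h2
    rw [h2]
    refine ⟨e * c, ?_⟩
    rw [he] at h
    have h5 : 2 * k = 2 * (2 * (e * c)) := by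
      rw [h]
      ring
    omega
  · have h5 : p ∣ 2 * k := by
      rw [h]
      exact hn.mul_right c
    rcases (hp.dvd_mul).1 h5 with h6 | h6
    · exact absurd ((Nat.prime_dvd_prime_iff_eq hp Nat.prime_two).1 h6) h2
    · exact h6

private theorem StP_abs {p n r : ℕ} (hp : 0 < p) (hn : 0 < n) (h1 : n < 2 * r)
    (h2 : 2 * r + n < 2 * (p * n)) :
    |(r : ℝ) / ((p * n : ℕ) : ℝ) - 1 / 2| < 1 / 2 - 1 / (2 * p) := by
  have hp' : (0 : ℝ) < p := by exact_mod_cast hp
  have hn' : (0 : ℝ) < n := by exact_mod_cast hn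
  have h1' : (n : ℝ) < 2 * r := by exact_mod_cast h1
  have h2' : (2 * r + n : ℝ) < 2 * (p * n) := by exact_mod_cast h2
  have e1 : (r : ℝ) / ((p * n : ℕ) : ℝ) = (2 * r) / (2 * p * n) := by
    push_cast
    field_simp
  have e2 : (1 : ℝ) / (2 * p) = n / (2 * p * n) := by
    field_simp
  have h3 : (0 : ℝ) < 2 * p * n := by positivity
  rw [e1, e2, abs_lt]
  constructor
  · have h4 : (n : ℝ) / (2 * p * n) < 2 * r / (2 * p * n) := div_lt_div_of_pos_right h1' h3
    linarith
  · have h4 : (2 * r : ℝ) / (2 * p * n) + n / (2 * p * n) < 1 := by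
      rw [← add_div, div_lt_one h3]
      linarith
    linarith

theorem tStP (h1 : S_Pt) : S_StP := by
  obtain ⟨hP1, -, hP3, hP4, hP5, -, hP7, -⟩ := h1
  intro m p x hm hp hpm h8 hx hxp
  have hm' : m ≠ 0 := hm.ne'
  have hp0 : 0 < p := hp.pos
  obtain ⟨a, ha⟩ : ∃ a, a = m.factorization p := ⟨_, rfl⟩
  have ha2 : 2 ≤ a := by
    rw [ha]
    exact (hp.pow_dvd_iff_le_factorization hm').1 hpm
  obtain ⟨n, hn⟩ : ∃ n, n = p ^ (a - 1) := ⟨_, rfl⟩
  have hn0 : 0 < n := by rw [hn]; exact pow_pos hp0 _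
  have hq : p ^ a = p * n := by
    rw [hn, ← pow_succ']
    congr 1
    omega
  obtain ⟨u, hu⟩ : ∃ u, u = m / p ^ a := ⟨_, rfl⟩
  have hmu : m = p * n * u := by
    rw [hu, ← hq, ha]
    exact (Nat.ordProj_mul_ordCompl_eq_self m p).symm
  have hpu : ¬ p ∣ u := by
    rw [hu, ha]
    exact Nat.not_dvd_ordCompl hp hm'
  have hcc : ∀ y, cc m p y = u • y := by
    intro y
    unfold cc
    rw [← ha, ← hu]
  have hpn : p ∣ n := by
    rw [hn]
    exact dvd_pow_self p (by omega)
  have hn4 : p = 2 → 4 ∣ n := by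
    intro h2
    have h3 : 3 ≤ a := by
      have h4 := h8 h2
      rw [ha]
      refine (hp.pow_dvd_iff_le_factorization hm').1 ?_
      rw [h2]
      exact h4
    rw [hn, h2]
    have e : (4 : ℕ) = 2 ^ 2 := by norm_num
    rw [e]
    exact pow_dvd_pow 2 (by omega)
  have hM0 : 0 < p * n := Nat.mul_pos hp0 hn0
  obtain ⟨k, hk, hxk⟩ := (hP1 (p * n) (u • x) hM0).1 (by
    rw [← mul_nsmul', ← hmu]
    exact hx)
  have hpk : ¬ p ∣ k := by
    rintro ⟨e, he⟩
    apply hxp
    have e1 : m / p = n * u := by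
      rw [hmu, mul_assoc, Nat.mul_div_cancel_left _ hp0]
    rw [e1, mul_nsmul', hxk, hP4, hP3 _ _ hM0]
    exact ⟨e, by rw [he]; ring⟩
  have hsw : sw (cc m p x) = (k : ℝ) / ((p * n : ℕ) : ℝ) - 1 / 2 := by
    rw [hcc, hxk, hP7 _ _ hM0, Nat.mod_eq_of_lt hk]
  constructor
  · rw [hsw]
    intro h
    have hM0' : (0 : ℝ) < ((p * n : ℕ) : ℝ) := by exact_mod_cast hM0
    have h2 : (k : ℝ) / ((p * n : ℕ) : ℝ) = 1 / 2 := by linarith
    rw [div_eq_div_iff hM0'.ne' two_ne_zero, one_mul] at h2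
    have h3 : k * 2 = p * n := by exact_mod_cast h2
    exact hpk (StP_dvd hp hpn hn4 (c := p) (by rw [mul_comm, h3, mul_comm]))
  · intro hab j hj0 hjp
    have hcase : 2 * k < n ∨ 2 * (p * n) < 2 * k + n := by
      by_contra hc
      push Not at hc
      obtain ⟨hc1, hc2⟩ := hc
      have hc1' : n < 2 * k := by
        refine lt_of_le_of_ne hc1 fun h => hpk ?_
        exact StP_dvd hp hpn hn4 (c := 1) (by omega)
      have hc2' : 2 * k + n < 2 * (p * n) := by
        refine lt_of_le_of_ne hc2 fun h => hpk ?_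
        refine StP_dvd hp hpn hn4 (c := 2 * p - 1) ?_
        have h5 : n * (2 * p - 1) = 2 * (p * n) - n := by
          rw [Nat.mul_sub, mul_one]
          congr 1
          ring
        omega
      apply hab
      rw [hsw]
      exact StP_abs hp0 hn0 hc1' hc2'
    obtain ⟨i, hi⟩ : ∃ i, i = (u * j) % p := ⟨_, rfl⟩
    have hip : i < p := by rw [hi]; exact Nat.mod_lt _ hp0
    have hi0 : 0 < i := by
      rw [hi]
      refine Nat.pos_of_ne_zero fun h => ?_
      rcases hp.dvd_mul.1 (Nat.dvd_of_mod_eq_zero h) with h5 | h5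
      · exact hpu h5
      · exact absurd (Nat.le_of_dvd hj0 h5) (by omega)
    have hcj : cc m p (x + ((j / p : ℝ) : UnitAddCircle)) = pt (p * n) (k + u * j * n) := by
      rw [hcc, smul_add, hxk, ← AddCircle.coe_nsmul, nsmul_eq_mul]
      have e1 : (u : ℝ) * (j / p) = ((u * j : ℕ) : ℝ) / (p : ℝ) := by
        push_cast
        ring
      rw [e1, hP5 (p * n) k p (u * j) hM0 (Dvd.intro _ rfl), Nat.mul_div_cancel_left _ hp0]
    have hmod : (k + u * j * n) % (p * n) = (k + i * n) % (p * n) := by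
      have h5 : u * j = p * (u * j / p) + i := by
        rw [hi]
        exact (Nat.div_add_mod _ _).symm
      have h6 : k + u * j * n = k + i * n + p * n * (u * j / p) := by
        conv_lhs => rw [h5]
        ring
      rw [h6, Nat.add_mul_mod_self_left]
    have hin1 : n ≤ i * n := Nat.le_mul_of_pos_left n hi0
    have hin2 : i * n + n ≤ p * n := by
      have h5 : i * n + n = (i + 1) * n := by ring
      rw [h5]
      exact Nat.mul_le_mul_right n hip
    rw [hcj, hP7 _ _ hM0, hmod]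
    rcases hcase with h5 | h5
    · have h6 : (k + i * n) % (p * n) = k + i * n := Nat.mod_eq_of_lt (by omega)
      rw [h6]
      exact StP_abs hp0 hn0 (by omega) (by omega)
    · have h6 : (k + i * n) % (p * n) = k + i * n - p * n := by
        rw [Nat.mod_eq_sub_mod (by omega), Nat.mod_eq_of_lt (by omega)]
      rw [h6]
      exact StP_abs hp0 hn0 (by omega) (by omega)

end Pool.Agent.FT
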