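import Pool.Agent.Lib.MP_640417_ag.FC.B.Cop
import Pool.Agent.Lib.MP_640417_ag.FC.B.Sw
import Pool.Agent.Lib.MP_640417_ag.FC.B.Dis
import Pool.Agent.Lib.MP_640417_ag.FT.Hz
import Pool.Agent.Lib.MP_640417_ag.FT.Cot
import Pool.Agent.Lib.MP_640417_ag.FT.Coe
import Pool.Agent.Lib.MP_640417_ag.FT.Odd
import Pool.Agent.Lib.MP_640417_ag.FT.Ind
import Pool.Agent.Lib.MP_640417_ag.FT.Pt
import Pool.Agent.Lib.MP_640417_ag.FT.HDf
import Pool.Agent.Lib.MP_640417_ag.FT.GPh
import Pool.Agent.Lib.MP_640417_ag.FT.GRel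
import Pool.Agent.Lib.MP_640417_ag.FT.Ker
import Pool.Agent.Lib.MP_640417_ag.FT.Cc
import Pool.Agent.Lib.MP_640417_ag.FT.StL
import Pool.Agent.Lib.MP_640417_ag.FT.StP
import Pool.Agent.Lib.MP_640417_ag.FT.Elim
import Pool.Agent.Lib.MP_640417_ag.FT.CntP
import Pool.Agent.Lib.MP_640417_ag.FT.CntT
import Pool.Agent.Lib.MP_640417_ag.FT.Low
import Pool.Agent.Lib.MP_640417_ag.FT.Chn
import Pool.Agent.Lib.MP_640417_ag.FT.Cert
import Pool.Agent.Lib.MP_640417_ag.FT.BasP
import Pool.Agent.Lib.MP_640417_ag.FT.Bas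
import Pool.Agent.Lib.MP_640417_ag.FT.Red
import Pool.Agent.Lib.MP_640417_ag.FT.Emb
import Pool.Agent.Lib.MP_640417_ag.FT.End

/-!
THEOREM F3P: the statements of `FT/Spec.lean`, without hypotheses.
-/

set_option autoImplicit false

noncomputable section

namespace Pool.Agent.FT

open Finset Pool.Agent.FC

theorem hSw : S_Sw := tSw

theorem hDis : S_Dis := tDis hSw

theorem hHz : S_Hz := tHz

theorem hCot : S_Cot := tCot hHz

theorem hCoe : S_Coe := tCoe hCot

theorem hOdd : S_Odd := tOdd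

theorem hInd : S_Ind := tInd hCoe hOdd

theorem hPt : S_Pt := tPt hSw

theorem hHDf : S_HDf := tHDf hPt

theorem hGPh : S_GPh := tGPh hSw hDis hPt

theorem hGRel : S_GRel := tGRel tCop hGPh

theorem hKer : S_Ker := tKer tCop hGPh hInd

theorem hCc : S_Cc := tCc hPt

theorem hStL : S_StL := tStL hPt

theorem hStP : S_StP := tStP hPt

theorem hElim : S_Elim := tElim hSw hPt hHDf hCc hStL hStP

theorem hCntT : S_CntT := tCntT hPt hCc tCntP

theorem hLow : S_Low := tLow hElim hCntT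

theorem hChn : S_Chn := tChn hLow

theorem hBasP : S_BasP := tBasP hPt hHDf

theorem hBas : S_Bas := tBas (tCert hPt hHDf)

theorem hRed : S_Red := tRed hPt hHDf

theorem hEmb : S_Emb := tEmb hPt hHDf hChn hBasP hBas hRed

/-- **THEOREM F3P.** -/
theorem hEnd : S_End := tEnd hKer hEmb

/-- **THEOREM F3P for tuples.** -/
theorem hEndT : S_EndT := tEndT hEnd

end Pool.Agent.FT
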